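import Pool.Agent.H46.GR.Stmts

/-!
# Accounting inequality for a small side
-/

namespace Pool.Agent.H46.GR

open Finset
open scoped Classical

namespace AccSmall

lemma edg_le {α β : Type} (E : α → β → Prop) (A : Finset α) (B : Finset β) :
    edg E A B ≤ A.card * B.card := by
  unfold edg
  calc ∑ x ∈ A, (B.filter (fun y => E x y)).card ≤ ∑ _x ∈ A, B.card :=
        sum_le_sum fun x _ => card_filter_le _ _
    _ = A.card * B.card := by rw [sum_const, smul_eq_mul]

/-- `(D-1) (2k-1) ≤ k (k-1)` with `k = c+1`, `D = δ+1`. -/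
lemma dc {c δ : ℕ} (h : 2 * δ ≤ c) : (2 * c + 1) * δ ≤ (c + 1) * c := by nlinarith

lemma acc_zero {α β : Type} [Fintype α] [Fintype β] (E : α → β → Prop) (k D : ℕ) (A : Finset α)
    (B : Finset β)
    (h : 2 * (2 * k - 1) ^ 2 * edg E A B ≤ 2 * k * (k - 1) * (2 * k - 1) * (A.card + B.card)) :
    Acc E k D A B := by
  refine ⟨fun _ _ => 0, fun _ _ => 0, fun _ _ h => absurd rfl h, fun _ _ h => absurd rfl h, ?_⟩
  simpa using h

/-- the charges -/
noncomputable def Z {α β : Type} (E : α → β → Prop) (X : Finset α) (Y : Finset β) (y y' : β) : ℕ :=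
  (X.filter (fun z => (y, y') ∈ (Y.filter (fun v => E z v)).offDiag)).card

lemma sum_Z {α β : Type} [Fintype β] (E : α → β → Prop) (X : Finset α) (Y : Finset β) :
    ∑ y : β, ∑ y' : β, Z E X Y y y' =
      ∑ z ∈ X, ((Y.filter (fun v => E z v)).card * (Y.filter (fun v => E z v)).card -
        (Y.filter (fun v => E z v)).card) := by
  rw [← Fintype.sum_prod_type' (fun y y' => Z E X Y y y')]
  calc ∑ p : β × β, Z E X Y p.1 p.2
      = ∑ p : β × β, ∑ z ∈ X, if p ∈ (Y.filter (fun v => E z v)).offDiag then 1 else 0 := by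
        refine sum_congr rfl fun p _ => ?_
        rw [← card_filter]
        rfl
    _ = ∑ z ∈ X, ∑ p : β × β, if p ∈ (Y.filter (fun v => E z v)).offDiag then 1 else 0 :=
        sum_comm
    _ = _ := by
        refine sum_congr rfl fun z _ => ?_
        rw [← card_filter, ← offDiag_card]
        congr 1
        ext p
        simp

end AccSmall

open AccSmall in
theorem accSmall (hp : S_peel) : S_accSmall := by
  intro α β _ _ E k D A B hk hD h1 h2 hA
  obtain ⟨c, rfl⟩ : ∃ c, k = c + 1 := ⟨k - 1, by omega⟩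
  obtain ⟨δ, rfl⟩ : ∃ δ, D = δ + 1 := ⟨D - 1, by omega⟩
  have e1 : 2 * (c + 1) - 1 = 2 * c + 1 := by omega
  have e2 : c + 1 - 1 = c := by omega
  have hdc : (2 * c + 1) * δ ≤ (c + 1) * c := dc (by omega)
  have hA' : A.card ≤ c := by omega
  rcases le_total B.card (c + 1) with hB | hB
  · apply acc_zero
    rw [e1, e2]
    have h3 := edg_le E A B
    have h4 : (2 * c + 1) * (A.card * B.card) ≤ (c + 1) * c * (A.card + B.card) := by
      have h5 : A.card * B.card ≤ c * B.card := Nat.mul_le_mul_right _ hA'
      have h6 : A.card * B.card ≤ A.card * (c + 1) := Nat.mul_le_mul_left _ hB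
      nlinarith
    calc 2 * (2 * c + 1) ^ 2 * edg E A B
        ≤ 2 * (2 * c + 1) ^ 2 * (A.card * B.card) := Nat.mul_le_mul_left _ h3
      _ = 2 * (2 * c + 1) * ((2 * c + 1) * (A.card * B.card)) := by ring
      _ ≤ 2 * (2 * c + 1) * ((c + 1) * c * (A.card + B.card)) := Nat.mul_le_mul_left _ h4
      _ = 2 * (c + 1) * c * (2 * c + 1) * (A.card + B.card) := by ring
  · rcases hp α β E (c + 1) (δ + 1) A B hD hB with h | ⟨X', hX, Y', hY, hne, hY', hdY, hdX, he⟩
    · apply acc_zero
      rw [e1, e2]
      obtain ⟨t, ht⟩ : ∃ t, B.card = c + 1 + t := ⟨B.card - (c + 1), by omega⟩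
      rw [ht, Nat.add_sub_cancel_left, Nat.add_sub_cancel] at h
      have h4 : (2 * c + 1) * edg E A B ≤ (c + 1) * c * (A.card + B.card) := by
        calc (2 * c + 1) * edg E A B ≤ (2 * c + 1) * ((c + 1) * A.card + δ * t) :=
              Nat.mul_le_mul_left _ h
          _ = (c + 1) * (c + 1) * A.card + (c + 1) * c * A.card + (2 * c + 1) * δ * t := by ring
          _ ≤ (c + 1) * (c + 1) * c + (c + 1) * c * A.card + (c + 1) * c * t := by
              gcongr
          _ = (c + 1) * c * (A.card + B.card) := by rw [ht]; ring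
      calc 2 * (2 * c + 1) ^ 2 * edg E A B = 2 * (2 * c + 1) * ((2 * c + 1) * edg E A B) := by ring
        _ ≤ 2 * (2 * c + 1) * ((c + 1) * c * (A.card + B.card)) := Nat.mul_le_mul_left _ h4
        _ = 2 * (c + 1) * c * (2 * c + 1) * (A.card + B.card) := by ring
    · have hXc : X'.card ≤ A.card := card_le_card hX
      have hYc : Y'.card ≤ B.card := card_le_card hY
      have hU : IsUnit' E (c + 1) (δ + 1) X' Y' := ⟨by omega, hdY, hdX⟩
      refine ⟨Z E X' Y', fun _ _ => 0, ?_, fun _ _ h => absurd rfl h, ?_⟩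
      · intro y y' h
        obtain ⟨z, hz⟩ := card_pos.1 (Nat.pos_of_ne_zero h)
        obtain ⟨hz1, hz2⟩ := mem_filter.1 hz
        obtain ⟨h3, h4, h5⟩ := mem_offDiag.1 hz2
        have h6 := (mem_filter.1 h3).1
        have h7 := (mem_filter.1 h4).1
        refine ⟨hY h6, hY h7, h5, X', Y', hU, h6, h7, ?_⟩
        refine card_le_card fun w hw => ?_
        obtain ⟨hw1, hw2⟩ := mem_filter.1 hw
        obtain ⟨h8, h9, _⟩ := mem_offDiag.1 hw2
        exact mem_filter.2 ⟨hw1, (mem_filter.1 h8).2, (mem_filter.1 h9).2⟩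
      · rw [e1, e2, sum_Z]
        obtain ⟨s, hs⟩ : ∃ s, A.card = X'.card + s := ⟨A.card - X'.card, by omega⟩
        obtain ⟨t, ht⟩ : ∃ t, B.card = Y'.card + t := ⟨B.card - Y'.card, by omega⟩
        rw [hs, ht, Nat.add_sub_cancel_left, Nat.add_sub_cancel_left, Nat.add_sub_cancel] at he
        have hsum : 2 * (2 * c + 1) ^ 2 * edg E X' Y' ≤
            2 * (c + 1) * c * (2 * c + 1) * X'.card +
            c * ∑ z ∈ X', ((Y'.filter (fun v => E z v)).card * (Y'.filter (fun v => E z v)).card -
              (Y'.filter (fun v => E z v)).card) +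
            2 * (c + 1) * (2 * c + 1) * Y'.card * X'.card := by
          unfold edg
          rw [mul_sum, mul_sum]
          have h9 : ∀ z ∈ X', 2 * (2 * c + 1) ^ 2 * (Y'.filter (fun v => E z v)).card ≤
              2 * (c + 1) * c * (2 * c + 1) +
              c * ((Y'.filter (fun v => E z v)).card * (Y'.filter (fun v => E z v)).card -
                (Y'.filter (fun v => E z v)).card) +
              2 * (c + 1) * (2 * c + 1) * Y'.card := by
            intro z _
            have hd : (Y'.filter (fun v => E z v)).card ≤ Y'.card := card_filter_le _ _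
            generalize (Y'.filter (fun v => E z v)).card = d at *
            have hq : 2 * (2 * c + 1) * d ≤ 2 * (c + 1) * (2 * c + 1) + (d * d - d) := by
              have h10 : d ≤ d * d := Nat.le_mul_self d
              zify [h10]
              rcases le_or_gt (2 * ((c : ℤ) + 1)) d with h | h
              · nlinarith [mul_nonneg (sub_nonneg.2 h) (show (0 : ℤ) ≤ d - 2 * (c + 1) + 1 by linarith)]
              · nlinarith [mul_nonneg (show (0 : ℤ) ≤ 2 * (c + 1) - d by linarith)
                  (show (0 : ℤ) ≤ 2 * (c + 1) - d - 1 by linarith)]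
            calc 2 * (2 * c + 1) ^ 2 * d
                = c * (2 * (2 * c + 1) * d) + 2 * (c + 1) * (2 * c + 1) * d := by ring
              _ ≤ c * (2 * (c + 1) * (2 * c + 1) + (d * d - d)) +
                  2 * (c + 1) * (2 * c + 1) * Y'.card := by gcongr
              _ = 2 * (c + 1) * c * (2 * c + 1) + c * (d * d - d) +
                  2 * (c + 1) * (2 * c + 1) * Y'.card := by ring
          refine (sum_le_sum h9).trans (le_of_eq ?_)
          rw [sum_add_distrib, sum_add_distrib, sum_const, sum_const, smul_eq_mul, smul_eq_mul]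
          ring
        set Q := ∑ z ∈ X', ((Y'.filter (fun v => E z v)).card *
          (Y'.filter (fun v => E z v)).card - (Y'.filter (fun v => E z v)).card) with hQ
        have hsc : X'.card + s ≤ c := by omega
        have h11 : 2 * (2 * c + 1) ^ 2 * ((c + 1) * s) ≤
            2 * (c + 1) * c * (2 * c + 1) * s + 2 * (c + 1) * (2 * c + 1) * Y'.card * s := by
          calc 2 * (2 * c + 1) ^ 2 * ((c + 1) * s)
              = 2 * (c + 1) * c * (2 * c + 1) * s + 2 * (c + 1) * (2 * c + 1) * (c + 1) * s := by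
                ring
            _ ≤ _ := by
                have : c + 1 ≤ Y'.card := by omega
                gcongr
        have h12 : 2 * (2 * c + 1) ^ 2 * (δ * t) ≤ 2 * (c + 1) * c * (2 * c + 1) * t := by
          calc 2 * (2 * c + 1) ^ 2 * (δ * t) = 2 * (2 * c + 1) * ((2 * c + 1) * δ) * t := by ring
            _ ≤ 2 * (2 * c + 1) * ((c + 1) * c) * t := by gcongr
            _ = _ := by ring
        have h13 : 2 * (c + 1) * (2 * c + 1) * Y'.card * X'.card +
            2 * (c + 1) * (2 * c + 1) * Y'.card * s ≤ 2 * (c + 1) * c * (2 * c + 1) * Y'.card := by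
          calc 2 * (c + 1) * (2 * c + 1) * Y'.card * X'.card +
              2 * (c + 1) * (2 * c + 1) * Y'.card * s
              = 2 * (c + 1) * (2 * c + 1) * Y'.card * (X'.card + s) := by ring
            _ ≤ 2 * (c + 1) * (2 * c + 1) * Y'.card * c := Nat.mul_le_mul_left _ hsc
            _ = _ := by ring
        have h14 : 2 * (2 * c + 1) ^ 2 * edg E A B ≤ 2 * (2 * c + 1) ^ 2 * edg E X' Y' +
            2 * (2 * c + 1) ^ 2 * ((c + 1) * s) + 2 * (2 * c + 1) ^ 2 * (δ * t) := by
          calc 2 * (2 * c + 1) ^ 2 * edg E A B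
              ≤ 2 * (2 * c + 1) ^ 2 * (edg E X' Y' + (c + 1) * s + δ * t) :=
                Nat.mul_le_mul_left _ he
            _ = _ := by ring
        have h15 : 2 * (c + 1) * c * (2 * c + 1) * (A.card + B.card) =
            2 * (c + 1) * c * (2 * c + 1) * X'.card + 2 * (c + 1) * c * (2 * c + 1) * s +
            2 * (c + 1) * c * (2 * c + 1) * Y'.card + 2 * (c + 1) * c * (2 * c + 1) * t := by
          rw [hs, ht]; ring
        rw [h15]
        simp only [sum_const_zero, add_zero]
        omega

end Pool.Agent.H46.GR
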