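import Pool.Agent.H46.GR.Stmts

namespace Pool.Agent.H46.GR

open Finset
open scoped Classical

namespace AccountAux

theorem edg_eq {α β : Type} (E : α → β → Prop) (X : Finset α) (Y : Finset β) :
    edg E X Y = ∑ x ∈ X, ∑ y ∈ Y, (if E x y then 1 else 0) := by
  unfold edg
  refine sum_congr rfl fun x _ => ?_
  rw [card_filter]

theorem edg_flip {α β : Type} (E : α → β → Prop) (X : Finset α) (Y : Finset β) :
    edg (fun v u => E u v) Y X = edg E X Y := by
  rw [edg_eq, edg_eq, sum_comm]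

theorem acc_flip {α β : Type} [Fintype α] [Fintype β] {E : α → β → Prop} {k D : ℕ}
    {A : Finset α} {B : Finset β} (h : Acc E k D A B) : Acc (fun v u => E u v) k D B A := by
  obtain ⟨Zβ, Zα, h1, h2, h3⟩ := h
  refine ⟨Zα, Zβ, h2, h1, ?_⟩
  rw [edg_flip, add_comm B.card A.card, add_comm (∑ y : α, ∑ y' : α, Zα y y')]
  exact h3

/-- removing a vertex of degree at most `D-1` -/
theorem acc_low {α β : Type} [Fintype α] [Fintype β] {E : α → β → Prop} {k D : ℕ}
    {A : Finset α} {B : Finset β} (hk : 4 ≤ k) (hD : 2 * D ≤ k + 1) {u : α} (hu : u ∈ A)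
    (hd : (B.filter (fun v => E u v)).card + 1 ≤ D) (h : Acc E k D (A.erase u) B) :
    Acc E k D A B := by
  obtain ⟨Zβ, Zα, h1, h2, h3⟩ := h
  refine ⟨Zβ, Zα, h1, fun y y' hy => ?_, ?_⟩
  · obtain ⟨a, b, c⟩ := h2 y y' hy
    exact ⟨mem_of_mem_erase a, mem_of_mem_erase b, c⟩
  · have e1 : edg E A B = edg E (A.erase u) B + (B.filter (fun v => E u v)).card := by
      unfold edg
      rw [sum_erase_add _ _ hu]
    have e2 : A.card = (A.erase u).card + 1 := by
      rw [card_erase_of_mem hu]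
      have := card_pos.2 ⟨u, hu⟩
      omega
    rw [e1, e2]
    set d := (B.filter (fun v => E u v)).card
    set e := edg E (A.erase u) B
    set a := (A.erase u).card
    set s := ∑ y : β, ∑ y' : β, Zβ y y' + ∑ y : α, ∑ y' : α, Zα y y'
    obtain ⟨m, rfl⟩ : ∃ m, k = m + 1 := ⟨k - 1, by omega⟩
    have hdm : 2 * d ≤ m := by omega
    have e3 : 2 * (m + 1) - 1 = 2 * m + 1 := by omega
    rw [e3] at h3 ⊢
    simp only [Nat.add_sub_cancel] at h3 ⊢
    have key : 2 * (2 * m + 1) ^ 2 * d ≤ 2 * (m + 1) * m * (2 * m + 1) := by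
      have : (2 * m + 1) * (2 * d) ≤ 2 * (m + 1) * m := by nlinarith
      calc 2 * (2 * m + 1) ^ 2 * d = (2 * m + 1) * ((2 * m + 1) * (2 * d)) := by ring
        _ ≤ (2 * m + 1) * (2 * (m + 1) * m) := Nat.mul_le_mul_left _ this
        _ = _ := by ring
    calc 2 * (2 * m + 1) ^ 2 * (e + d) = 2 * (2 * m + 1) ^ 2 * e + 2 * (2 * m + 1) ^ 2 * d := by ring
      _ ≤ (2 * (m + 1) * m * (2 * m + 1) * (a + B.card) + m * s) +
          2 * (m + 1) * m * (2 * m + 1) := Nat.add_le_add h3 key
      _ = _ := by ring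

theorem acc_split {α β : Type} [Fintype α] [Fintype β] {E : α → β → Prop} {k D : ℕ}
    {A A₁ : Finset α} {B B₁ : Finset β} (hA : A₁ ⊆ A) (hB : B₁ ⊆ B)
    (hs : ∀ u ∈ A, ∀ v ∈ B, E u v → (u ∈ A₁ ↔ v ∈ B₁))
    (h1 : Acc E k D A₁ B₁) (h2 : Acc E k D (A \ A₁) (B \ B₁)) : Acc E k D A B := by
  obtain ⟨Zβ, Zα, p1, p2, p3⟩ := h1
  obtain ⟨Wβ, Wα, q1, q2, q3⟩ := h2
  refine ⟨fun y y' => Zβ y y' + Wβ y y', fun y y' => Zα y y' + Wα y y', fun y y' hy => ?_,
    fun y y' hy => ?_, ?_⟩
  · by_cases hz : Zβ y y' = 0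
    · have hw : Wβ y y' ≠ 0 := by
        intro hw; apply hy; simp [hz, hw]
      obtain ⟨a, b, c, d⟩ := q1 y y' hw
      refine ⟨(mem_sdiff.1 a).1, (mem_sdiff.1 b).1, c, ?_⟩
      simpa [hz] using d
    · obtain ⟨a, b, c, d⟩ := p1 y y' hz
      have hw : Wβ y y' = 0 := by
        by_contra hw
        exact (mem_sdiff.1 (q1 y y' hw).1).2 a
      refine ⟨hB a, hB b, c, ?_⟩
      simpa [hw] using d
  · by_cases hz : Zα y y' = 0
    · have hw : Wα y y' ≠ 0 := by
        intro hw; apply hy; simp [hz, hw]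
      obtain ⟨a, b, c, d⟩ := q2 y y' hw
      refine ⟨(mem_sdiff.1 a).1, (mem_sdiff.1 b).1, c, ?_⟩
      simpa [hz] using d
    · obtain ⟨a, b, c, d⟩ := p2 y y' hz
      have hw : Wα y y' = 0 := by
        by_contra hw
        exact (mem_sdiff.1 (q2 y y' hw).1).2 a
      refine ⟨hA a, hA b, c, ?_⟩
      simpa [hw] using d
  · have e1 : edg E A B = edg E A₁ B₁ + edg E (A \ A₁) (B \ B₁) := by
      unfold edg
      rw [← sum_sdiff hA, add_comm]
      congr 1
      · refine sum_congr rfl fun x hx => ?_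
        congr 1
        ext v
        simp only [mem_filter]
        constructor
        · rintro ⟨hv, he⟩
          exact ⟨(hs x (hA hx) v hv he).1 hx, he⟩
        · rintro ⟨hv, he⟩
          exact ⟨hB hv, he⟩
      · refine sum_congr rfl fun x hx => ?_
        congr 1
        ext v
        simp only [mem_filter, mem_sdiff]
        rw [mem_sdiff] at hx
        constructor
        · rintro ⟨hv, he⟩
          exact ⟨⟨hv, fun hv' => hx.2 ((hs x hx.1 v hv he).2 hv')⟩, he⟩
        · rintro ⟨hv, he⟩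
          exact ⟨hv.1, he⟩
    have e2 : A.card = A₁.card + (A \ A₁).card := by
      rw [card_sdiff_of_subset hA]; have := card_le_card hA; omega
    have e3 : B.card = B₁.card + (B \ B₁).card := by
      rw [card_sdiff_of_subset hB]; have := card_le_card hB; omega
    rw [e1, e2, e3]
    simp only [sum_add_distrib]
    set c1 := 2 * (2 * k - 1) ^ 2
    set c2 := 2 * k * (k - 1) * (2 * k - 1)
    set c3 := k - 1
    nlinarith [p3, q3]

theorem acc_blade {α β : Type} [Fintype α] [Fintype β] {E : α → β → Prop} {k D : ℕ}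
    {A : Finset α} {B : Finset β} (hk : 4 ≤ k) (hD : 2 * D = k) {u : α} (hu : u ∈ A)
    {S : Finset α} (hS : S ⊆ A) (hSc : S.card = D)
    (hbl : ∀ v ∈ B, E u v → ∀ z ∈ A, E z v ↔ z ∈ S)
    (h : Acc E k D (A.erase u) (B \ B.filter (fun v => E u v))) : Acc E k D A B := by
  obtain ⟨Zβ, Zα, h1, h2, h3⟩ := h
  set Y := B.filter (fun v => E u v) with hY
  have hYB : Y ⊆ B := filter_subset _ _
  have hYm : ∀ v, v ∈ Y ↔ v ∈ B ∧ E u v := fun v => by simp [hY]
  have e1 : edg E A B = edg E (A.erase u) (B \ Y) + D * Y.card := by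
    have a1 : edg E A B = edg E A (B \ Y) + edg E A Y := by
      rw [edg_eq, edg_eq, edg_eq, ← sum_add_distrib]
      refine sum_congr rfl fun x _ => ?_
      rw [sum_sdiff hYB]
    have a2 : edg E A (B \ Y) = edg E (A.erase u) (B \ Y) := by
      unfold edg
      rw [← sum_erase_add _ _ hu]
      have : ((B \ Y).filter (fun y => E u y)) = ∅ := by
        rw [filter_eq_empty_iff]
        intro v hv he
        rw [mem_sdiff] at hv
        exact hv.2 ((hYm v).2 ⟨hv.1, he⟩)
      rw [this, card_empty, add_zero]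
    have a3 : edg E A Y = D * Y.card := by
      rw [← edg_flip]
      unfold edg
      rw [mul_comm, ← smul_eq_mul, ← sum_const]
      refine sum_congr rfl fun v hv => ?_
      rw [← hSc]
      congr 1
      ext z
      rw [mem_filter]
      obtain ⟨hvB, hvE⟩ := (hYm v).1 hv
      constructor
      · rintro ⟨hz, he⟩
        exact (hbl v hvB hvE z hz).1 he
      · intro hz
        exact ⟨hS hz, (hbl v hvB hvE z (hS hz)).2 hz⟩
    rw [a1, a2, a3]
  have e2 : A.card = (A.erase u).card + 1 := by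
    rw [card_erase_of_mem hu]
    have := card_pos.2 ⟨u, hu⟩
    omega
  have e3 : B.card = (B \ Y).card + Y.card := by
    rw [card_sdiff_of_subset hYB]; have := card_le_card hYB; omega
  by_cases hb : Y.card ≤ 2 * (k - 1)
  · refine ⟨Zβ, Zα, fun y y' hy => ?_, fun y y' hy => ?_, ?_⟩
    · obtain ⟨a, b, c⟩ := h1 y y' hy
      exact ⟨(mem_sdiff.1 a).1, (mem_sdiff.1 b).1, c⟩
    · obtain ⟨a, b, c⟩ := h2 y y' hy
      exact ⟨mem_of_mem_erase a, mem_of_mem_erase b, c⟩
    · rw [e1, e2, e3]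
      set b := Y.card
      set e := edg E (A.erase u) (B \ Y)
      set a := (A.erase u).card
      set b' := (B \ Y).card
      set s := ∑ y : β, ∑ y' : β, Zβ y y' + ∑ y : α, ∑ y' : α, Zα y y'
      obtain ⟨m, rfl⟩ : ∃ m, k = m + 1 := ⟨k - 1, by omega⟩
      have e5 : 2 * (m + 1) - 1 = 2 * m + 1 := by omega
      rw [e5] at h3 ⊢
      simp only [Nat.add_sub_cancel] at h3 ⊢ hb
      have key : 2 * (2 * m + 1) ^ 2 * (D * b) ≤ 2 * (m + 1) * m * (2 * m + 1) * (1 + b) := by
        have h6 : (2 * m + 1) * b ≤ 2 * m * (1 + b) := by nlinarith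
        calc 2 * (2 * m + 1) ^ 2 * (D * b) = (2 * D) * (2 * m + 1) * ((2 * m + 1) * b) := by ring
          _ = (m + 1) * (2 * m + 1) * ((2 * m + 1) * b) := by rw [hD]
          _ ≤ (m + 1) * (2 * m + 1) * (2 * m * (1 + b)) := Nat.mul_le_mul_left _ h6
          _ = _ := by ring
      calc 2 * (2 * m + 1) ^ 2 * (e + D * b)
          = 2 * (2 * m + 1) ^ 2 * e + 2 * (2 * m + 1) ^ 2 * (D * b) := by ring
        _ ≤ (2 * (m + 1) * m * (2 * m + 1) * (a + b') + m * s) +
          2 * (m + 1) * m * (2 * m + 1) * (1 + b) := Nat.add_le_add h3 key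
        _ = _ := by ring
  · push Not at hb
    have hadj : ∀ z ∈ S, ∀ v ∈ Y, E z v := by
      intro z hz v hv
      obtain ⟨hvB, hvE⟩ := (hYm v).1 hv
      exact (hbl v hvB hvE z (hS hz)).2 hz
    have hunit : IsUnit' E k D S Y := by
      refine ⟨by omega, fun y hy => ?_, fun x hx => ?_⟩
      · rw [filter_true_of_mem (fun z hz => hadj z hz y hy), hSc]
      · rw [filter_true_of_mem (fun v hv => hadj x hx v hv)]
        omega
    refine ⟨fun y y' => Zβ y y' + (if y ∈ Y ∧ y' ∈ Y ∧ y ≠ y' then D else 0), Zα,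
      fun y y' hy => ?_, fun y y' hy => ?_, ?_⟩
    · by_cases hz : Zβ y y' = 0
      · have hc : y ∈ Y ∧ y' ∈ Y ∧ y ≠ y' := by
          by_contra hc
          apply hy
          simp only [hz, if_neg hc]
        refine ⟨hYB hc.1, hYB hc.2.1, hc.2.2, S, Y, hunit, hc.1, hc.2.1, ?_⟩
        simp only [hz, if_pos hc, zero_add]
        rw [filter_true_of_mem (fun z hz => ⟨hadj z hz y hc.1, hadj z hz y' hc.2.1⟩), hSc]
      · obtain ⟨a, b, c, d⟩ := h1 y y' hz
        refine ⟨(mem_sdiff.1 a).1, (mem_sdiff.1 b).1, c, ?_⟩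
        have hc : ¬ (y ∈ Y ∧ y' ∈ Y ∧ y ≠ y') := fun hc => (mem_sdiff.1 a).2 hc.1
        simpa only [if_neg hc, add_zero] using d
    · obtain ⟨a, b, c⟩ := h2 y y' hy
      exact ⟨mem_of_mem_erase a, mem_of_mem_erase b, c⟩
    · have hsum : ∑ y : β, ∑ y' : β, (if y ∈ Y ∧ y' ∈ Y ∧ y ≠ y' then D else 0) =
          D * (Y.card * (Y.card - 1)) := by
        have hin : ∀ y : β, ∑ y' : β, (if y ∈ Y ∧ y' ∈ Y ∧ y ≠ y' then D else 0) =
            if y ∈ Y then D * (Y.card - 1) else 0 := by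
          intro y
          by_cases hy : y ∈ Y
          · rw [if_pos hy, ← card_erase_of_mem hy, mul_comm, ← smul_eq_mul, ← sum_const,
              ← sum_filter]
            refine sum_congr ?_ fun _ _ => rfl
            ext v
            simp only [mem_filter, mem_univ, true_and, mem_erase, hy]
            tauto
          · rw [if_neg hy]
            refine sum_eq_zero fun y' _ => ?_
            rw [if_neg (fun h => hy h.1)]
        rw [sum_congr rfl (fun y _ => hin y), ← sum_filter, sum_const, smul_eq_mul]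
        have : (univ.filter (fun y : β => y ∈ Y)) = Y := by ext v; simp
        rw [this]; ring
      simp only [sum_add_distrib]
      rw [hsum, e1, e2, e3]
      set e := edg E (A.erase u) (B \ Y)
      set a := (A.erase u).card
      set b' := (B \ Y).card
      set s1 := ∑ y : β, ∑ y' : β, Zβ y y'
      set s2 := ∑ y : α, ∑ y' : α, Zα y y'
      obtain ⟨m, rfl⟩ : ∃ m, k = m + 1 := ⟨k - 1, by omega⟩
      obtain ⟨b, hbb⟩ : ∃ b, Y.card = b + 1 := ⟨Y.card - 1, by omega⟩
      have e5 : 2 * (m + 1) - 1 = 2 * m + 1 := by omega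
      rw [e5] at h3 ⊢
      simp only [Nat.add_sub_cancel] at h3 ⊢ hb
      rw [hbb] at hb ⊢
      simp only [Nat.add_sub_cancel]
      have key : 2 * (2 * m + 1) ^ 2 * (D * (b + 1)) ≤
          2 * (m + 1) * m * (2 * m + 1) * (1 + (b + 1)) + m * (D * ((b + 1) * b)) := by
        have h6 : 2 * ((2 * m + 1) ^ 2 * (b + 1)) ≤
            2 * (2 * m * (2 * m + 1) * (1 + (b + 1))) + m * ((b + 1) * b) := by
          have hb2 : 2 * m ≤ b := by omega
          have hm : 3 ≤ m := by omega
          have h7 : m * ((b + 1) * (2 * m)) ≤ m * ((b + 1) * b) :=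
            Nat.mul_le_mul_left _ (Nat.mul_le_mul_left _ hb2)
          have h8 : (2 * m + 1) * (b + 1) ≤ m * m * (b + 1) := by
            apply Nat.mul_le_mul_right
            nlinarith
          nlinarith
        have h9 : (m + 1) * (2 * ((2 * m + 1) ^ 2 * (b + 1))) ≤
            (m + 1) * (2 * (2 * m * (2 * m + 1) * (1 + (b + 1))) + m * ((b + 1) * b)) :=
          Nat.mul_le_mul_left _ h6
        rw [← hD] at h9 ⊢
        nlinarith
      calc 2 * (2 * m + 1) ^ 2 * (e + D * (b + 1))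
          = 2 * (2 * m + 1) ^ 2 * e + 2 * (2 * m + 1) ^ 2 * (D * (b + 1)) := by ring
        _ ≤ (2 * (m + 1) * m * (2 * m + 1) * (a + b') + m * (s1 + s2)) +
          (2 * (m + 1) * m * (2 * m + 1) * (1 + (b + 1)) + m * (D * ((b + 1) * b))) :=
            Nat.add_le_add h3 key
        _ = _ := by ring

end AccountAux

open AccountAux in
theorem account (hs : S_struct) (ha : S_accSmall) : S_account := by
  intro α β _ _ E k D A B hk hkD hDk hP
  have hD1 : 1 ≤ D := by omega
  suffices H : ∀ n, ∀ (A : Finset α) (B : Finset β), A.card + B.card = n → Acc E k D A B from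
    H _ A B rfl
  intro n
  induction n using Nat.strong_induction_on with
  | _ n ih =>
  intro A B hn
  -- empty case
  by_cases hne : A.Nonempty ∨ B.Nonempty
  swap
  · push Not at hne
    obtain ⟨rfl, rfl⟩ := hne
    refine ⟨fun _ _ => 0, fun _ _ => 0, fun _ _ h => absurd rfl h, fun _ _ h => absurd rfl h, ?_⟩
    simp [edg]
  -- low degree in A
  by_cases hlA : ∃ u ∈ A, (B.filter (fun v => E u v)).card + 1 ≤ D
  · obtain ⟨u, hu, hd⟩ := hlA
    refine acc_low hk hDk hu hd (ih _ ?_ _ _ rfl)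
    have := card_erase_lt_of_mem hu
    omega
  by_cases hlB : ∃ v ∈ B, (A.filter (fun u => E u v)).card + 1 ≤ D
  · obtain ⟨v, hv, hd⟩ := hlB
    have h1 : Acc E k D A (B.erase v) := ih _ (by have := card_erase_lt_of_mem hv; omega) _ _ rfl
    exact acc_flip (acc_low (E := fun v u => E u v) hk hDk hv hd (acc_flip h1))
  push Not at hlA hlB
  by_cases hcon : ∀ A₁ ⊆ A, ∀ B₁ ⊆ B, (A₁.Nonempty ∨ B₁.Nonempty) →
    (∀ u v, (E u v ∧ u ∈ A ∧ v ∈ B) → (u ∈ A₁ ↔ v ∈ B₁)) → A₁ = A ∧ B₁ = B
  swap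
  · push Not at hcon
    obtain ⟨A₁, hA₁, B₁, hB₁, hne1, hcl, hne2⟩ := hcon
    have c1 : 1 ≤ A₁.card + B₁.card := by
      rcases hne1 with h | h
      · have := card_pos.2 h; omega
      · have := card_pos.2 h; omega
    have c2 : A₁.card + B₁.card < A.card + B.card := by
      have u1 := card_le_card hA₁
      have u2 := card_le_card hB₁
      by_contra hlt
      have v1 : A₁ = A := eq_of_subset_of_card_le hA₁ (by omega)
      have v2 : B₁ = B := eq_of_subset_of_card_le hB₁ (by omega)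
      exact hne2 v1 v2
    refine acc_split hA₁ hB₁ (fun u hu v hv he => hcl u v ⟨he, hu, hv⟩)
      (ih _ (by omega) _ _ rfl) (ih _ ?_ _ _ rfl)
    rw [card_sdiff_of_subset hA₁, card_sdiff_of_subset hB₁]
    have u1 := card_le_card hA₁
    have u2 := card_le_card hB₁
    omega
  have hConn : Conn (fun u v => E u v ∧ u ∈ A ∧ v ∈ B) D A B := by
    refine ⟨fun u v h => h.2, fun u hu => ?_, fun v hv => ?_, hcon⟩
    · refine le_trans (Nat.lt_succ_iff.1 (hlA u hu)) (card_le_card fun v hv => ?_)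
      simp only [mem_filter] at hv ⊢
      exact ⟨hv.1, hv.2, hu, hv.1⟩
    · refine le_trans (Nat.lt_succ_iff.1 (hlB v hv)) (card_le_card fun u hu => ?_)
      simp only [mem_filter] at hu ⊢
      exact ⟨hu.1, hu.2, hu.1, hv⟩
  have hP' : ∀ x b, ¬ XPath (fun u v => E u v ∧ u ∈ A ∧ v ∈ B) k x b := fun x b h =>
    hP x b ⟨fun i hi => (h.left i hi).1, fun i hi => (h.right i hi).1, h.injx, h.injb⟩
  rcases hs α β _ k D A B hConn (by omega) hkD hP' hne with h | h | ⟨h2, u, hu, S, hS, hSc, h⟩ |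
    ⟨h2, v, hv, S, hS, hSc, h⟩
  · exact ha α β E k D A B hk hD1 hkD hDk h
  · exact acc_flip (ha β α (fun v u => E u v) k D B A hk hD1 hkD hDk h)
  · refine acc_blade hk h2 hu hS hSc (fun v hv he z hz => ?_) (ih _ ?_ _ _ rfl)
    · have := h v ⟨he, hu, hv⟩ z
      constructor
      · intro hz'; exact this.1 ⟨hz', hz, hv⟩
      · intro hz'; exact (this.2 hz').1
    · have h3 := card_erase_lt_of_mem hu
      have h4 : (B \ B.filter (fun v => E u v)).card ≤ B.card := card_le_card sdiff_subset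
      omega
  · have h1 : Acc E k D (A \ A.filter (fun u => E u v)) (B.erase v) := by
      refine ih _ ?_ _ _ rfl
      have h3 := card_erase_lt_of_mem hv
      have h4 : (A \ A.filter (fun u => E u v)).card ≤ A.card := card_le_card sdiff_subset
      omega
    refine acc_flip (acc_blade (E := fun v u => E u v) hk h2 hv hS hSc
      (fun u hu he z hz => ?_) (acc_flip h1))
    have := h u ⟨he, hu, hv⟩ z
    constructor
    · intro hz'; exact this.1 ⟨hz', hu, hz⟩
    · intro hz'; exact (this.2 hz').1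

end Pool.Agent.H46.GR
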