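import Pool.Agent.H46.GR.Stmts

/-!
# The blade lemma (helper766)
-/

namespace Pool.Agent.H46.GR

open Finset
open scoped Classical

namespace BladeL

variable {α β : Type} {E : α → β → Prop} {X' : Finset α} {F : Set β} {D q : ℕ}

/-- a full path -/
structure Full (E : α → β → Prop) (X' : Finset α) (F : Set β) (q : ℕ) (x : ℕ → α) (b : ℕ → β) :
    Prop where
  path : YPath E q x b
  mx : ∀ i < q, x i ∈ X'
  mb : ∀ i ≤ q, b i ∈ F

/-- the hypotheses -/
structure Hyp (E : α → β → Prop) (X' : Finset α) (F : Set β) (D q : ℕ) : Prop where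
  hq : q + 1 = 2 * D
  hX : X'.card = q
  h1 : ∀ (x : ℕ → α) (b : ℕ → β), YPath E q x b → (∀ i < q, x i ∈ X') → (∀ i ≤ q, b i ∈ F) →
    D ≤ (X'.filter (fun z => E z (b 0))).card
  h2 : ∀ (x : ℕ → α) (b : ℕ → β), XPath E q x b → (∀ i < q, x i ∈ X') → (∀ i < q, b i ∈ F) →
    ¬ E (x (q - 1)) (b 0)

variable {x : ℕ → α} {b : ℕ → β}

theorem Full.surj (hH : Hyp E X' F D q) (h : Full E X' F q x b) :
    ∀ z ∈ X', ∃ i < q, z = x i := by
  have hinj : Set.InjOn x (range q : Finset ℕ) := by
    intro i hi j hj e
    exact h.path.injx i (by simpa using hi) j (by simpa using hj) e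
  have hsub : (range q).image x ⊆ X' := by
    intro z hz
    obtain ⟨i, hi, rfl⟩ := mem_image.1 hz
    exact h.mx i (mem_range.1 hi)
  have heq : (range q).image x = X' := by
    apply eq_of_subset_of_card_le hsub
    rw [card_image_of_injOn hinj, card_range, hH.hX]
  intro z hz
  rw [← heq] at hz
  obtain ⟨i, hi, rfl⟩ := mem_image.1 hz
  exact ⟨i, mem_range.1 hi, rfl⟩

theorem Full.card (hH : Hyp E X' F D q) (h : Full E X' F q x b) (v : β) :
    ((range q).filter (fun i => E (x i) v)).card = (X'.filter (fun z => E z v)).card := by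
  apply card_bij (fun i _ => x i)
  · intro i hi
    rw [mem_filter, mem_range] at hi
    exact mem_filter.2 ⟨h.mx i hi.1, hi.2⟩
  · intro i hi j hj e
    rw [mem_filter, mem_range] at hi hj
    exact h.path.injx i hi.1 j hj.1 e
  · intro z hz
    rw [mem_filter] at hz
    obtain ⟨i, hi, rfl⟩ := h.surj hH z hz.1
    exact ⟨i, by rw [mem_filter, mem_range]; exact ⟨hi, hz.2⟩, rfl⟩

theorem Full.rev (h : Full E X' F q x b) :
    Full E X' F q (fun t => x (q - 1 - t)) (fun t => b (q - t)) :=
  ⟨h.path.rev, fun i hi => h.mx _ (by omega), fun i _ => h.mb _ (by omega)⟩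

theorem Full.rot (h : Full E X' F q x b) {i : ℕ} (hi : i < q) (he : E (x i) (b q)) :
    Full E X' F q (fun t => if t ≤ i then x t else x (q + i - t))
      (fun t => if t ≤ i then b t else b (q + i + 1 - t)) := by
  refine ⟨h.path.rot hi he, fun t ht => ?_, fun t ht => ?_⟩
  · show (if t ≤ i then x t else x (q + i - t)) ∈ X'
    split_ifs
    · exact h.mx _ ht
    · exact h.mx _ (by omega)
  · show (if t ≤ i then b t else b (q + i + 1 - t)) ∈ F
    split_ifs
    · exact h.mb _ ht
    · exact h.mb _ (by omega)

theorem Full.rotL (h : Full E X' F q x b) {i : ℕ} (hi : i < q) (he : E (x i) (b 0)) :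
    Full E X' F q (fun t => if t < i then x (i - 1 - t) else x t)
      (fun t => if t ≤ i then b (i - t) else b t) := by
  refine ⟨h.path.rotL hi he, fun t ht => ?_, fun t ht => ?_⟩
  · show (if t < i then x (i - 1 - t) else x t) ∈ X'
    split_ifs
    · exact h.mx _ (by omega)
    · exact h.mx _ ht
  · show (if t ≤ i then b (i - t) else b t) ∈ F
    split_ifs
    · exact h.mb _ (by omega)
    · exact h.mb _ ht

/-- no edge from the last `x` to the first `b` -/
theorem Full.nlast (hH : Hyp E X' F D q) (h : Full E X' F q x b) : ¬ E (x (q - 1)) (b 0) :=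
  hH.h2 x b h.path.toX h.mx (fun i hi => h.mb i hi.le)

theorem Hyp.pos (hH : Hyp E X' F D q) : 1 ≤ q := by
  have := hH.hq
  omega

theorem Full.nfirst (hH : Hyp E X' F D q) (h : Full E X' F q x b) : ¬ E (x 0) (b q) := by
  have := h.rev.nlast hH
  simpa using this

theorem Full.ncross (hH : Hyp E X' F D q) (h : Full E X' F q x b) :
    ∀ i, i + 1 < q → E (x i) (b q) → ¬ E (x (i + 1)) (b 0) := by
  intro i hi he
  have := (h.rot (by omega) he).nlast hH
  simp only [Nat.zero_le, if_true] at this
  rw [if_neg (by omega), show q + i - (q - 1) = i + 1 by omega] at this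
  exact this

theorem Full.tc (htc : S_tc) (hH : Hyp E X' F D q) (h : Full E X' F q x b) :
    ((range q).filter (fun i => E (x i) (b 0))).card = D ∧
      ∀ i, i + 1 < q → (E (x (i + 1)) (b 0) ↔ ¬ E (x i) (b q)) := by
  have e1 : D ≤ ((range q).filter (fun i => E (x i) (b 0))).card := by
    rw [h.card hH]
    exact hH.h1 x b h.path h.mx h.mb
  have e2 : D ≤ ((range q).filter (fun i => E (x i) (b q))).card := by
    rw [h.card hH]
    have := hH.h1 _ _ h.rev.path h.rev.mx h.rev.mb
    simpa using this
  have := htc α β E q D x b h.path hH.hq e1 e2 (h.nfirst hH) (h.nlast hH) (h.ncross hH)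
  exact ⟨this.1, this.2.2⟩

/-- (2b): the path rotated on the left at `i` -/
theorem Full.two_b (htc : S_tc) (hH : Hyp E X' F D q) (h : Full E X' F q x b) {i : ℕ}
    (hi : i < q) (he : E (x i) (b 0)) :
    (∀ j, j + 1 < i → (E (x j) (b i) ↔ ¬ E (x (j + 1)) (b q))) ∧
      ∀ j, i ≤ j → j + 1 < q → (E (x (j + 1)) (b i) ↔ ¬ E (x j) (b q)) := by
  have ht := ((h.rotL hi he).tc htc hH).2
  simp only [Nat.zero_le, if_true, Nat.sub_zero, if_neg (show ¬ q ≤ i by omega)] at ht
  constructor
  · intro j hj
    have := ht (i - 2 - j) (by omega)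
    rw [if_pos (by omega), if_pos (by omega), show i - 1 - (i - 2 - j + 1) = j by omega,
      show i - 1 - (i - 2 - j) = j + 1 by omega] at this
    exact this
  · intro j hj hj'
    have := ht j hj'
    rw [if_neg (by omega), if_neg (by omega)] at this
    exact this

/-- replace the first vertex -/
theorem Full.repl (_hq : 1 ≤ q) (h : Full E X' F q x b) {f : β} (hf : f ∈ F) (hfx : E (x 0) f)
    (hfb : ∀ i ≤ q, b i ≠ f) : Full E X' F q x (fun t => if t = 0 then f else b t) := by
  refine ⟨⟨fun i hi => ?_, fun i hi => ?_, h.path.injx, fun i hi j hj e => ?_⟩, h.mx,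
    fun i hi => ?_⟩
  · show E (x i) (if i = 0 then f else b i)
    split_ifs with h0
    · rw [h0]; exact hfx
    · exact h.path.left i hi
  · show E (x i) (if i + 1 = 0 then f else b (i + 1))
    rw [if_neg (by omega)]
    exact h.path.right i hi
  · by_cases h1 : i = 0 <;> by_cases h2 : j = 0
    · omega
    · simp only [if_pos h1, if_neg h2] at e
      exact absurd e.symm (hfb j hj)
    · simp only [if_neg h1, if_pos h2] at e
      exact absurd e (hfb i hi)
    · simp only [if_neg h1, if_neg h2] at e
      exact h.path.injb i hi j hj e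
  · show (if i = 0 then f else b i) ∈ F
    split_ifs
    · exact hf
    · exact h.mb i hi

/-- the forbidden cycle of (2c) -/
theorem Full.cyc (hH : Hyp E X' F D q) (h : Full E X' F q x b) {c : ℕ} (hc : 1 ≤ c)
    (hcq : c + 2 ≤ q) (e1 : E (x (c + 1)) (b c)) (e2 : E (x (c - 1)) (b q))
    (e3 : E (x 0) (b (c + 1))) : False := by
  let x' : ℕ → α := fun t => if t + c + 1 ≤ q then x (c + t) else x (q - 1 - t)
  let b' : ℕ → β := fun t => if t = 0 then b (c + 1) else if t = 1 then b c else
    if t + c ≤ q then b (c + t) else b (q - t)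
  have hp : XPath E q x' b' := by
    refine ⟨fun t ht => ?_, fun t ht => ?_, fun s hs t ht e => ?_, fun s hs t ht e => ?_⟩
    · show E (if t + c + 1 ≤ q then x (c + t) else x (q - 1 - t))
        (if t = 0 then b (c + 1) else if t = 1 then b c else
          if t + c ≤ q then b (c + t) else b (q - t))
      by_cases t0 : t = 0
      · subst t0
        rw [if_pos (by omega), if_pos rfl]
        exact h.path.right c (by omega)
      by_cases t1 : t = 1
      · subst t1
        rw [if_pos (by omega), if_neg (by omega), if_pos rfl]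
        exact e1
      rw [if_neg t0, if_neg t1]
      by_cases t2 : t + c + 1 ≤ q
      · rw [if_pos t2, if_pos (by omega)]
        exact h.path.left _ (by omega)
      by_cases t3 : t + c ≤ q
      · rw [if_neg t2, if_pos t3, show q - 1 - t = c - 1 by omega, show c + t = q by omega]
        exact e2
      · rw [if_neg t2, if_neg t3]
        have := h.path.right (q - 1 - t) (by omega)
        rwa [show q - 1 - t + 1 = q - t by omega] at this
    · show E (if t + c + 1 ≤ q then x (c + t) else x (q - 1 - t))
        (if t + 1 = 0 then b (c + 1) else if t + 1 = 1 then b c else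
          if t + 1 + c ≤ q then b (c + (t + 1)) else b (q - (t + 1)))
      rw [if_neg (by omega : ¬ t + 1 = 0)]
      by_cases t0 : t = 0
      · subst t0
        rw [if_pos (by omega), if_pos rfl]
        exact h.path.left c (by omega)
      rw [if_neg (by omega : ¬ t + 1 = 1)]
      by_cases t2 : t + c + 1 ≤ q
      · rw [if_pos t2, if_pos (by omega), ← add_assoc]
        exact h.path.right _ (by omega)
      · rw [if_neg t2, if_neg (by omega), show q - (t + 1) = q - 1 - t by omega]
        exact h.path.left _ (by omega)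
    · change (if s + c + 1 ≤ q then x (c + s) else x (q - 1 - s)) =
        (if t + c + 1 ≤ q then x (c + t) else x (q - 1 - t)) at e
      split_ifs at e with u1 u2 u2
      · have := h.path.injx _ (by omega) _ (by omega) e; omega
      · have := h.path.injx _ (by omega) _ (by omega) e; omega
      · have := h.path.injx _ (by omega) _ (by omega) e; omega
      · have := h.path.injx _ (by omega) _ (by omega) e; omega
    · change (if s = 0 then b (c + 1) else if s = 1 then b c else
          if s + c ≤ q then b (c + s) else b (q - s)) =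
        (if t = 0 then b (c + 1) else if t = 1 then b c else
          if t + c ≤ q then b (c + t) else b (q - t)) at e
      split_ifs at e <;> first
        | omega
        | (have := h.path.injb _ (by omega) _ (by omega) e; omega)
  have hmx : ∀ i < q, x' i ∈ X' := by
    intro t ht
    show (if t + c + 1 ≤ q then x (c + t) else x (q - 1 - t)) ∈ X'
    split_ifs
    · exact h.mx _ (by omega)
    · exact h.mx _ (by omega)
  have hmb : ∀ i < q, b' i ∈ F := by
    intro t ht
    show (if t = 0 then b (c + 1) else if t = 1 then b c else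
          if t + c ≤ q then b (c + t) else b (q - t)) ∈ F
    split_ifs
    · exact h.mb _ (by omega)
    · exact h.mb _ (by omega)
    · exact h.mb _ (by omega)
    · exact h.mb _ (by omega)
  apply hH.h2 x' b' hp hmx hmb
  show E (if q - 1 + c + 1 ≤ q then x (c + (q - 1)) else x (q - 1 - (q - 1)))
    (if (0 : ℕ) = 0 then b (c + 1) else _)
  rw [if_neg (by omega), if_pos rfl, Nat.sub_self]
  exact e3

end BladeL

open BladeL in
theorem blade (htc : S_tc) : S_blade := by
  intro α β E X' F D q hq hX h1 h2 x b hp hx hb
  have hH : Hyp E X' F D q := ⟨hq, hX, h1, h2⟩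
  have h : Full E X' F q x b := ⟨hp, hx, hb⟩
  have q1 := hH.pos
  obtain ⟨tc1, tc2⟩ := h.tc htc hH
  have hE0 : E (x 0) (b 0) := hp.left 0 (by omega)
  refine ⟨by rw [← h.card hH]; exact tc1, ?_, ?_⟩
  · intro z hz
    constructor
    · intro he
      obtain ⟨j, hj, rfl⟩ := h.surj hH z hz
      rcases Nat.eq_zero_or_pos j with rfl | hj0
      · exact Or.inl rfl
      · obtain ⟨i, rfl⟩ : ∃ i, j = i + 1 := ⟨j - 1, by omega⟩
        exact Or.inr ⟨i, hj, rfl, (tc2 i hj).1 he⟩
    · rintro (rfl | ⟨i, hi, rfl, hn⟩)
      · exact hE0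
      · exact (tc2 i hi).2 hn
  · intro f hf hfx
    by_cases hex : ∃ i ≤ q, b i = f
    swap
    · -- (1)
      push Not at hex
      have hfull := h.repl q1 hf hfx hex
      refine ⟨⟨_, _, hfull.path, hfull.mx, hfull.mb, by simp⟩, ?_⟩
      intro z hz
      obtain ⟨j, hj, rfl⟩ := h.surj hH z hz
      rcases Nat.eq_zero_or_pos j with rfl | hj0
      · exact ⟨fun _ => hE0, fun _ => hfx⟩
      · obtain ⟨i, rfl⟩ : ∃ i, j = i + 1 := ⟨j - 1, by omega⟩
        have := (hfull.tc htc hH).2 i hj
        simp only [if_true, if_neg (show ¬ q = 0 by omega)] at this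
        rw [this, tc2 i hj]
    obtain ⟨i, hiq, rfl⟩ := hex
    rcases Nat.eq_zero_or_pos i with rfl | hi0
    · exact ⟨⟨x, b, hp, hx, hb, rfl⟩, fun z _ => Iff.rfl⟩
    rcases Nat.lt_or_ge i q with hiq' | hiq'
    swap
    · have : i = q := by omega
      subst this
      exact absurd hfx (h.nfirst hH)
    -- (2a)
    have a2 : E (x i) (b 0) := by
      by_contra hn
      have e1 : E (x (i - 1)) (b q) := by
        by_contra hn'
        have := (tc2 (i - 1) (by omega)).2 hn'
        rw [show i - 1 + 1 = i by omega] at this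
        exact hn this
      have := (h.rot (i := i - 1) (by omega) e1).nfirst hH
      simp only [Nat.zero_le, if_true] at this
      rw [if_neg (by omega), show q + (i - 1) + 1 - q = i by omega] at this
      exact this hfx
    obtain ⟨bA, bB⟩ := h.two_b htc hH hiq' a2
    -- (2c)
    have c2 : ∀ j < i, ¬ E (x j) (b q) := by
      by_contra hcon
      push Not at hcon
      obtain ⟨j₀, hj₀, he₀⟩ := hcon
      have n0 : ¬ E (x 0) (b q) := h.nfirst hH
      have nl : ¬ E (x (i - 1)) (b q) := by
        have := tc2 (i - 1) (by omega)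
        rw [show i - 1 + 1 = i by omega] at this
        exact this.1 a2
      have j0 : j₀ ≠ 0 := by rintro rfl; exact n0 he₀
      have i2 : 1 < i := by omega
      have n1 : ¬ E (x 1) (b q) := (bA 0 i2).1 hfx
      have j1 : j₀ ≠ 1 := by rintro rfl; exact n1 he₀
      have j2 : j₀ ≠ i - 1 := by rintro rfl; exact nl he₀
      -- the first index after `j₀` without edge
      have hexc : ∃ c, j₀ < c ∧ ¬ E (x c) (b q) := ⟨i - 1, by omega, nl⟩
      let c := Nat.find hexc
      have hc := Nat.find_spec hexc
      have hcm : c ≤ i - 1 := Nat.find_min' hexc ⟨by omega, nl⟩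
      have hc1 : E (x (c - 1)) (b q) := by
        by_cases hcj : c - 1 = j₀
        · rw [hcj]; exact he₀
        · by_contra hn
          have := Nat.find_min' hexc (m := c - 1) ⟨by have := hc.1; change j₀ < c at this; omega, hn⟩
          have h3 := hc.1
          change j₀ < c at h3
          change c ≤ c - 1 at this
          omega
      have hcj : j₀ < c := hc.1
      have hcn : ¬ E (x c) (b q) := hc.2
      have u1 : ¬ E (x c) (b 0) := by
        have := tc2 (c - 1) (by omega)
        rw [show c - 1 + 1 = c by omega] at this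
        exact fun h' => this.1 h' hc1
      have u2 : E (x (c + 1)) (b 0) := (tc2 c (by omega)).2 hcn
      have u3 : E (x 0) (b (c + 1)) :=
        ((h.two_b htc hH (i := c + 1) (by omega) u2).1 0 (by omega)).2 n1
      have u4 : E (x (c + 1)) (b c) := by
        by_contra hn
        have ht := ((h.rot (i := c - 1) (by omega) hc1).tc htc hH).2 (q - 2) (by omega)
        simp only [Nat.zero_le, if_true] at ht
        rw [if_neg (by omega), if_neg (by omega), if_neg (by omega),
          show q + (c - 1) - (q - 2 + 1) = c by omega,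
          show q + (c - 1) - (q - 2) = c + 1 by omega,
          show q + (c - 1) + 1 - q = c by omega] at ht
        exact u1 (ht.2 hn)
      exact h.cyc hH (c := c) (by omega) (by omega) u4 hc1 u3
    have hfull := h.rotL hiq' a2
    refine ⟨⟨_, _, hfull.path, hfull.mx, hfull.mb, by simp⟩, ?_⟩
    -- (2d)
    intro z hz
    obtain ⟨j, hj, rfl⟩ := h.surj hH z hz
    rcases Nat.lt_or_ge i j with hij | hij
    · obtain ⟨j', rfl⟩ : ∃ j', j = j' + 1 := ⟨j - 1, by omega⟩
      rw [bB j' (by omega) hj, tc2 j' hj]
    · have v1 : E (x j) (b i) := by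
        by_cases w1 : j = i
        · subst w1; exact hp.left j hj
        by_cases w2 : j + 1 = i
        · subst w2; exact hp.right j hj
        exact (bA j (by omega)).2 (c2 (j + 1) (by omega))
      have v2 : E (x j) (b 0) := by
        rcases Nat.eq_zero_or_pos j with rfl | hj0
        · exact hE0
        · obtain ⟨j', rfl⟩ : ∃ j', j = j' + 1 := ⟨j - 1, by omega⟩
          exact (tc2 j' hj).2 (c2 j' (by omega))
      exact ⟨fun _ => v2, fun _ => v1⟩

end Pool.Agent.H46.GR
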