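import Pool.Agent.H46.GR.Stmts

namespace Pool.Agent.H46.GR

open Finset
open scoped Classical

theorem bridge : S_bridge := by
  intro n r k χ hk hχ c d x b hP hcl
  -- the embedding
  set f : Fin (2 * k) → Fin n ⊕ Fin n := fun i =>
    if i.val % 2 = 0 then Sum.inr (b (i.val / 2)) else Sum.inl (x (i.val / 2)) with hf
  have hfe : ∀ i : Fin (2 * k), i.val % 2 = 0 → f i = Sum.inr (b (i.val / 2)) := by
    intro i hi; simp [hf, hi]
  have hfo : ∀ i : Fin (2 * k), i.val % 2 = 1 → f i = Sum.inl (x (i.val / 2)) := by
    intro i hi; simp [hf, hi]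
  have hinj : Function.Injective f := by
    intro i j hij
    have hi2 := i.isLt
    have hj2 := j.isLt
    rcases Nat.mod_two_eq_zero_or_one i.val with hi | hi <;>
      rcases Nat.mod_two_eq_zero_or_one j.val with hj | hj
    · rw [hfe i hi, hfe j hj] at hij
      have h1 := hP.injb (i.val / 2) (by omega) (j.val / 2) (by omega) (Sum.inr.inj hij)
      ext; omega
    · rw [hfe i hi, hfo j hj] at hij
      exact absurd hij (by simp)
    · rw [hfo i hi, hfe j hj] at hij
      exact absurd hij (by simp)
    · rw [hfo i hi, hfo j hj] at hij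
      have h1 := hP.injx (i.val / 2) (by omega) (j.val / 2) (by omega) (Sum.inl.inj hij)
      ext; omega
  -- the colour of a successive pair
  have hstep : ∀ i j : Fin (2 * k), (i.val + 1 = j.val ∨ (i.val + 1 = 2 * k ∧ j.val = 0)) →
      ((completeBipartiteGraph (Fin n) (Fin n)).Adj (f i) (f j)) ∧
      (χ s(f i, f j) = c ∨ χ s(f i, f j) = d) := by
    intro i j hij
    have hi2 := i.isLt
    have hj2 := j.isLt
    rcases hij with hij | ⟨hij, hj0⟩
    · rcases Nat.mod_two_eq_zero_or_one i.val with hi | hi
      · have hj : j.val % 2 = 1 := by omega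
        rw [hfe i hi, hfo j hj]
        have hdiv : j.val / 2 = i.val / 2 := by omega
        rw [hdiv]
        refine ⟨by simp [completeBipartiteGraph], ?_⟩
        have h1 := hP.left (i.val / 2) (by omega)
        rw [Sym2.eq_swap]
        exact h1
      · have hj : j.val % 2 = 0 := by omega
        rw [hfo i hi, hfe j hj]
        have hdiv : j.val / 2 = i.val / 2 + 1 := by omega
        rw [hdiv]
        refine ⟨by simp [completeBipartiteGraph], ?_⟩
        exact hP.right (i.val / 2) (by omega)
    · have hi : i.val % 2 = 1 := by omega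
      have hj : j.val % 2 = 0 := by omega
      rw [hfo i hi, hfe j hj]
      have hdiv : i.val / 2 = k - 1 := by omega
      rw [hdiv, hj0]
      refine ⟨by simp [completeBipartiteGraph], ?_⟩
      exact hcl
  have hadj : ∀ i j : Fin (2 * k), (SimpleGraph.cycleGraph (2 * k)).Adj i j →
      (i.val + 1 = j.val ∨ (i.val + 1 = 2 * k ∧ j.val = 0)) ∨
      (j.val + 1 = i.val ∨ (j.val + 1 = 2 * k ∧ i.val = 0)) := by
    intro i j hij
    rw [SimpleGraph.cycleGraph_adj'] at hij
    have hi2 := i.isLt
    have hj2 := j.isLt
    rcases hij with h | h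
    · right
      rw [Fin.sub_def] at h
      simp only at h
      by_cases hle : j.val ≤ i.val
      · have h3 : (2 * k - j.val + i.val) = (i.val - j.val) + 2 * k := by omega
        rw [h3, Nat.add_mod_right, Nat.mod_eq_of_lt (by omega)] at h
        left; omega
      · rw [Nat.mod_eq_of_lt (by omega)] at h
        right; omega
    · left
      rw [Fin.sub_def] at h
      simp only at h
      by_cases hle : i.val ≤ j.val
      · have h3 : (2 * k - i.val + j.val) = (j.val - i.val) + 2 * k := by omega
        rw [h3, Nat.add_mod_right, Nat.mod_eq_of_lt (by omega)] at h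
        left; omega
      · rw [Nat.mod_eq_of_lt (by omega)] at h
        right; omega
  have hmain := hχ f hinj (by
    intro i j hij
    rcases hadj i j hij with h | h
    · exact (hstep i j h).1
    · exact ((hstep j i h).1).symm)
  have hsub : χ '' (Sym2.map f '' (SimpleGraph.cycleGraph (2 * k)).edgeSet) ⊆ {c, d} := by
    rintro _ ⟨_, ⟨e, he, rfl⟩, rfl⟩
    induction e using Sym2.ind with
    | _ i j =>
      rw [SimpleGraph.mem_edgeSet] at he
      rw [Sym2.map_mk]
      rcases hadj i j he with h | h
      · exact (hstep i j h).2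
      · have := (hstep j i h).2
        rw [Sym2.eq_swap] at this
        exact this
  have h2 : (χ '' (Sym2.map f '' (SimpleGraph.cycleGraph (2 * k)).edgeSet)).ncard ≤ 2 := by
    refine le_trans (Set.ncard_le_ncard hsub (Set.toFinite _)) ?_
    exact Set.ncard_insert_le _ _ |>.trans (by simp)
  omega

theorem rainbow : S_rainbow := by
  intro n k hk
  obtain ⟨e⟩ : Nonempty (Sym2 (Fin n ⊕ Fin n) ≃ Fin (Fintype.card (Sym2 (Fin n ⊕ Fin n)))) :=
    ⟨Fintype.equivFin _⟩
  refine ⟨_, e, ?_⟩
  intro f hf _
  rw [Set.ncard_image_of_injective _ e.injective,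
    Set.ncard_image_of_injective _ (Sym2.map.injective hf)]
  -- three different edges of the cycle
  have h0 : (0 : ℕ) < 2 * k := by omega
  let v : ∀ m : ℕ, m < 2 * k → Fin (2 * k) := fun m hm => ⟨m, hm⟩
  have hadj : ∀ m (hm : m + 1 < 2 * k),
      s(v m (by omega), v (m + 1) hm) ∈ (SimpleGraph.cycleGraph (2 * k)).edgeSet := by
    intro m hm
    rw [SimpleGraph.mem_edgeSet, SimpleGraph.cycleGraph_adj']
    right
    rw [Fin.sub_def]
    simp only [v]
    have h3 : (2 * k - m + (m + 1)) = 1 + 2 * k := by omega
    rw [h3, Nat.add_mod_right, Nat.mod_eq_of_lt (by omega)]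
  have hsub : ({s(v 0 (by omega), v 1 (by omega)), s(v 1 (by omega), v 2 (by omega)),
      s(v 2 (by omega), v 3 (by omega))} : Set (Sym2 (Fin (2 * k)))) ⊆
      (SimpleGraph.cycleGraph (2 * k)).edgeSet := by
    intro z hz
    rcases hz with rfl | rfl | rfl
    · exact hadj 0 (by omega)
    · exact hadj 1 (by omega)
    · exact hadj 2 (by omega)
  refine le_trans ?_ (Set.ncard_le_ncard hsub (Set.toFinite _))
  rw [Set.ncard_eq_toFinset_card']
  rw [Set.toFinset_insert, Set.toFinset_insert, Set.toFinset_singleton]
  rw [Finset.card_insert_of_notMem, Finset.card_insert_of_notMem, Finset.card_singleton]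
  · simp [v]
  · simp [v]

end Pool.Agent.H46.GR
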