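import Pool.Agent.H46.GR.Stmts

namespace Pool.Agent.H46.GR

open Finset
open scoped Classical

theorem capacity (hA : S_fullA) (hB : S_fullB) (hcl : S_close) (hcomp : S_complete)
    (hsw : S_swap) (hex : S_excl) : S_capacity := by
  intro α β C k D χ hno hk4 hk hk2 y y' hne T z X Y hT
  -- single unit bound
  have hsingle : ∀ c ∈ T, z c ≤ k - 1 := by
    intro c hc
    obtain ⟨hU, _, _, hz⟩ := hT c hc
    have h1 := hU.cardX
    have h2 := Finset.card_filter_le (X c) (fun u => χ u y = c ∧ χ u y' = c)
    omega
  by_cases hT1 : T.card ≤ 1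
  · rcases Nat.le_one_iff_eq_zero_or_eq_one.1 hT1 with h | h
    · rw [Finset.card_eq_zero] at h; subst h; simp
    · obtain ⟨c, rfl⟩ := Finset.card_eq_one.1 h
      simpa using hsingle c (by simp)
  push Not at hT1
  -- free degrees when |X c| = k-1
  have hfree : ∀ c ∈ T, (X c).card + 1 = k → ∀ u ∈ X c,
      (X c).card ≤ (((Y c) \ {y, y'}).filter (fun f => χ u f = c)).card := by
    intro c hc hck u hu
    obtain ⟨hU, hy, hy', _⟩ := hT c hc
    have h1 := hU.degX u hu
    have e1 : ((Y c).filter (fun f => χ u f = c)) ⊆
        (((Y c) \ {y, y'}).filter (fun f => χ u f = c)) ∪ {y, y'} := by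
      intro f hf
      by_cases h : f ∈ ({y, y'} : Finset β)
      · exact Finset.mem_union_right _ h
      · apply Finset.mem_union_left
        rw [Finset.mem_filter] at hf ⊢
        exact ⟨Finset.mem_sdiff.2 ⟨hf.1, h⟩, hf.2⟩
    have e2 := (Finset.card_le_card e1).trans (Finset.card_union_le _ _)
    have e3 : ({y, y'} : Finset β).card ≤ 2 := Finset.card_le_two
    omega
  have hyn : ∀ c, y ∉ (Y c) \ {y, y'} := by
    intro c h; simp at h
  have hy'n : ∀ c, y' ∉ (Y c) \ {y, y'} := by
    intro c h; simp at h
  -- Lemma A
  by_cases hLA : ∃ c ∈ T, (X c).card + 1 = k ∧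
      FullPath (fun u v => χ u v = c) (X c) ((Y c) \ {y, y'}) y y'
  · obtain ⟨c, hc, hck, x1, b1, hp1, hx1, h10, h11, hb1⟩ := hLA
    have hsub : ∀ d ∈ T, (X d).filter (fun u => χ u y = d ∧ χ u y' = d) ⊆
        (X c).filter (fun u => χ u y = d) := by
      intro d hd u hu
      rw [Finset.mem_filter] at hu ⊢
      refine ⟨?_, hu.2.1⟩
      by_contra huc
      have hdc : d ≠ c := by
        rintro rfl; exact huc hu.1
      -- path y, u, y'
      refine hcl α β C k χ hno d c 1 (X c).card (fun _ => u) (fun t => if t = 0 then y else y')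
        x1 b1 le_rfl (by omega) (by omega) ?_ hp1 (by simpa using h10.symm)
        (by simpa using h11.symm) ?_ ?_
      · refine ⟨?_, ?_, ?_, ?_⟩
        · intro i hi
          have : i = 0 := by omega
          subst this; simpa using hu.2.1
        · intro i hi
          simpa using hu.2.2
        · intro i hi j hj _; omega
        · intro i hi j hj e
          by_cases h1 : i = 0 <;> by_cases h2 : j = 0
          · omega
          · simp only [if_pos h1, if_neg h2] at e; exact absurd e hne
          · simp only [if_neg h1, if_pos h2] at e; exact absurd e.symm hne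
          · omega
      · intro i hi j hj e
        exact huc (by rw [e]; exact hx1 j hj)
      · intro i hi hi1; omega
    calc ∑ d ∈ T, z d ≤ ∑ d ∈ T, ((X c).filter (fun u => χ u y = d)).card := by
          apply Finset.sum_le_sum
          intro d hd
          exact (hT d hd).2.2.2.trans (Finset.card_le_card (hsub d hd))
      _ ≤ (X c).card := by
          rw [← Finset.card_biUnion]
          · apply Finset.card_le_card
            intro u hu
            rw [Finset.mem_biUnion] at hu
            obtain ⟨d, _, hd⟩ := hu
            exact (Finset.mem_filter.1 hd).1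
          · intro d _ d' _ hdd
            rw [Function.onFun, Finset.disjoint_left]
            intro u hu hu'
            rw [Finset.mem_filter] at hu hu'
            exact hdd (hu.2.symm.trans hu'.2)
      _ ≤ k - 1 := by omega
  · exfalso
    push Not at hLA
    -- parity: if some |X c| = k-1 then 2D = k and twins
    have htw : ∀ c ∈ T, (X c).card + 1 = k → 2 * D = k ∧
        D ≤ ((X c).filter (fun u => χ u y = c)).card ∧
        (∀ u ∈ (X c).filter (fun u => χ u y = c), χ u y = c ∧ χ u y' = c) ∧
        k - 1 ≤ (((Y c) \ {y, y'}).filter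
          (fun f => ∀ u ∈ X c, (χ u f = c) ↔ χ u y = c)).card := by
      intro c hc hck
      obtain ⟨hU, hy, hy', _⟩ := hT c hc
      have h2D : 2 * D = k := by
        by_contra hcon
        exact hLA c hc hck (hA α β _ (X c) ((Y c) \ {y, y'}) y y' D (by omega) hne (hyn c) (hy'n c)
          (fun f hf => hU.degY f (Finset.mem_sdiff.1 hf).1) (hU.degY y hy) (hU.degY y' hy')
          (hfree c hc hck))
      rcases hB α β _ (X c) ((Y c) \ {y, y'}) y y' D (by omega) hne (hyn c) (hy'n c)
          (fun f hf => hU.degY f (Finset.mem_sdiff.1 hf).1) (hU.degY y hy) (hU.degY y' hy')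
          (hfree c hc hck) with h | ⟨_, h2, h3, h4⟩
      · exact absurd h (hLA c hc hck)
      · refine ⟨h2D, h2.ge, ?_, by omega⟩
        intro u hu
        rw [Finset.mem_filter] at hu
        exact ⟨hu.2, (h3 u hu.1).1 hu.2⟩
    obtain ⟨c, hc, d, hd, hcd⟩ := Finset.one_lt_card.1 hT1
    -- general: a tight unit c and another unit d
    have key : ∀ c ∈ T, ∀ d ∈ T, c ≠ d → (X c).card + 1 = k → False := by
      intro c hc d hd hcd hck
      obtain ⟨h2D, hSc, hSyc, hΦc⟩ := htw c hc hck
      obtain ⟨hUd, hyd, hy'd, _⟩ := hT d hd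
      by_cases hdk : (X d).card + 2 ≤ k
      · refine hsw α β C k D χ hno hk c d ((X c).filter (fun u => χ u y = c)) (X d)
          (((Y c) \ {y, y'}).filter (fun f => ∀ u ∈ X c, (χ u f = c) ↔ χ u y = c)) (Y d) y y'
          hcd hne hUd hyd hy'd hdk hSc hSyc ?_ ?_ ?_ (by omega)
        · intro h; exact hyn c (Finset.mem_filter.1 h).1
        · intro h; exact hy'n c (Finset.mem_filter.1 h).1
        · intro u hu f hf
          rw [Finset.mem_filter] at hu hf
          exact (hf.2 u hu.1).2 hu.2
      · have hdk' : (X d).card + 1 = k := by have := hUd.cardX; omega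
        obtain ⟨_, hSd, hSyd, hΦd⟩ := htw d hd hdk'
        -- choose D vertices in each block
        obtain ⟨S, hSsub, hScard⟩ := Finset.exists_subset_card_eq hSc
        obtain ⟨S', hS'sub, hS'card⟩ := Finset.exists_subset_card_eq hSd
        obtain ⟨Φ, hΦsub, hΦcard⟩ := Finset.exists_subset_card_eq
          (show D - 1 ≤ (((Y c) \ {y, y'}).filter
            (fun f => ∀ u ∈ X c, (χ u f = c) ↔ χ u y = c)).card by omega)
        have hF1 : FullPath (fun u v => χ u v = c) S Φ y y' := by
          refine hcomp α β _ S Φ y y' ?_ hne ?_ ?_ ?_ ?_ (by omega)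
          · rw [← Finset.card_pos]; omega
          · intro h; exact hyn c (Finset.mem_filter.1 (hΦsub h)).1
          · intro h; exact hy'n c (Finset.mem_filter.1 (hΦsub h)).1
          · intro u hu; exact hSyc u (hSsub hu)
          · intro u hu f hf
            have h1 := Finset.mem_filter.1 (hSsub hu)
            have h2 := Finset.mem_filter.1 (hΦsub hf)
            exact (h2.2 u h1.1).2 h1.2
        have hF2 : FullPath (fun u v => χ u v = d) S'
            ((((Y d) \ {y, y'}).filter (fun f => ∀ u ∈ X d, (χ u f = d) ↔ χ u y = d)) \ Φ)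
            y y' := by
          refine hcomp α β _ S' _ y y' ?_ hne ?_ ?_ ?_ ?_ ?_
          · rw [← Finset.card_pos]; omega
          · intro h; exact hyn d (Finset.mem_filter.1 (Finset.mem_sdiff.1 h).1).1
          · intro h; exact hy'n d (Finset.mem_filter.1 (Finset.mem_sdiff.1 h).1).1
          · intro u hu; exact hSyd u (hS'sub hu)
          · intro u hu f hf
            have h1 := Finset.mem_filter.1 (hS'sub hu)
            have h2 := Finset.mem_filter.1 (Finset.mem_sdiff.1 hf).1
            exact (h2.2 u h1.1).2 h1.2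
          · have := Finset.le_card_sdiff Φ
              (((Y d) \ {y, y'}).filter (fun f => ∀ u ∈ X d, (χ u f = d) ↔ χ u y = d))
            omega
        obtain ⟨x1, b1, hp1, hx1, h10, h11, hb1⟩ := hF1
        obtain ⟨x2, b2, hp2, hx2, h20, h21, hb2⟩ := hF2
        refine hcl α β C k χ hno c d S.card S'.card x1 b1 x2 b2 (by omega) (by omega) (by omega)
          hp1 hp2 (h10.trans h20.symm) (h11.trans h21.symm) ?_ ?_
        · intro i hi j hj e
          have h1 := (hSyc _ (hSsub (hx1 i hi))).1
          have h2 := (hSyd _ (hS'sub (hx2 j hj))).1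
          rw [← e] at h2
          exact hcd (h1.symm.trans h2)
        · intro i hi hir j hj hjs e
          have h1 := hb1 i hi hir
          have h2 := hb2 j hj hjs
          rw [← e] at h2
          exact (Finset.mem_sdiff.1 h2).2 h1
    obtain ⟨hUc, hyc, hy'c, _⟩ := hT c hc
    obtain ⟨hUd, hyd, hy'd, _⟩ := hT d hd
    by_cases h1 : (X c).card + 1 = k
    · exact key c hc d hd hcd h1
    by_cases h2 : (X d).card + 1 = k
    · exact key d hd c hc hcd.symm h2
    have h3 := hUc.cardX
    have h4 := hUd.cardX
    rcases le_total (X c).card (X d).card with h | h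
    · exact hex α β C k D χ hno hk hk2 d c (X d) (X c) (Y d) (Y c) y y' hcd.symm hne hUd hUc
        hyd hy'd hyc hy'c (by omega) h
    · exact hex α β C k D χ hno hk hk2 c d (X c) (X d) (Y c) (Y d) y y' hcd hne hUc hUd
        hyc hy'c hyd hy'd (by omega) h

end Pool.Agent.H46.GR
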