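import Pool.Agent.H46.GR.Stmts

/-!
# Closing lemma and complete block
-/

namespace Pool.Agent.H46.GR

open Finset
open scoped Classical

theorem close : S_close := by
  intro α β C k χ hNo c d r s x b x' b' hr hs hk hx hx' h0 hrs hdx hdb
  have hX : XPath (fun u v => χ u v = c ∨ χ u v = d) k
      (fun t => if t < r then x t else x' (s - 1 - (t - r)))
      (fun t => if t ≤ r then b t else b' (s - (t - r))) := by
    refine ⟨fun i hi => ?_, fun i hi => ?_, fun i hi j hj e => ?_, fun i hi j hj e => ?_⟩
    · by_cases h1 : i < r
      · simp only [if_pos h1, if_pos h1.le]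
        exact Or.inl (hx.left i h1)
      · by_cases h2 : i ≤ r
        · have : i = r := by omega
          subst this
          simp only [if_neg h1, if_pos h2, Nat.sub_self, Nat.sub_zero]
          right
          have h3 := hx'.right (s - 1) (by omega)
          rw [show s - 1 + 1 = s by omega] at h3
          rw [hrs]
          exact h3
        · simp only [if_neg h1, if_neg h2]
          right
          have h3 := hx'.right (s - 1 - (i - r)) (by omega)
          rwa [show s - 1 - (i - r) + 1 = s - (i - r) by omega] at h3
    · by_cases h1 : i < r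
      · simp only [if_pos h1, if_pos (show i + 1 ≤ r by omega)]
        exact Or.inl (hx.right i h1)
      · simp only [if_neg h1, if_neg (show ¬ i + 1 ≤ r by omega)]
        right
        have h3 := hx'.left (s - 1 - (i - r)) (by omega)
        rwa [show s - 1 - (i - r) = s - (i + 1 - r) by omega] at h3 ⊢
    · by_cases h1 : i < r <;> by_cases h2 : j < r
      · simp only [if_pos h1, if_pos h2] at e
        exact hx.injx i h1 j h2 e
      · simp only [if_pos h1, if_neg h2] at e
        exact absurd e (hdx i h1 _ (by omega))
      · simp only [if_neg h1, if_pos h2] at e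
        exact absurd e.symm (hdx j h2 _ (by omega))
      · simp only [if_neg h1, if_neg h2] at e
        have := hx'.injx _ (by omega) _ (by omega) e
        omega
    · have key : ∀ i j : ℕ, i ≤ r → r < j → j < k → b i ≠ b' (s - (j - r)) := by
        intro i j hi hj hjk e
        rcases Nat.eq_zero_or_pos i with h3 | h3
        · subst h3
          rw [h0] at e
          have := hx'.injb _ (by omega) _ (by omega) e
          omega
        · rcases hi.eq_or_lt with h4 | h4
          · subst h4
            rw [hrs] at e
            have := hx'.injb _ (by omega) _ (by omega) e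
            omega
          · exact hdb i h3 h4 _ (by omega) (by omega) e
      by_cases h1 : i ≤ r <;> by_cases h2 : j ≤ r
      · simp only [if_pos h1, if_pos h2] at e
        exact hx.injb i h1 j h2 e
      · simp only [if_pos h1, if_neg h2] at e
        exact absurd e (key i j h1 (by omega) hj)
      · simp only [if_neg h1, if_pos h2] at e
        exact absurd e.symm (key j i h2 (by omega) hi)
      · simp only [if_neg h1, if_neg h2] at e
        have := hx'.injb _ (by omega) _ (by omega) e
        omega
  refine hNo c d _ _ hX ?_
  simp only [if_neg (show ¬ k - 1 < r by omega), if_pos (Nat.zero_le r)]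
  right
  rw [show s - 1 - (k - 1 - r) = 0 by omega, h0]
  exact hx'.left 0 (by omega)

theorem complete : S_complete := by
  intro α β E S Φ y y' hS hyy hy hy' hE hEf hcard
  obtain ⟨z0, hz0⟩ := hS
  have hs : 0 < S.card := Finset.card_pos.2 ⟨z0, hz0⟩
  set s := S.card with hsd
  let X : ℕ → α := fun i => if h : i < s then (S.equivFin.symm ⟨i, h⟩ : α) else z0
  let B : ℕ → β := fun i => if h0 : i = 0 then y else
    if h : i < s then (Φ.equivFin.symm ⟨i - 1, by omega⟩ : β) else y'
  have hXS : ∀ i, i < s → X i ∈ S := by
    intro i hi
    simp only [X, dif_pos hi]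
    exact (S.equivFin.symm ⟨i, hi⟩).2
  have hBΦ : ∀ i, 0 < i → i < s → B i ∈ Φ := by
    intro i h0 hi
    simp only [B, dif_neg (show i ≠ 0 by omega), dif_pos hi]
    exact (Φ.equivFin.symm ⟨i - 1, by omega⟩).2
  have hB0 : B 0 = y := by simp [B]
  have hBs : B s = y' := by
    simp only [B, dif_neg (show s ≠ 0 by omega), dif_neg (lt_irrefl s)]
  have hadj : ∀ i, i < s → ∀ j, j ≤ s → E (X i) (B j) := by
    intro i hi j hj
    rcases Nat.eq_zero_or_pos j with h1 | h1
    · rw [h1, hB0]
      exact (hE _ (hXS i hi)).1
    · rcases hj.eq_or_lt with h2 | h2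
      · rw [h2, hBs]
        exact (hE _ (hXS i hi)).2
      · exact hEf _ (hXS i hi) _ (hBΦ j h1 h2)
  refine ⟨X, B, ⟨fun i hi => hadj i hi i hi.le, fun i hi => hadj i hi (i + 1) hi,
    fun i hi j hj e => ?_, fun i hi j hj e => ?_⟩, hXS, hB0, hBs, hBΦ⟩
  · have hi' : i < s := hi
    have hj' : j < s := hj
    simp only [X, dif_pos hi', dif_pos hj'] at e
    have h1 := S.equivFin.symm.injective (Subtype.ext e)
    exact Fin.mk.inj_iff.1 h1
  · have kk : ∀ i j : ℕ, i < j → j ≤ s → B i ≠ B j := by
      intro i j hij hj e
      rcases Nat.eq_zero_or_pos i with h1 | h1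
      · rw [h1, hB0] at e
        rcases hj.eq_or_lt with h2 | h2
        · rw [h2, hBs] at e
          exact hyy e
        · exact hy (e ▸ hBΦ j (by omega) h2)
      · have hi' := hBΦ i h1 (by omega)
        rcases hj.eq_or_lt with h2 | h2
        · rw [h2, hBs] at e
          exact hy' (e ▸ hi')
        · simp only [B, dif_neg (show i ≠ 0 by omega), dif_neg (show j ≠ 0 by omega),
            dif_pos (show i < s by omega), dif_pos h2] at e
          have h3 := Φ.equivFin.symm.injective (Subtype.ext e)
          have h4 := Fin.mk.inj_iff.1 h3
          omega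
    rcases lt_trichotomy i j with h | h | h
    · exact absurd e (kk i j h hj)
    · exact h
    · exact absurd e.symm (kk j i h hi)

end Pool.Agent.H46.GR
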