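import Pool.Agent.H46.GR.Stmts

namespace Pool.Agent.H46.GR

open Finset
open scoped Classical

theorem NoC.flip {α β C : Type} {k : ℕ} {χ : α → β → C} (hk : 1 ≤ k) (h : NoC k χ) :
    NoC k (fun v u => χ u v) := by
  intro c d x b hp hcl
  refine h c d b (fun i => if i = 0 then x (k - 1) else x (i - 1)) ?_ ?_
  · refine ⟨?_, ?_, ?_, ?_⟩
    · intro i hi
      by_cases h0 : i = 0
      · subst h0; simpa using hcl
      · simp only [if_neg h0]
        have := hp.right (i - 1) (by omega)
        rwa [show i - 1 + 1 = i by omega] at this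
    · intro i hi
      simp only [if_neg (Nat.succ_ne_zero i), Nat.add_sub_cancel]
      exact hp.left i (by omega)
    · exact hp.injb
    · intro i hi j hj e
      by_cases h1 : i = 0 <;> by_cases h2 : j = 0
      · omega
      · simp only [if_pos h1, if_neg h2] at e
        have := hp.injx _ (by omega) _ (by omega) e; omega
      · simp only [if_neg h1, if_pos h2] at e
        have := hp.injx _ (by omega) _ (by omega) e; omega
      · simp only [if_neg h1, if_neg h2] at e
        have := hp.injx _ (by omega) _ (by omega) e; omega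
  · simp only [if_true]
    have := hp.left (k - 1) (by omega)
    exact this

theorem NoC.noP {α β C : Type} {k : ℕ} {χ : α → β → C} (h : NoC k χ) (c : C) (x : ℕ → α)
    (b : ℕ → β) : ¬ XPath (fun u v => χ u v = c) k x b := by
  intro hp
  exact h c (χ (x (k - 1)) (b 0)) x b
    ⟨fun i hi => Or.inl (hp.left i hi), fun i hi => Or.inl (hp.right i hi), hp.injx, hp.injb⟩
    (Or.inr rfl)

theorem pairsum {n : ℕ} {C : Type} [Fintype C] (K : ℕ) (Z : C → Fin n → Fin n → ℕ)
    (h : ∀ y y', y ≠ y' → ∑ c, Z c y y' ≤ K) (h0 : ∀ c y, Z c y y = 0) :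
    ∑ c, ∑ y, ∑ y', Z c y y' ≤ n * n * K := by
  rw [Finset.sum_comm]
  calc ∑ y, ∑ c, ∑ y', Z c y y' = ∑ y, ∑ y', ∑ c, Z c y y' := by
        apply Finset.sum_congr rfl; intro y _; exact Finset.sum_comm
    _ ≤ ∑ y : Fin n, ∑ y' : Fin n, K := by
        apply Finset.sum_le_sum; intro y _
        apply Finset.sum_le_sum; intro y' _
        by_cases e : y = y'
        · subst e; simp [h0]
        · exact h y y' e
    _ = n * n * K := by simp [mul_assoc]

theorem core (hacc : S_account) (hcap : S_capacity) : S_core := by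
  intro n r k χ hk hno
  obtain ⟨D, hD⟩ : ∃ D, D = (k + 1) / 2 := ⟨_, rfl⟩
  have hkD : k ≤ 2 * D := by omega
  have hkD2 : 2 * D ≤ k + 1 := by omega
  have H := fun c : Fin r => hacc (Fin n) (Fin n) (fun u v => χ u v = c) k D Finset.univ
    Finset.univ hk hkD hkD2 (hno.noP c)
  choose Zβ Zα h1 h2 h3 using H
  have hno' := hno.flip (by omega)
  -- capacities
  have hcβ : ∀ y y' : Fin n, y ≠ y' → ∑ c, Zβ c y y' ≤ k - 1 := by
    intro y y' hne
    rw [← Finset.sum_filter_ne_zero]
    have H1 : ∀ c : Fin r, ∃ (X : Finset (Fin n)) (Y : Finset (Fin n)), Zβ c y y' ≠ 0 →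
        IsUnit' (fun u v => χ u v = c) k D X Y ∧ y ∈ Y ∧ y' ∈ Y ∧
        Zβ c y y' ≤ (X.filter (fun u => χ u y = c ∧ χ u y' = c)).card := by
      intro c
      by_cases hz : Zβ c y y' = 0
      · exact ⟨∅, ∅, fun h => absurd hz h⟩
      · obtain ⟨_, _, _, X, Y, hh⟩ := h1 c y y' hz
        exact ⟨X, Y, fun _ => by convert hh⟩
    choose X Y hXY using H1
    refine hcap (Fin n) (Fin n) (Fin r) k D χ hno hk hkD hkD2 y y' hne _ _ X Y ?_
    intro c hc
    convert hXY c (Finset.mem_filter.1 hc).2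
  have hcα : ∀ y y' : Fin n, y ≠ y' → ∑ c, Zα c y y' ≤ k - 1 := by
    intro y y' hne
    rw [← Finset.sum_filter_ne_zero]
    have H1 : ∀ c : Fin r, ∃ (X : Finset (Fin n)) (Y : Finset (Fin n)), Zα c y y' ≠ 0 →
        IsUnit' (fun v u => χ u v = c) k D X Y ∧ y ∈ Y ∧ y' ∈ Y ∧
        Zα c y y' ≤ (X.filter (fun z => χ y z = c ∧ χ y' z = c)).card := by
      intro c
      by_cases hz : Zα c y y' = 0
      · exact ⟨∅, ∅, fun h => absurd hz h⟩
      · obtain ⟨_, _, _, X, Y, hh⟩ := h2 c y y' hz
        exact ⟨X, Y, fun _ => by convert hh⟩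
    choose X Y hXY using H1
    refine hcap (Fin n) (Fin n) (Fin r) k D (fun v u => χ u v) hno' hk hkD hkD2 y y' hne _ _ X Y ?_
    intro c hc
    convert hXY c (Finset.mem_filter.1 hc).2
  have hsβ := pairsum (k - 1) Zβ hcβ (fun c y => by
    by_contra h; exact (h1 c y y h).2.2.1 rfl)
  have hsα := pairsum (k - 1) Zα hcα (fun c y => by
    by_contra h; exact (h2 c y y h).2.2.1 rfl)
  -- edges
  have hedge : ∑ c : Fin r, edg (fun u v => χ u v = c) (Finset.univ : Finset (Fin n))
      (Finset.univ : Finset (Fin n)) = n * n := by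
    unfold edg
    rw [Finset.sum_comm]
    have : ∀ u : Fin n, ∑ c : Fin r, ((Finset.univ : Finset (Fin n)).filter
        (fun v => χ u v = c)).card = n := by
      intro u
      have := Finset.card_eq_sum_card_fiberwise (s := (Finset.univ : Finset (Fin n)))
        (t := (Finset.univ : Finset (Fin r))) (f := fun v => χ u v) (by intro v _; simp)
      simpa using this.symm
    simp [this]
  have hsum := Finset.sum_le_sum (fun (c : Fin r) (_ : c ∈ Finset.univ) => h3 c)
  rw [← Finset.mul_sum, hedge, Finset.sum_add_distrib, ← Finset.mul_sum,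
    Finset.sum_add_distrib, ← Finset.mul_sum, Finset.sum_add_distrib] at hsum
  simp only [Finset.card_univ, Fintype.card_fin, Finset.sum_const, smul_eq_mul] at hsum
  obtain ⟨m, rfl⟩ : ∃ m, k = m + 4 := ⟨k - 4, by omega⟩
  rw [show 2 * (m + 4) - 1 = 2 * m + 7 by omega, show m + 4 - 1 = m + 3 by omega] at *
  rw [show 3 * (m + 4) - 2 = 3 * m + 10 by omega]
  rcases Nat.eq_zero_or_pos n with hn | hn
  · subst hn; simp
  have hb : (m + 3) * (∑ c, ∑ y, ∑ y', Zβ c y y' + ∑ c, ∑ y, ∑ y', Zα c y y') ≤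
      (m + 3) * (n * n * (m + 3) + n * n * (m + 3)) :=
    Nat.mul_le_mul_left _ (add_le_add hsβ hsα)
  have hfin : 2 * (m + 4) * n * ((3 * m + 10) * n) ≤
      2 * (m + 4) * n * (2 * (m + 3) * (2 * m + 7) * r) := by
    nlinarith [hsum, hb]
  exact Nat.le_of_mul_le_mul_left hfin (by positivity)

end Pool.Agent.H46.GR
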