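import Pool.Agent.H46.GR.Stmts

/-!
The cycle lemma `S_cyc`.
-/

namespace Pool.Agent.H46.GR

open Finset
open scoped Classical

section shift

variable {α β : Type} {E : α → β → Prop} {q : ℕ} {x : ℕ → α} {b : ℕ → β}

lemma add_mod_inj {q i s t : ℕ} (hs : s < q) (ht : t < q) (h : (i + s) % q = (i + t) % q) :
    s = t := by
  have h1 : (i + s) ≡ (i + t) [MOD q] := h
  have h2 : s ≡ t [MOD q] := Nat.ModEq.add_left_cancel' i h1
  have h3 : s % q = t % q := h2
  rwa [Nat.mod_eq_of_lt hs, Nat.mod_eq_of_lt ht] at h3

lemma cyc_key (h : XPath E q x b) (hq : 1 ≤ q) (hc : E (x (q - 1)) (b 0)) (m : ℕ) :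
    E (x (m % q)) (b ((m + 1) % q)) := by
  have hlt : m % q < q := Nat.mod_lt _ (by omega)
  by_cases h1 : m % q + 1 < q
  · have : (m + 1) % q = m % q + 1 := by
      rw [Nat.add_mod, Nat.mod_eq_of_lt (show 1 < q by omega), Nat.mod_eq_of_lt h1]
    rw [this]
    exact h.right _ h1
  · have h2 : m % q = q - 1 := by omega
    have h3 : (m + 1) % q = 0 := by
      rw [← Nat.mod_add_mod, h2, Nat.sub_add_cancel hq, Nat.mod_self]
    rw [h2, h3]
    exact hc

lemma cyc_shift (h : XPath E q x b) (hq : 1 ≤ q) (hc : E (x (q - 1)) (b 0)) (i : ℕ) :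
    XPath E q (fun t => x ((i + t) % q)) (fun t => b ((i + t) % q)) := by
  have hlt : ∀ m, m % q < q := fun m => Nat.mod_lt _ (by omega)
  refine ⟨fun t _ => h.left _ (hlt _), fun t _ => ?_, fun s hs t ht e => ?_, fun s hs t ht e => ?_⟩
  · exact cyc_key h hq hc (i + t)
  · exact add_mod_inj hs ht (h.injx _ (hlt _) _ (hlt _) e)
  · exact add_mod_inj hs ht (h.injb _ (hlt _) _ (hlt _) e)

lemma cyc_close (h : XPath E q x b) (hq : 1 ≤ q) (hc : E (x (q - 1)) (b 0)) (i : ℕ) :
    E (x ((i + (q - 1)) % q)) (b (i % q)) := by
  have := cyc_key h hq hc (i + (q - 1))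
  rwa [show i + (q - 1) + 1 = i + q by omega, Nat.add_mod_right] at this

end shift

theorem cyc : S_cyc := by
  intro α β E k D A B q x b hC hk hq hqk hno h hc hB
  have hlt : ∀ m, m % q < q := fun m => Nat.mod_lt _ (by omega)
  have hxmem : ∀ m, ∃ i < q, x i = x (m % q) := fun m => ⟨_, hlt m, rfl⟩
  -- (1)
  have step1 : ∀ u v i, i < q → (∀ j < q, x j ≠ u) → E u (b i) → E u v →
      (∀ j < q, b j ≠ v) → False := by
    intro u v i hi hu hub huv hv
    have hs := cyc_shift h hq hc i
    apply hno (fun t => if t = 0 then u else x ((i + (t - 1)) % q))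
      (fun t => if t = 0 then v else b ((i + (t - 1)) % q))
    refine ⟨fun t ht => ?_, fun t ht => ?_, fun s hs' t ht e => ?_, fun s hs' t ht e => ?_⟩
    · rcases Nat.eq_zero_or_pos t with h0 | h0
      · subst h0; simpa using huv
      · simp only [if_neg (show ¬ t = 0 by omega)]
        exact hs.left (t - 1) (by omega)
    · rcases Nat.eq_zero_or_pos t with h0 | h0
      · subst h0
        simp only [if_true, if_neg (show ¬ (0 + 1 = 0) by omega)]
        simpa [Nat.mod_eq_of_lt hi] using hub
      · simp only [if_neg (show ¬ t = 0 by omega), if_neg (show ¬ (t + 1 = 0) by omega)]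
        have := hs.right (t - 1) (by omega)
        simpa only [show t - 1 + 1 = t + 1 - 1 by omega] using this
    · rcases Nat.eq_zero_or_pos s with h0 | h0 <;> rcases Nat.eq_zero_or_pos t with h1 | h1
      · omega
      · simp only [if_pos h0, if_neg (show ¬ t = 0 by omega)] at e
        exact absurd e.symm (hu _ (hlt _))
      · simp only [if_pos h1, if_neg (show ¬ s = 0 by omega)] at e
        exact absurd e (hu _ (hlt _))
      · simp only [if_neg (show ¬ s = 0 by omega), if_neg (show ¬ t = 0 by omega)] at e
        have := hs.injx (s - 1) (by omega) (t - 1) (by omega) e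
        omega
    · rcases Nat.eq_zero_or_pos s with h0 | h0 <;> rcases Nat.eq_zero_or_pos t with h1 | h1
      · omega
      · simp only [if_pos h0, if_neg (show ¬ t = 0 by omega)] at e
        exact absurd e.symm (hv _ (hlt _))
      · simp only [if_pos h1, if_neg (show ¬ s = 0 by omega)] at e
        exact absurd e (hv _ (hlt _))
      · simp only [if_neg (show ¬ s = 0 by omega), if_neg (show ¬ t = 0 by omega)] at e
        have := hs.injb (s - 1) (by omega) (t - 1) (by omega) e
        omega
  -- (2)
  have step2 : ∀ u v i, i < q → (∀ j < q, x j ≠ u) → E (x i) v → E u v →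
      (∀ j < q, b j ≠ v) → False := by
    intro u v i hi hu hxv huv hv
    have hs := cyc_shift h hq hc (i + 1)
    have hlast : (i + 1 + (q - 1)) % q = i := by
      rw [show i + 1 + (q - 1) = i + q by omega, Nat.add_mod_right, Nat.mod_eq_of_lt hi]
    apply hno (fun t => if t < q then x ((i + 1 + t) % q) else u)
      (fun t => if t < q then b ((i + 1 + t) % q) else v)
    refine ⟨fun t ht => ?_, fun t ht => ?_, fun s hs' t ht e => ?_, fun s hs' t ht e => ?_⟩
    · by_cases h0 : t < q
      · simp only [if_pos h0]; exact hs.left t h0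
      · simp only [if_neg h0]; exact huv
    · have h0 : t < q := by omega
      by_cases h1 : t + 1 < q
      · simp only [if_pos h0, if_pos h1]; exact hs.right t h1
      · simp only [if_pos h0, if_neg h1]
        have : t = q - 1 := by omega
        rw [this, hlast]
        exact hxv
    · by_cases h0 : s < q <;> by_cases h1 : t < q
      · simp only [if_pos h0, if_pos h1] at e
        exact hs.injx s h0 t h1 e
      · simp only [if_pos h0, if_neg h1] at e
        exact absurd e (hu _ (hlt _))
      · simp only [if_neg h0, if_pos h1] at e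
        exact absurd e.symm (hu _ (hlt _))
      · omega
    · by_cases h0 : s < q <;> by_cases h1 : t < q
      · simp only [if_pos h0, if_pos h1] at e
        exact hs.injb s h0 t h1 e
      · simp only [if_pos h0, if_neg h1] at e
        exact absurd e (hv _ (hlt _))
      · simp only [if_neg h0, if_pos h1] at e
        exact absurd e.symm (hv _ (hlt _))
      · omega
  -- the vertex sets of the cycle
  set X' : Finset α := (range q).image x with hX'
  set Y' : Finset β := (range q).image b with hY'
  have memX : ∀ u, u ∈ X' ↔ ∃ j < q, x j = u := by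
    intro u; rw [hX', Finset.mem_image]; simp
  have memY : ∀ v, v ∈ Y' ↔ ∃ j < q, b j = v := by
    intro v; rw [hY', Finset.mem_image]; simp
  have hXA : X' ⊆ A := by
    intro u hu
    obtain ⟨j, hj, rfl⟩ := (memX u).mp hu
    exact (hC.supp _ _ (h.left j hj)).1
  have hYB : Y' ⊆ B := by
    intro v hv
    obtain ⟨j, hj, rfl⟩ := (memY v).mp hv
    exact (hC.supp _ _ (h.left j hj)).2
  have cardX : X'.card = q := by
    rw [hX', Finset.card_image_of_injOn, Finset.card_range]
    intro s hs t ht e
    rw [Finset.coe_range, Set.mem_Iio] at hs ht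
    exact h.injx s hs t ht e
  have cardY : Y'.card = q := by
    rw [hY', Finset.card_image_of_injOn, Finset.card_range]
    intro s hs t ht e
    rw [Finset.coe_range, Set.mem_Iio] at hs ht
    exact h.injb s hs t ht e
  have notX : ∀ u, u ∉ X' → ∀ j < q, x j ≠ u := by
    intro u hu j hj e
    exact hu ((memX u).mpr ⟨j, hj, e⟩)
  have notY : ∀ v, v ∉ Y' → ∀ j < q, b j ≠ v := by
    intro v hv j hj e
    exact hv ((memY v).mpr ⟨j, hj, e⟩)
  -- (3)
  set A₁ : Finset α := X' ∪ A.filter (fun u => ∃ j < q, E u (b j)) with hA₁
  set B₁ : Finset β := Y' ∪ B.filter (fun v => ∃ j < q, E (x j) v) with hB₁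
  have hclosed : ∀ u v, E u v → (u ∈ A₁ ↔ v ∈ B₁) := by
    intro u v huv
    have hs := hC.supp u v huv
    constructor
    · intro hu
      by_cases hvY : v ∈ Y'
      · exact Finset.mem_union_left _ hvY
      · by_cases huX : u ∈ X'
        · obtain ⟨j, hj, rfl⟩ := (memX u).mp huX
          exact Finset.mem_union_right _ (Finset.mem_filter.mpr ⟨hs.2, j, hj, huv⟩)
        · rcases Finset.mem_union.mp hu with hu | hu
          · exact absurd hu huX
          · obtain ⟨-, j, hj, hub⟩ := Finset.mem_filter.mp hu
            exact (step1 u v j hj (notX u huX) hub huv (notY v hvY)).elim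
    · intro hv
      by_cases huX : u ∈ X'
      · exact Finset.mem_union_left _ huX
      · by_cases hvY : v ∈ Y'
        · obtain ⟨j, hj, rfl⟩ := (memY v).mp hvY
          exact Finset.mem_union_right _ (Finset.mem_filter.mpr ⟨hs.1, j, hj, huv⟩)
        · rcases Finset.mem_union.mp hv with hv | hv
          · exact absurd hv hvY
          · obtain ⟨-, j, hj, hxv⟩ := Finset.mem_filter.mp hv
            exact (step2 u v j hj (notX u huX) hxv huv (notY v hvY)).elim
  have hne : A₁.Nonempty := ⟨x 0, Finset.mem_union_left _ ((memX _).mpr ⟨0, by omega, rfl⟩)⟩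
  obtain ⟨hAA, hBB⟩ := hC.conn A₁ (Finset.union_subset hXA (Finset.filter_subset _ _)) B₁
    (Finset.union_subset hYB (Finset.filter_subset _ _)) (Or.inl hne) hclosed
  -- (4)
  by_contra hAq
  obtain ⟨u, huA, huX⟩ : ∃ u ∈ A, u ∉ X' := by
    by_contra hcon
    push Not at hcon
    have : A = X' := Finset.Subset.antisymm hcon hXA
    exact hAq (by rw [this, cardX])
  obtain ⟨v, hvB, hvY⟩ : ∃ v ∈ B, v ∉ Y' := by
    by_contra hcon
    push Not at hcon
    have := Finset.card_le_card (show B ⊆ Y' from hcon)
    omega
  have hub : ∃ j < q, E u (b j) := by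
    have : u ∈ A₁ := by rw [hAA]; exact huA
    rcases Finset.mem_union.mp this with hu | hu
    · exact absurd hu huX
    · exact (Finset.mem_filter.mp hu).2
  have hxv : ∃ j < q, E (x j) v := by
    have : v ∈ B₁ := by rw [hBB]; exact hvB
    rcases Finset.mem_union.mp this with hv | hv
    · exact absurd hv hvY
    · exact (Finset.mem_filter.mp hv).2
  obtain ⟨j₀, hj₀, hub⟩ := hub
  obtain ⟨j₁, hj₁, hxv⟩ := hxv
  have hNu : D ≤ ((range q).filter (fun i => E u (b i))).card := by
    refine (hC.degA u huA).trans ?_
    have hsub : B.filter (fun v => E u v) ⊆ ((range q).filter (fun i => E u (b i))).image b := by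
      intro w hw
      rw [Finset.mem_filter] at hw
      by_cases hwY : w ∈ Y'
      · obtain ⟨j, hj, rfl⟩ := (memY w).mp hwY
        exact Finset.mem_image.mpr ⟨j, Finset.mem_filter.mpr ⟨Finset.mem_range.mpr hj, hw.2⟩, rfl⟩
      · exact (step1 u w j₀ hj₀ (notX u huX) hub hw.2 (notY w hwY)).elim
    exact (Finset.card_le_card hsub).trans Finset.card_image_le
  have hNv : D ≤ ((range q).filter (fun i => E (x i) v)).card := by
    refine (hC.degB v hvB).trans ?_
    have hsub : A.filter (fun u => E u v) ⊆ ((range q).filter (fun i => E (x i) v)).image x := by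
      intro w hw
      rw [Finset.mem_filter] at hw
      by_cases hwX : w ∈ X'
      · obtain ⟨j, hj, rfl⟩ := (memX w).mp hwX
        exact Finset.mem_image.mpr ⟨j, Finset.mem_filter.mpr ⟨Finset.mem_range.mpr hj, hw.2⟩, rfl⟩
      · exact (step2 w v j₁ hj₁ (notX w hwX) hxv hw.2 (notY v hvY)).elim
    exact (Finset.card_le_card hsub).trans Finset.card_image_le
  obtain ⟨i, hi⟩ : ∃ i, i ∈ ((range q).filter (fun i => E u (b i))) ∩
      ((range q).filter (fun i => E (x i) v)) := by
    by_contra hcon
    push Not at hcon
    have hdis : ((range q).filter (fun i => E u (b i))) ∩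
      ((range q).filter (fun i => E (x i) v)) = ∅ := Finset.eq_empty_of_forall_notMem hcon
    have h1 := Finset.card_union_add_card_inter ((range q).filter (fun i => E u (b i)))
      ((range q).filter (fun i => E (x i) v))
    rw [hdis, Finset.card_empty] at h1
    have h2 : (((range q).filter (fun i => E u (b i))) ∪
      ((range q).filter (fun i => E (x i) v))).card ≤ q := by
      rw [← Finset.card_range q]
      exact Finset.card_le_card (Finset.union_subset (by rw [Finset.card_range]; exact Finset.filter_subset _ _) (by rw [Finset.card_range]; exact Finset.filter_subset _ _))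
    omega
  rw [Finset.mem_inter, Finset.mem_filter, Finset.mem_filter, Finset.mem_range] at hi
  obtain ⟨⟨hiq, hui⟩, -, hiv⟩ := hi
  have hs := cyc_shift h hq hc i
  have hcl := cyc_close h hq hc i
  rw [Nat.mod_eq_of_lt hiq] at hcl
  have hu := notX u huX
  have hv := notY v hvY
  apply hno (fun t => if t < q then x ((i + t) % q) else u)
    (fun t => if t = 0 then v else if t < q then b ((i + t) % q) else b i)
  refine ⟨fun t ht => ?_, fun t ht => ?_, fun s hs' t ht e => ?_, fun s hs' t ht e => ?_⟩
  · by_cases h0 : t < q
    · by_cases h1 : t = 0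
      · subst h1
        simp only [if_pos h0, if_true]
        simpa [Nat.mod_eq_of_lt hiq] using hiv
      · simp only [if_pos h0, if_neg h1]; exact hs.left t h0
    · have h1 : ¬ t = 0 := by omega
      simp only [if_neg h0, if_neg h1]; exact hui
  · have h0 : t < q := by omega
    have h2 : ¬ (t + 1 = 0) := by omega
    by_cases h1 : t + 1 < q
    · simp only [if_pos h0, if_pos h1, if_neg h2]; exact hs.right t h1
    · simp only [if_pos h0, if_neg h1, if_neg h2]
      have : t = q - 1 := by omega
      rw [this]
      exact hcl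
  · by_cases h0 : s < q <;> by_cases h1 : t < q
    · simp only [if_pos h0, if_pos h1] at e
      exact hs.injx s h0 t h1 e
    · simp only [if_pos h0, if_neg h1] at e
      exact absurd e (hu _ (hlt _))
    · simp only [if_neg h0, if_pos h1] at e
      exact absurd e.symm (hu _ (hlt _))
    · omega
  · -- reduce all b's to a common form
    have hform : ∀ t, t ≠ 0 → t < q + 1 →
        (if t < q then b ((i + t) % q) else b i) = b ((i + t) % q) := by
      intro t ht0 ht
      by_cases h1 : t < q
      · rw [if_pos h1]
      · rw [if_neg h1]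
        have : t = q := by omega
        rw [this, Nat.add_mod_right, Nat.mod_eq_of_lt hiq]
    by_cases h0 : s = 0 <;> by_cases h1 : t = 0
    · omega
    · simp only [if_pos h0, if_neg h1] at e
      rw [hform t h1 ht] at e
      exact absurd e.symm (hv _ (hlt _))
    · simp only [if_neg h0, if_pos h1] at e
      rw [hform s h0 hs'] at e
      exact absurd e (hv _ (hlt _))
    · simp only [if_neg h0, if_neg h1] at e
      rw [hform s h0 hs', hform t h1 ht] at e
      have h2 := h.injb _ (hlt _) _ (hlt _) e
      have h3 : (i + 1 + (s - 1)) % q = (i + 1 + (t - 1)) % q := by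
        rw [show i + 1 + (s - 1) = i + s by omega, show i + 1 + (t - 1) = i + t by omega]
        exact h2
      have := add_mod_inj (by omega) (by omega) h3
      omega

end Pool.Agent.H46.GR
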