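import Pool.Agent.H46.GR.Stmts

namespace Pool.Agent.H46.GR

open Finset
open scoped Classical

theorem card_inter_ge {α : Type} {X A B : Finset α} (hA : A ⊆ X) (hB : B ⊆ X) {D : ℕ}
    (h1 : D ≤ A.card) (h2 : D ≤ B.card) : 2 * D ≤ X.card + (A ∩ B).card := by
  have := Finset.card_union_add_card_inter A B
  have h3 : (A ∪ B).card ≤ X.card := Finset.card_le_card (Finset.union_subset hA hB)
  omega

theorem excl (hsh : S_short) (hA : S_fullA) (hB : S_fullB) (hcl : S_close) (hsw : S_swap) :
    S_excl := by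
  intro α β C k D χ hno hk hk2 c d X₁ X₂ Y₁ Y₂ y y' hcd hne hU1 hU2 hy1 hy'1 hy2 hy'2 hm1 hm2
  have hDy1 := hU1.degY y hy1
  have hDm1 : D ≤ X₁.card := hDy1.trans (Finset.card_filter_le _ _)
  have hD1 : 1 ≤ D := by omega
  obtain ⟨p, hp⟩ : ∃ p, p = k - X₁.card := ⟨_, rfl⟩
  have hp2 : 2 ≤ p := by omega
  have hpk : 2 * p ≤ k := by omega
  -- codegrees in X₂
  have hcod : ∀ u ∈ Y₂, ∀ v ∈ Y₂, u ≠ v →
      p ≤ (X₂.filter (fun z => χ z u = d ∧ χ z v = d)).card := by
    intro u hu v hv _
    have h1 := hU2.degY u hu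
    have h2 := hU2.degY v hv
    have := card_inter_ge (Finset.filter_subset (fun z => χ z u = d) X₂)
      (Finset.filter_subset (fun z => χ z v = d) X₂) h1 h2
    rw [← Finset.filter_and] at this
    omega
  -- P-neighbours
  have hPn : ∀ w, w ∈ Y₁ → w ∈ Y₂ → p ≤ (X₂.filter (fun z => z ∉ X₁ ∧ χ z w = d)).card := by
    intro w hw1 hw2
    have h1 := hU1.degY w hw1
    have h2 := hU2.degY w hw2
    have e1 : (X₂.filter (fun z => χ z w = d)) ⊆
        (X₂.filter (fun z => z ∉ X₁ ∧ χ z w = d)) ∪ (X₁.filter (fun z => ¬ χ z w = c)) := by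
      intro z hz
      simp only [Finset.mem_filter, Finset.mem_union] at hz ⊢
      by_cases hz1 : z ∈ X₁
      · right; exact ⟨hz1, fun h => hcd (h ▸ hz.2)⟩
      · left; exact ⟨hz.1, hz1, hz.2⟩
    have e2 := (Finset.card_le_card e1).trans (Finset.card_union_le _ _)
    have e3 := Finset.card_filter_add_card_filter_not (s := X₁) (fun z => χ z w = c)
    omega
  obtain ⟨r, x, b, hQ, hxX, hbY, hb0, hbr, hr, hl⟩ :=
    hsh α β (fun u v => χ u v = d) X₂ Y₂ (fun z => z ∉ X₁) p y y' hp2 hy2 hy'2 hne hcod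
      (by convert hPn y hy1 hy2) (by convert hPn y' hy'1 hy'2)
      (fun z hz => by have := hU2.degX z hz; omega)
  replace hl : p ≤ ((range r).filter (fun i => x i ∉ X₁)).card := by convert hl
  have hpr : p ≤ r := by
    have := Finset.card_filter_le (range r) (fun i => x i ∉ X₁)
    rw [Finset.card_range] at this; exact hl.trans this
  -- the set T
  obtain ⟨T, hT⟩ : ∃ T, T = ((range r).filter (fun i => x i ∈ X₁)).image x := ⟨_, rfl⟩
  have hTcard : T.card + ((range r).filter (fun i => x i ∉ X₁)).card = r := by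
    rw [hT, Finset.card_image_of_injOn]
    · have := Finset.card_filter_add_card_filter_not (s := range r) (fun i => x i ∈ X₁)
      rw [Finset.card_range] at this; exact this
    · intro i hi j hj e
      simp only [Finset.coe_filter, Finset.mem_range, Set.mem_ofPred_eq] at hi hj
      exact hQ.injx i hi.1 j hj.1 e
  have hTX1 : T ⊆ X₁ := by
    intro z hz; rw [hT] at hz
    simp only [Finset.mem_image, Finset.mem_filter, Finset.mem_range] at hz
    obtain ⟨i, hi, rfl⟩ := hz; exact hi.2
  have hTX2 : T ⊆ X₂ := by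
    intro z hz; rw [hT] at hz
    simp only [Finset.mem_image, Finset.mem_filter, Finset.mem_range] at hz
    obtain ⟨i, hi, rfl⟩ := hz; exact hxX i hi.1
  have hTr : T.card ≤ r - p := by omega
  have hrpX : r - p ≤ X₁.card := by omega
  -- the set T'
  obtain ⟨T', hTT', hT'X, hT'c, hT'p⟩ : ∃ T' : Finset α, T ⊆ T' ∧ T' ⊆ X₁ ∧ T'.card = r - p ∧
      (T' = T ∨ (∃ z ∈ T', χ z y ≠ c) ∨ (∀ z ∈ X₁, z ∉ T' → χ z y = c)) := by
    by_cases h1 : T.card = r - p
    · exact ⟨T, subset_rfl, hTX1, h1, Or.inl rfl⟩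
    · by_cases h2 : ∃ z ∈ X₁, z ∉ T ∧ χ z y ≠ c
      · obtain ⟨z, hz1, hz2, hz3⟩ := h2
        obtain ⟨T', h3, h4, h5⟩ := Finset.exists_subsuperset_card_eq (s := insert z T) (t := X₁)
          (n := r - p) (Finset.insert_subset hz1 hTX1)
          ((Finset.card_insert_le _ _).trans (by omega)) hrpX
        exact ⟨T', (Finset.subset_insert _ _).trans h3, h4, h5,
          Or.inr (Or.inl ⟨z, h3 (Finset.mem_insert_self _ _), hz3⟩)⟩
      · obtain ⟨T', h3, h4, h5⟩ := Finset.exists_subsuperset_card_eq (s := T) (t := X₁)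
          (n := r - p) hTX1 hTr hrpX
        refine ⟨T', h3, h4, h5, Or.inr (Or.inr ?_)⟩
        intro z hz hz'
        by_contra h6
        exact h2 ⟨z, hz, fun h7 => hz' (h3 h7), h6⟩
  obtain ⟨X', hX'⟩ : ∃ X', X' = X₁ \ T' := ⟨_, rfl⟩
  obtain ⟨F, hF⟩ : ∃ F, F = Y₁ \ ((range (r + 1)).image b) := ⟨_, rfl⟩
  have hX'c : X'.card + r = k := by
    rw [hX', Finset.card_sdiff_of_subset hT'X, hT'c]; omega
  have hX'sub : X' ⊆ X₁ := hX' ▸ Finset.sdiff_subset
  have hdegX' : ∀ f ∈ Y₁, D - (r - p) ≤ (X'.filter (fun z => χ z f = c)).card := by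
    intro f hf
    have h1 := hU1.degY f hf
    have e1 : (X₁.filter (fun z => χ z f = c)) ⊆ (X'.filter (fun z => χ z f = c)) ∪ T' := by
      intro z hz
      simp only [Finset.mem_filter, Finset.mem_union, hX', Finset.mem_sdiff] at hz ⊢
      by_cases h : z ∈ T'
      · exact Or.inr h
      · exact Or.inl ⟨⟨hz.1, h⟩, hz.2⟩
    have e2 := (Finset.card_le_card e1).trans (Finset.card_union_le _ _)
    omega
  have hyF : y ∉ F := by
    rw [hF, Finset.mem_sdiff]
    rintro ⟨_, h⟩
    exact h (Finset.mem_image.2 ⟨0, by simp, hb0⟩)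
  have hy'F : y' ∉ F := by
    rw [hF, Finset.mem_sdiff]
    rintro ⟨_, h⟩
    exact h (Finset.mem_image.2 ⟨r, by simp, hbr⟩)
  have hFY : F ⊆ Y₁ := hF ▸ Finset.sdiff_subset
  have hXdeg : ∀ z ∈ X', X'.card ≤ (F.filter (fun f => χ z f = c)).card := by
    intro z hz
    have h1 := hU1.degX z (hX'sub hz)
    have e1 : (Y₁.filter (fun f => χ z f = c)) ⊆
        (F.filter (fun f => χ z f = c)) ∪ ((range (r + 1)).image b) := by
      intro f hf
      simp only [Finset.mem_filter, Finset.mem_union, hF, Finset.mem_sdiff] at hf ⊢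
      by_cases h : f ∈ (range (r + 1)).image b
      · exact Or.inr h
      · exact Or.inl ⟨⟨hf.1, h⟩, hf.2⟩
    have e2 := (Finset.card_le_card e1).trans (Finset.card_union_le _ _)
    have e3 : ((range (r + 1)).image b).card ≤ r + 1 := by
      simpa using Finset.card_image_le (s := range (r + 1)) (f := b)
    omega
  have hX'pos : 1 ≤ X'.card := by
    have h1 := hdegX' y hy1
    have h2 := Finset.card_filter_le X' (fun z => χ z y = c)
    omega
  -- closing
  have hclose : ¬ FullPath (fun u v => χ u v = c) X' F y y' := by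
    rintro ⟨x1, b1, hp1, hx1, h10, h11, hb1⟩
    refine hcl α β C k χ hno d c r X'.card x b x1 b1 (by omega) hX'pos (by omega) hQ hp1
      (hb0.trans h10.symm) (hbr.trans h11.symm) ?_ ?_
    · intro i hi j hj e
      have h2 := hx1 j hj
      rw [← e, hX', Finset.mem_sdiff] at h2
      apply h2.2
      apply hTT'
      rw [hT]
      exact Finset.mem_image.2 ⟨i, Finset.mem_filter.2 ⟨Finset.mem_range.2 hi, h2.1⟩, rfl⟩
    · intro i hi hir j hj hjs e
      have h2 := hb1 j hj hjs
      rw [← e, hF, Finset.mem_sdiff] at h2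
      exact h2.2 (Finset.mem_image.2 ⟨i, Finset.mem_range.2 (by omega), rfl⟩)
  by_cases hcase : X'.card + 2 ≤ 2 * (D - (r - p))
  · exact hclose (hA α β _ X' F y y' (D - (r - p)) hcase hne hyF hy'F
      (fun f hf => hdegX' f (hFY hf)) (hdegX' y hy1) (hdegX' y' hy'1) hXdeg)
  · have hk2D : k = 2 * D ∧ r + 1 = 2 * p := by omega
    obtain ⟨hkD, hr2⟩ := hk2D
    rcases hB α β _ X' F y y' (D - (r - p)) (by omega) hne hyF hy'F
      (fun f hf => hdegX' f (hFY hf)) (hdegX' y hy1) (hdegX' y' hy'1) hXdeg with hfp | htw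
    · exact hclose hfp
    · obtain ⟨hD2, hycard, htwin, hmany⟩ := htw
      -- all neighbourhoods contain T'
      have hsplit : ∀ f, D ≤ (X₁.filter (fun z => χ z f = c)).card →
          (X'.filter (fun z => χ z f = c)).card ≤ D - (r - p) →
          ∀ z ∈ T', χ z f = c := by
        intro f hf1 hf2
        have e1 : (X₁.filter (fun z => χ z f = c)) ⊆
            (X'.filter (fun z => χ z f = c)) ∪ (T'.filter (fun z => χ z f = c)) := by
          intro z hz
          simp only [Finset.mem_filter, Finset.mem_union, hX', Finset.mem_sdiff] at hz ⊢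
          by_cases h : z ∈ T'
          · exact Or.inr ⟨h, hz.2⟩
          · exact Or.inl ⟨⟨hz.1, h⟩, hz.2⟩
        have e2 := (Finset.card_le_card e1).trans (Finset.card_union_le _ _)
        have e3 : T'.card ≤ (T'.filter (fun z => χ z f = c)).card := by omega
        have e4 : T'.filter (fun z => χ z f = c) = T' :=
          Finset.eq_of_subset_of_card_le (Finset.filter_subset _ _) e3
        intro z hz
        rw [← e4] at hz
        exact (Finset.mem_filter.1 hz).2
      have hTy : ∀ z ∈ T', χ z y = c := hsplit y hDy1 (by rw [hycard])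
      have hy'card : (X'.filter (fun z => χ z y' = c)).card = D - (r - p) := by
        rw [← hycard]
        congr 1
        apply Finset.filter_congr
        intro z hz; exact (htwin z hz).symm
      have hTy' : ∀ z ∈ T', χ z y' = c := hsplit y' (hU1.degY y' hy'1) (by rw [hy'card])
      -- T' = T
      have hTeq : T' = T := by
        rcases hT'p with h | h | h
        · exact h
        · obtain ⟨z, hz, hz'⟩ := h
          exact absurd (hTy z hz) hz'
        · exfalso
          have : X'.filter (fun z => χ z y = c) = X' := by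
            apply Finset.filter_true_of_mem
            intro z hz
            rw [hX', Finset.mem_sdiff] at hz
            exact h z hz.1 hz.2
          rw [this] at hycard
          omega
      -- the block
      obtain ⟨S, hS⟩ : ∃ S, S = X₁.filter (fun z => χ z y = c) := ⟨_, rfl⟩
      obtain ⟨Φ, hΦ⟩ : ∃ Φ, Φ = F.filter (fun f => ∀ z ∈ X', (χ z f = c) ↔ χ z y = c) := ⟨_, rfl⟩
      have hSy' : ∀ z ∈ S, χ z y' = c := by
        intro z hz
        rw [hS, Finset.mem_filter] at hz
        by_cases h : z ∈ T'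
        · exact hTy' z h
        · exact (htwin z (by rw [hX', Finset.mem_sdiff]; exact ⟨hz.1, h⟩)).1 hz.2
      have hSΦ : ∀ z ∈ S, ∀ f ∈ Φ, χ z f = c := by
        intro z hz f hf
        rw [hS, Finset.mem_filter] at hz
        rw [hΦ, Finset.mem_filter] at hf
        by_cases h : z ∈ T'
        · refine hsplit f (hU1.degY f (hFY hf.1)) ?_ z h
          rw [← hycard]
          apply Finset.card_le_card
          intro w hw
          rw [Finset.mem_filter] at hw ⊢
          exact ⟨hw.1, (hf.2 w hw.1).1 hw.2⟩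
        · exact (hf.2 z (by rw [hX', Finset.mem_sdiff]; exact ⟨hz.1, h⟩)).2 hz.2
      -- |X₂| ≥ 2p-1
      have hX2 : 2 * p - 1 ≤ X₂.card := by
        have h1 := hU2.degY y hy2
        have hdisj : Disjoint (X₁.filter (fun z => χ z y = c)) (X₂.filter (fun z => χ z y = d)) := by
          rw [Finset.disjoint_left]
          intro z hz1 hz2
          rw [Finset.mem_filter] at hz1 hz2
          exact hcd (hz1.2.symm.trans hz2.2)
        have e1 : (X₁.filter (fun z => χ z y = c)) ∪ (X₂.filter (fun z => χ z y = d)) ⊆ X₁ ∪ X₂ :=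
          Finset.union_subset_union (Finset.filter_subset _ _) (Finset.filter_subset _ _)
        have e2 := Finset.card_le_card e1
        rw [Finset.card_union_of_disjoint hdisj] at e2
        have e3 := Finset.card_union_add_card_inter X₁ X₂
        have e4 : T.card ≤ (X₁ ∩ X₂).card :=
          Finset.card_le_card (Finset.subset_inter hTX1 hTX2)
        rw [hTeq] at hT'c
        omega
      refine hsw α β C k D χ hno hk c d S X₂ Φ Y₂ y y' hcd hne hU2 hy2 hy'2 (by omega)
        (by rw [hS]; exact hDy1) (fun z hz => ⟨?_, hSy' z hz⟩) ?_ ?_ hSΦ ?_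
      · rw [hS, Finset.mem_filter] at hz; exact hz.2
      · intro h; rw [hΦ, Finset.mem_filter] at h; exact hyF h.1
      · intro h; rw [hΦ, Finset.mem_filter] at h; exact hy'F h.1
      · rw [hΦ]
        omega

end Pool.Agent.H46.GR
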