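import Pool.Agent.H46.GR.Stmts

namespace Pool.Agent.H46.GR

open Finset Filter Topology
open scoped Classical

theorem lower (hc : S_core) (hb : S_bridge) (hr : S_rainbow) (k n : ℕ) (hk : 4 ≤ k) :
    ((3 * k - 2 : ℝ) / (2 * (k - 1) * (2 * k - 1))) * n ≤
      (genRamsey (completeBipartiteGraph (Fin n) (Fin n)) (SimpleGraph.cycleGraph (2 * k)) 3 : ℝ) := by
  have hne : {r : ℕ | ∃ χ : Sym2 (Fin n ⊕ Fin n) → Fin r,
      IsGenColouring (completeBipartiteGraph (Fin n) (Fin n))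
        (SimpleGraph.cycleGraph (2 * k)) 3 χ}.Nonempty := hr n k (by omega)
  obtain ⟨χ, hχ⟩ := Nat.sInf_mem hne
  have h1 := hc n _ k _ hk (hb n _ k χ (by omega) hχ)
  change (3 * k - 2) * n ≤ 2 * (k - 1) * (2 * k - 1) *
    genRamsey (completeBipartiteGraph (Fin n) (Fin n)) (SimpleGraph.cycleGraph (2 * k)) 3 at h1
  have h2 : (((3 * k - 2) * n : ℕ) : ℝ) ≤ ((2 * (k - 1) * (2 * k - 1) *
    genRamsey (completeBipartiteGraph (Fin n) (Fin n)) (SimpleGraph.cycleGraph (2 * k)) 3 : ℕ) : ℝ) := by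
    exact_mod_cast h1
  push_cast [Nat.cast_sub (show 2 ≤ 3 * k by omega), Nat.cast_sub (show 1 ≤ k by omega),
    Nat.cast_sub (show 1 ≤ 2 * k by omega)] at h2
  have hk' : (4 : ℝ) ≤ k := by exact_mod_cast hk
  have hpos : (0 : ℝ) < 2 * (k - 1) * (2 * k - 1) := by
    have : (0 : ℝ) < k - 1 := by linarith
    have : (0 : ℝ) < 2 * k - 1 := by linarith
    positivity
  rw [div_mul_eq_mul_div, div_le_iff₀ hpos]
  linarith

theorem limit_of_upper (hc : S_core) (hb : S_bridge) (hr : S_rainbow) (k : ℕ) (hk : 4 ≤ k)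
    (hup : ∀ ε : ℝ, 0 < ε → ∀ᶠ n : ℕ in atTop,
      (genRamsey (completeBipartiteGraph (Fin n) (Fin n)) (SimpleGraph.cycleGraph (2 * k)) 3 : ℝ) ≤
        ((3 * k - 2 : ℝ) / (2 * (k - 1) * (2 * k - 1)) + ε) * n) :
    Tendsto (fun n : ℕ => (genRamsey (completeBipartiteGraph (Fin n) (Fin n))
        (SimpleGraph.cycleGraph (2 * k)) 3 : ℝ) / n) atTop
      (𝓝 ((3 * k - 2 : ℝ) / (2 * (k - 1) * (2 * k - 1)))) := by
  rw [Metric.tendsto_atTop]
  intro ε hε
  obtain ⟨N, hN⟩ := Filter.eventually_atTop.1 (hup (ε / 2) (by positivity))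
  refine ⟨max N 1, fun n hn => ?_⟩
  have hn1 : (0 : ℝ) < n := by
    have : 1 ≤ n := le_trans (le_max_right _ _) hn
    exact_mod_cast this
  have h1 := hN n (le_trans (le_max_left _ _) hn)
  have h2 := lower hc hb hr k n hk
  rw [Real.dist_eq, abs_lt]
  constructor
  · rw [lt_sub_iff_add_lt, lt_div_iff₀ hn1]
    nlinarith
  · rw [sub_lt_iff_lt_add, div_lt_iff₀ hn1]
    nlinarith

end Pool.Agent.H46.GR
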