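import Pool.Agent.H46.GR.Stmts

namespace Pool.Agent.H46.GR

open Finset
open scoped Classical

namespace FullA

variable {α β : Type} {E : α → β → Prop} {X' : Finset α} {F : Finset β} {y : β} {j : ℕ}
  {x : ℕ → α} {b : ℕ → β}

/-- good paths -/
structure G (E : α → β → Prop) (X' : Finset α) (F : Finset β) (y : β) (j : ℕ)
    (x : ℕ → α) (b : ℕ → β) : Prop where
  path : XPath E j x b
  memx : ∀ i < j, x i ∈ X'
  start : b 0 = y
  memb : ∀ i, 0 < i → i < j → b i ∈ F

theorem G.ext (h : G E X' F y j x b) (hj : 1 ≤ j) {f : β} (hf : f ∈ F) (hE : E (x (j - 1)) f)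
    (hfb : ∀ i < j, b i ≠ f) {v : α} (hv : v ∈ X') (hvf : E v f) (hvx : ∀ i < j, x i ≠ v) :
    ∃ x' b', G E X' F y (j + 1) x' b' := by
  have hY := h.path.toY hj hE hfb
  refine ⟨fun t => if t < j then x t else v, fun t => if t < j then b t else f,
    ⟨fun i hi => ?_, fun i hi => ?_, fun i hi k hk e => ?_, fun i hi k hk e => ?_⟩,
    fun i hi => ?_, ?_, fun i h0 hi => ?_⟩
  · by_cases h1 : i < j
    · have := hY.left i h1
      simp only [if_pos h1] at this ⊢
      exact this
    · simp only [if_neg h1]; exact hvf
  · have h1 : i < j := by omega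
    have := hY.right i h1
    simp only [if_pos h1] at this ⊢
    exact this
  · by_cases h1 : i < j <;> by_cases h2 : k < j
    · simp only [if_pos h1, if_pos h2] at e; exact h.path.injx i h1 k h2 e
    · simp only [if_pos h1, if_neg h2] at e; exact absurd e (hvx i h1)
    · simp only [if_neg h1, if_pos h2] at e; exact absurd e.symm (hvx k h2)
    · omega
  · exact hY.injb i (by omega) k (by omega) e
  · by_cases h1 : i < j
    · simp only [if_pos h1]; exact h.memx i h1
    · simp only [if_neg h1]; exact hv
  · simp only [if_pos (show 0 < j by omega)]; exact h.start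
  · by_cases h1 : i < j
    · simp only [if_pos h1]; exact h.memb i h0 h1
    · simp only [if_neg h1]; exact hf

theorem G.rot (h : G E X' F y j x b) {e : β} (he : e ∈ F) (hE : E (x (j - 1)) e)
    (heb : ∀ i < j, b i ≠ e) {i : ℕ} (hi : i + 1 < j) (hie : E (x i) e) :
    ∃ x' b', G E X' F y j x' b' ∧ x' (j - 1) = x (i + 1) ∧ (∀ t < j, ∃ s < j, x' t = x s) ∧
      (∀ t < j, b' t = e ∨ ∃ s < j, b' t = b s) := by
  have hY := h.path.toY (by omega) hE heb
  have hR := hY.rot (i := i) (by omega) (by simpa using hie)
  refine ⟨_, _, ⟨hR.toX, fun t ht => ?_, ?_, fun t h0 ht => ?_⟩, ?_, fun t ht => ?_,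
    fun t ht => ?_⟩
  · by_cases h1 : t ≤ i
    · simp only [if_pos h1]; exact h.memx t ht
    · simp only [if_neg h1]; exact h.memx _ (by omega)
  · simp only [if_pos (Nat.zero_le i), if_pos (show 0 < j by omega)]; exact h.start
  · by_cases h1 : t ≤ i
    · simp only [if_pos h1, if_pos ht]; exact h.memb t h0 ht
    · by_cases h2 : j + i + 1 - t < j
      · simp only [if_neg h1, if_pos h2]; exact h.memb _ (by omega) h2
      · simp only [if_neg h1, if_neg h2]; exact he
  · simp only [if_neg (show ¬ (j - 1 ≤ i) by omega)]
    congr 1; omega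
  · by_cases h1 : t ≤ i
    · exact ⟨t, ht, by simp only [if_pos h1]⟩
    · exact ⟨j + i - t, by omega, by simp only [if_neg h1]⟩
  · by_cases h1 : t ≤ i
    · exact Or.inr ⟨t, ht, by simp only [if_pos h1, if_pos ht]⟩
    · by_cases h2 : j + i + 1 - t < j
      · exact Or.inr ⟨_, h2, by simp only [if_neg h1, if_pos h2]⟩
      · exact Or.inl (by simp only [if_neg h1, if_neg h2])

theorem G.le (h : G E X' F y j x b) : j ≤ X'.card := by
  have : (range j).card ≤ X'.card :=
    card_le_card_of_injOn x (fun i hi => h.memx i (mem_range.1 hi))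
      (fun i hi k hk e => h.path.injx i (by simpa using hi) k (by simpa using hk) e)
  simpa using this

/-- counting -/
theorem G.count (h : G E X' F y j x b) {D : ℕ} {e : β}
    (hN : ∀ z ∈ X', E z e → ∃ i < j, x i = z) (hD : D ≤ (X'.filter (fun z => E z e)).card)
    (P : α → Prop) (hP : D ≤ (X'.filter P).card)
    (hn : ∀ i, i + 1 < j → E (x i) e → ¬ P (x (i + 1))) : 2 * D ≤ X'.card + 1 := by
  set J := (range j).filter (fun i => E (x i) e) with hJ
  have h1 : D ≤ J.card := by
    refine hD.trans ?_
    refine (card_le_card (t := J.image x) ?_).trans card_image_le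
    intro z hz
    rw [mem_filter] at hz
    obtain ⟨i, hi, rfl⟩ := hN z hz.1 hz.2
    exact mem_image_of_mem _ (mem_filter.2 ⟨mem_range.2 hi, hz.2⟩)
  set K := J.filter (fun i => i + 1 < j) with hK
  have h2 : J.card ≤ K.card + 1 := by
    have : J ⊆ insert (j - 1) K := by
      intro i hi
      rw [mem_insert, hK, mem_filter]
      have := mem_range.1 (mem_filter.1 hi).1
      by_cases h3 : i + 1 < j
      · exact Or.inr ⟨hi, h3⟩
      · left; omega
    exact (card_le_card this).trans (card_insert_le _ _)
  have h3 : K.card = (K.image (fun i => x (i + 1))).card := by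
    rw [card_image_of_injOn]
    intro i hi k hk e
    have h4 := (mem_filter.1 hi).2
    have h5 := (mem_filter.1 hk).2
    have := h.path.injx _ h4 _ h5 e
    omega
  have h4 : Disjoint (X'.filter P) (K.image (fun i => x (i + 1))) := by
    rw [Finset.disjoint_left]
    intro z hz hz2
    rw [mem_image] at hz2
    obtain ⟨i, hi, rfl⟩ := hz2
    have h5 := (mem_filter.1 hi)
    exact hn i h5.2 (mem_filter.1 h5.1).2 (mem_filter.1 hz).2
  have h5 : X'.filter P ∪ K.image (fun i => x (i + 1)) ⊆ X' := by
    intro z hz
    rw [mem_union] at hz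
    rcases hz with hz | hz
    · exact (mem_filter.1 hz).1
    · rw [mem_image] at hz
      obtain ⟨i, hi, rfl⟩ := hz
      exact h.memx _ (mem_filter.1 hi).2
  have h6 := card_le_card h5
  rw [card_union_of_disjoint h4, ← h3] at h6
  omega

/-- an unused neighbour -/
theorem G.unused (h : G E X' F y j x b) (hj : 1 ≤ j) (hy : y ∉ F) {z : α} (A : Finset β)
    (hz : j + A.card ≤ (F.filter (fun f => E z f)).card) :
    ∃ f ∈ F, E z f ∧ (∀ i < j, b i ≠ f) ∧ f ∉ A := by
  by_contra hcon
  push Not at hcon
  have h1 : F.filter (fun f => E z f) ⊆ ((range j).erase 0).image b ∪ A := by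
    intro f hf
    rw [mem_filter] at hf
    rw [mem_union]
    by_cases hA : f ∈ A
    · exact Or.inr hA
    left
    by_cases h2 : ∀ i < j, b i ≠ f
    · exact absurd (hcon f hf.1 hf.2 h2) hA
    · push Not at h2
      obtain ⟨i, hi, rfl⟩ := h2
      refine mem_image_of_mem _ (mem_erase.2 ⟨?_, mem_range.2 hi⟩)
      rintro rfl
      rw [h.start] at hf
      exact hy hf.1
  have h2 := (card_le_card h1).trans (card_union_le _ _)
  have h3 : (((range j).erase 0).image b).card ≤ j - 1 := by
    refine card_image_le.trans ?_
    rw [card_erase_of_mem (mem_range.2 (by omega)), card_range]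
  omega

end FullA

open FullA in
theorem fullA : S_fullA := by
  intro α β E X' F y y' D hm hyy hy hy' hF hDy hDy' hX
  have hpos : 1 ≤ X'.card := by
    have : (X'.filter (fun z => E z y)).card ≤ X'.card := card_filter_le _ _
    omega
  -- good paths of every length
  have hG : ∀ j, 1 ≤ j → j ≤ X'.card → ∃ x b, G E X' F y j x b := by
    intro j hj
    induction j, hj using Nat.le_induction with
    | base =>
      intro _
      have h1 : (X'.filter (fun z => E z y)).Nonempty := by
        rw [← card_pos]; omega
      obtain ⟨z, hz⟩ := h1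
      rw [mem_filter] at hz
      refine ⟨fun _ => z, fun _ => y, ⟨fun i hi => hz.2, fun i hi => by omega,
        fun i hi k hk _ => by omega, fun i hi k hk _ => by omega⟩, fun i hi => hz.1, rfl,
        fun i h0 hi => by omega⟩
    | succ j hj ih =>
      intro hjm
      obtain ⟨x, b, h⟩ := ih (by omega)
      by_contra hcon
      have hlast : x (j - 1) ∈ X' := h.memx _ (by omega)
      obtain ⟨e, he, hEe, heb, -⟩ := h.unused hj hy ∅ (z := x (j - 1))
        (by have := hX _ hlast; simp only [card_empty]; omega)
      have hN : ∀ z ∈ X', E z e → ∃ i < j, x i = z := by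
        intro z hz hze
        by_contra hc
        push Not at hc
        exact hcon (h.ext hj he hEe heb hz hze hc)
      have hv : ∃ v ∈ X', ∀ i < j, x i ≠ v := by
        by_contra hc
        push Not at hc
        have h1 : X' ⊆ (range j).image x := by
          intro z hz
          obtain ⟨i, hi, rfl⟩ := hc z hz
          exact mem_image_of_mem _ (mem_range.2 hi)
        have := (card_le_card h1).trans card_image_le
        rw [card_range] at this
        omega
      obtain ⟨v, hv, hvx⟩ := hv
      obtain ⟨f, hf, hvf, hfb, hfe⟩ := h.unused hj hy {e} (z := v)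
        (by have := hX _ hv; simp only [card_singleton]; omega)
      rw [mem_singleton] at hfe
      have := h.count hN (hF e he) (fun z => E z f) (hF f hf) (by
        intro i hi hie hif
        obtain ⟨x', b', h', hlx, hx', hb'⟩ := h.rot he hEe heb hi hie
        apply hcon
        refine h'.ext hj hf (by rw [hlx]; exact hif) ?_ hv hvf ?_
        · intro t ht h1
          rcases hb' t ht with h2 | ⟨s, hs, h2⟩
          · exact hfe (h1.symm.trans h2)
          · exact hfb s hs (h2.symm.trans h1)
        · intro t ht h1
          obtain ⟨s, hs, h2⟩ := hx' t ht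
          exact hvx s hs (h2.symm.trans h1))
      omega
  obtain ⟨x, b, h⟩ := hG X'.card hpos le_rfl
  set m := X'.card with hmdef
  have hlast : x (m - 1) ∈ X' := h.memx _ (by omega)
  obtain ⟨e, he, hEe, heb, -⟩ := h.unused hpos hy ∅ (z := x (m - 1))
    (by have := hX _ hlast; simp only [card_empty]; omega)
  have himg : (range m).image x = X' := by
    apply eq_of_subset_of_card_le
    · intro z hz
      rw [mem_image] at hz
      obtain ⟨i, hi, rfl⟩ := hz
      exact h.memx i (mem_range.1 hi)
    · rw [card_image_of_injOn, card_range]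
      intro i hi k hk e
      exact h.path.injx i (by simpa using hi) k (by simpa using hk) e
  have hN : ∀ z ∈ X', E z e → ∃ i < m, x i = z := by
    intro z hz _
    rw [← himg, mem_image] at hz
    obtain ⟨i, hi, rfl⟩ := hz
    exact ⟨i, mem_range.1 hi, rfl⟩
  -- finishing
  have hfin : ∀ x b, G E X' F y m x b → E (x (m - 1)) y' → FullPath E X' F y y' := by
    intro x b h hE
    have hb : ∀ i < m, b i ≠ y' := by
      intro i hi hc
      rcases Nat.eq_zero_or_pos i with rfl | h0
      · rw [h.start] at hc; exact hyy hc
      · exact hy' (hc ▸ h.memb i h0 hi)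
    have hY := h.path.toY hpos hE hb
    refine ⟨x, _, hY, h.memx, ?_, ?_, ?_⟩
    · simp only [if_pos (show 0 < m by omega)]; exact h.start
    · simp only [if_neg (show ¬ (X'.card < m) by omega)]
    · intro i h0 hi
      have hi' : i < m := by omega
      simp only [if_pos hi']; exact h.memb i h0 hi'
  by_contra hcon
  have := h.count hN (hF e he) (fun z => E z y') hDy' (by
    intro i hi hie hif
    obtain ⟨x', b', h', hlx, -, -⟩ := h.rot he hEe heb hi hie
    exact hcon (hfin x' b' h' (by rw [hlx]; exact hif)))
  omega

end Pool.Agent.H46.GR
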