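import Pool.Agent.H46.GR.Stmts

/-!
# Full path lemma, surplus 1: `S_fullB` from `S_fullB1` and `S_blade`
-/

namespace Pool.Agent.H46.GR

open Finset
open scoped Classical

namespace FB

variable {α β : Type} {E : α → β → Prop}

theorem full_rev {X' : Finset α} {F : Finset β} {y y' : β} (h : FullPath E X' F y y') :
    FullPath E X' F y' y := by
  obtain ⟨x, b, hp, hx, h0, h1, hb⟩ := h
  refine ⟨fun t => x (X'.card - 1 - t), fun t => b (X'.card - t), hp.rev, ?_, ?_, ?_, ?_⟩
  · intro i hi; exact hx _ (by omega)
  · simpa using h1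
  · simpa using h0
  · intro i hi hi'; exact hb _ (by omega) (by omega)

/-- replace the first `b` -/
theorem repl0 {q : ℕ} {x : ℕ → α} {b : ℕ → β} (h : XPath E q x b) {y : β}
    (hy : E (x 0) y) (hne : ∀ i, 0 < i → i < q → b i ≠ y) :
    XPath E q x (fun t => if t = 0 then y else b t) := by
  refine ⟨fun i hi => ?_, fun i hi => ?_, h.injx, fun i hi j hj e => ?_⟩
  · by_cases h0 : i = 0
    · subst h0; simpa using hy
    · simp only [if_neg h0]; exact h.left i hi
  · simp only [if_neg (Nat.succ_ne_zero i)]; exact h.right i hi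
  · by_cases h1 : i = 0 <;> by_cases h2 : j = 0
    · omega
    · simp only [if_pos h1, if_neg h2] at e; exact absurd e.symm (hne j (by omega) hj)
    · simp only [if_neg h1, if_pos h2] at e; exact absurd e (hne i (by omega) hi)
    · simp only [if_neg h1, if_neg h2] at e; exact h.injb i hi j hj e

theorem img_eq {X' : Finset α} {x : ℕ → α} (hx : ∀ i < X'.card, x i ∈ X')
    (hinj : ∀ i < X'.card, ∀ j < X'.card, x i = x j → i = j) :
    (range X'.card).image x = X' := by
  apply Finset.eq_of_subset_of_card_le
  · intro z hz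
    simp only [mem_image, mem_range] at hz
    obtain ⟨i, hi, rfl⟩ := hz
    exact hx i hi
  · rw [Finset.card_image_of_injOn]
    · simp
    · intro i hi j hj e
      simp only [coe_range, Set.mem_Iio] at hi hj
      exact hinj i hi j hj e

theorem surj {X' : Finset α} {x : ℕ → α} (hx : ∀ i < X'.card, x i ∈ X')
    (hinj : ∀ i < X'.card, ∀ j < X'.card, x i = x j → i = j) :
    ∀ z ∈ X', ∃ i < X'.card, x i = z := by
  intro z hz
  rw [← img_eq hx hinj] at hz
  simpa only [mem_image, mem_range] using hz

theorem card_idx {X' : Finset α} {x : ℕ → α} (hx : ∀ i < X'.card, x i ∈ X')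
    (hinj : ∀ i < X'.card, ∀ j < X'.card, x i = x j → i = j) (P : α → Prop) :
    (X'.filter P).card = ((range X'.card).filter (fun i => P (x i))).card := by
  have h1 : X'.filter P = ((range X'.card).filter (fun i => P (x i))).image x := by
    ext z
    simp only [mem_filter, mem_image, mem_range]
    constructor
    · rintro ⟨hz, hP⟩
      obtain ⟨i, hi, rfl⟩ := surj hx hinj z hz
      exact ⟨i, ⟨hi, hP⟩, rfl⟩
    · rintro ⟨i, ⟨hi, hP⟩, rfl⟩
      exact ⟨hx i hi, hP⟩
  rw [h1, Finset.card_image_of_injOn]
  intro i hi j hj e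
  simp only [coe_filter, mem_range, Set.mem_ofPred_eq] at hi hj
  exact hinj i hi.1 j hj.1 e

/-- the key step: the neighbourhood of `y'` is determined -/
theorem key {X' : Finset α} {F : Finset β} {y y' e : β} {D : ℕ} (hD : X'.card + 1 = 2 * D)
    (hyy : y ≠ y') (hyF : y ∉ F) (hy'F : y' ∉ F) (heF : e ∈ F)
    (hde : D ≤ (X'.filter (fun z => E z e)).card)
    (hdy' : D ≤ (X'.filter (fun z => E z y')).card)
    {x : ℕ → α} {b : ℕ → β} (h : XPath E X'.card x b) (hx : ∀ i < X'.card, x i ∈ X')
    (hb0 : b 0 = y) (hb : ∀ i, 0 < i → i < X'.card → b i ∈ F)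
    (hee : E (x (X'.card - 1)) e) (hne : ∀ i, 0 < i → i < X'.card → b i ≠ e)
    (hno : ¬ FullPath E X' F y y') :
    (∀ j < X'.card, E (x j) y' ↔ (j = 0 ∨ ∃ i, j = i + 1 ∧ ¬ E (x i) e)) ∧
      (X'.filter (fun z => E z y')).card = D := by
  have hq1 : 1 ≤ X'.card := by omega
  have hbe : ∀ i < X'.card, b i ≠ e := by
    intro i hi
    by_cases h0 : i = 0
    · subst h0; rw [hb0]; rintro rfl; exact hyF heF
    · exact hne i (by omega) hi
  have hby' : ∀ i < X'.card, b i ≠ y' := by
    intro i hi
    by_cases h0 : i = 0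
    · subst h0; rw [hb0]; exact hyy
    · intro h1; exact hy'F (h1 ▸ hb i (by omega) hi)
  -- (A) `y' ≁ x (q-1)`
  have hA : ¬ E (x (X'.card - 1)) y' := by
    intro h1
    apply hno
    refine ⟨x, _, h.toY hq1 h1 hby', hx, ?_, ?_, ?_⟩
    · simp only [if_pos (show 0 < X'.card by omega)]; exact hb0
    · simp
    · intro i hi hi'; simp only [if_pos hi']; exact hb i hi hi'
  -- (B) no crossing
  have hY := h.toY hq1 hee hbe
  have hB : ∀ i, i + 1 < X'.card → E (x i) e → ¬ E (x (i + 1)) y' := by
    intro i hi h1 h2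
    apply hno
    have hr := hY.rot (i := i) (by omega) (by simpa using h1)
    have hr2 := hr.toX
    refine ⟨_, _, hr2.toY (f := y') hq1 ?_ ?_, ?_, ?_, ?_, ?_⟩
    · simp only [if_neg (show ¬ (X'.card - 1 ≤ i) by omega)]
      rwa [show X'.card + i - (X'.card - 1) = i + 1 by omega]
    · intro t ht
      by_cases h3 : t ≤ i
      · simp only [if_pos h3, if_pos ht]; exact hby' t ht
      · simp only [if_neg h3]
        split_ifs with h4
        · exact hby' _ h4
        · intro h5; rw [h5] at heF; exact hy'F heF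
    · intro t ht
      by_cases h3 : t ≤ i
      · simp only [if_pos h3]; exact hx t ht
      · simp only [if_neg h3]; exact hx _ (by omega)
    · simp only [if_pos (show 0 < X'.card by omega), if_pos (show 0 ≤ i by omega)]; exact hb0
    · simp
    · intro t ht ht'
      simp only [if_pos ht']
      by_cases h3 : t ≤ i
      · simp only [if_pos h3]; exact hb t ht ht'
      · simp only [if_neg h3]
        split_ifs with h4
        · exact hb _ (by omega) h4
        · exact heF
  -- counting
  have c1 := card_idx hx h.injx (fun z => E z y')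
  have c2 := card_idx hx h.injx (fun z => E z e)
  set I := (range X'.card).filter (fun i => E (x i) y') with hI
  set J := (range X'.card).filter (fun i => E (x i) e) with hJ
  set J' := (J.erase (X'.card - 1)).image (fun i => i + 1) with hJ'
  have cJ' : J'.card + 1 = J.card := by
    rw [hJ', Finset.card_image_of_injective _ (add_left_injective 1)]
    apply Finset.card_erase_add_one
    simp only [hJ, mem_filter, mem_range]
    exact ⟨by omega, hee⟩
  have memJ' : ∀ j, j ∈ J' ↔ ∃ i, i + 1 < X'.card ∧ j = i + 1 ∧ E (x i) e := by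
    intro j
    simp only [hJ', hJ, mem_image, mem_erase, mem_filter, mem_range]
    constructor
    · rintro ⟨i, ⟨h1, h2, h3⟩, rfl⟩
      exact ⟨i, by omega, rfl, h3⟩
    · rintro ⟨i, h1, rfl, h3⟩
      exact ⟨i, ⟨by omega, by omega, h3⟩, rfl⟩
  have hdis : Disjoint I J' := by
    rw [Finset.disjoint_left]
    intro j hj hj'
    obtain ⟨i, h1, rfl, h3⟩ := (memJ' j).1 hj'
    simp only [hI, mem_filter, mem_range] at hj
    exact hB i h1 h3 hj.2
  have hsub : I ∪ J' ⊆ range X'.card := by
    intro j hj
    rw [mem_union] at hj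
    rcases hj with hj | hj
    · exact (mem_filter.1 hj).1
    · obtain ⟨i, h1, rfl, h3⟩ := (memJ' j).1 hj
      exact mem_range.2 h1
  have hcard : (I ∪ J').card = I.card + J'.card := Finset.card_union_of_disjoint hdis
  have hle := Finset.card_le_card hsub
  rw [card_range] at hle
  have heq : I ∪ J' = range X'.card :=
    Finset.eq_of_subset_of_card_le hsub (by rw [card_range]; omega)
  refine ⟨fun j hj => ⟨fun h1 => ?_, fun h1 => ?_⟩, by omega⟩
  · by_cases h0 : j = 0
    · exact Or.inl h0
    · right
      refine ⟨j - 1, by omega, fun h2 => ?_⟩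
      have := hB (j - 1) (by omega) h2
      rw [show j - 1 + 1 = j by omega] at this
      exact this h1
  · have h2 : j ∈ I ∪ J' := by rw [heq]; exact mem_range.2 hj
    rw [mem_union] at h2
    rcases h2 with h2 | h2
    · exact (mem_filter.1 h2).2
    · exfalso
      obtain ⟨i, h3, rfl, h4⟩ := (memJ' j).1 h2
      rcases h1 with h1 | ⟨i', h5, h6⟩
      · omega
      · have : i = i' := by omega
        subst this; exact h6 h4

/-- cyclic shift of a closed path -/
theorem shift {q : ℕ} {x : ℕ → α} {b : ℕ → β} (h : XPath E q x b) (hc : E (x (q - 1)) (b 0))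
    {j : ℕ} (hj : j < q) :
    XPath E q (fun t => x (if j + t < q then j + t else j + t - q))
      (fun t => b (if j + t < q then j + t else j + t - q)) := by
  refine ⟨fun t ht => ?_, fun t ht => ?_, fun s hs t ht e => ?_, fun s hs t ht e => ?_⟩
  · exact h.left _ (by split_ifs <;> omega)
  · by_cases h1 : j + t + 1 < q
    · simp only [if_pos (show j + t < q by omega), if_pos (show j + (t + 1) < q by omega)]
      exact h.right _ (by omega)
    · by_cases h2 : j + t < q
      · simp only [if_pos h2, if_neg (show ¬ (j + (t + 1) < q) by omega)]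
        rw [show j + t = q - 1 by omega, show j + (t + 1) - q = 0 by omega]
        exact hc
      · simp only [if_neg h2, if_neg (show ¬ (j + (t + 1) < q) by omega)]
        have := h.right (j + t - q) (by omega)
        rwa [show j + t - q + 1 = j + (t + 1) - q by omega] at this
  · have := h.injx _ (by split_ifs <;> omega) _ (by split_ifs <;> omega) e
    split_ifs at this <;> omega
  · have := h.injb _ (by split_ifs <;> omega) _ (by split_ifs <;> omega) e
    split_ifs at this <;> omega

/-- no full cycle -/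
theorem nocyc {X' : Finset α} {F : Finset β} {y y' : β} {D : ℕ} (hD : X'.card + 1 = 2 * D)
    (hyy : y ≠ y') (hyF : y ∉ F) (hy'F : y' ∉ F)
    (hdy : D ≤ (X'.filter (fun z => E z y)).card)
    (hN : ∀ z ∈ X', E z y → E z y')
    {x : ℕ → α} {b : ℕ → β} (h : XPath E X'.card x b) (hx : ∀ i < X'.card, x i ∈ X')
    (hb : ∀ i < X'.card, b i ∈ F)
    (hno : ¬ FullPath E X' F y y') : ¬ E (x (X'.card - 1)) (b 0) := by
  intro hc
  have hq1 : 1 ≤ X'.card := by omega
  have c1 := card_idx hx h.injx (fun z => E z y)
  set I := (range X'.card).filter (fun i => E (x i) y) with hI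
  set s : ℕ → ℕ := fun i => if i + 1 < X'.card then i + 1 else 0 with hs
  have cI : (I.image s).card = I.card := by
    apply Finset.card_image_of_injOn
    intro i hi j hj e
    simp only [hI, coe_filter, mem_range, Set.mem_ofPred_eq] at hi hj
    simp only [hs] at e
    split_ifs at e <;> omega
  have hnd : ¬ Disjoint I (I.image s) := by
    intro hd
    have h1 := Finset.card_union_of_disjoint hd
    have h2 : (I ∪ I.image s) ⊆ range X'.card := by
      intro j hj
      rw [mem_union] at hj
      rcases hj with hj | hj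
      · exact (mem_filter.1 hj).1
      · obtain ⟨i, -, rfl⟩ := mem_image.1 hj
        simp only [hs, mem_range]
        split_ifs <;> omega
    have h3 := Finset.card_le_card h2
    rw [card_range] at h3
    omega
  rw [Finset.not_disjoint_iff] at hnd
  obtain ⟨j, hj1, hj2⟩ := hnd
  obtain ⟨i, hi, hij⟩ := mem_image.1 hj2
  simp only [hI, mem_filter, mem_range] at hj1 hi
  have hsh := shift h hc hj1.1
  have hr0 := repl0 hsh (y := y) (by simpa [hj1.1] using hj1.2) (by
    intro t ht ht' h1
    exact hyF (h1 ▸ hb _ (by split_ifs <;> omega)))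
  apply hno
  refine ⟨_, _, hr0.toY (f := y') hq1 ?_ ?_, ?_, ?_, ?_, ?_⟩
  · have h1 : (if j + (X'.card - 1) < X'.card then j + (X'.card - 1)
        else j + (X'.card - 1) - X'.card) = i := by
      simp only [hs] at hij
      split_ifs at hij ⊢ <;> omega
    simp only [h1]
    exact hN _ (hx i hi.1) hi.2
  · intro t ht
    by_cases h0 : t = 0
    · simp only [if_pos h0]; exact hyy
    · simp only [if_neg h0]
      intro h1
      exact hy'F (h1 ▸ hb _ (by split_ifs <;> omega))
  · intro t ht
    exact hx _ (by split_ifs <;> omega)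
  · simp only [if_pos (show 0 < X'.card by omega), if_true]
  · simp
  · intro t ht ht'
    simp only [if_pos ht', if_neg (show ¬ (t = 0) by omega)]
    exact hb _ (by split_ifs <;> omega)

end FB

open FB in
theorem fullB (h1 : S_fullB1) (h2 : S_blade) : S_fullB := by
  intro α β E X' F y y' D hD hyy hyF hy'F hF hy hy' hX
  by_cases hno : FullPath E X' F y y'
  · exact Or.inl hno
  right
  have hq1 : 1 ≤ X'.card := by omega
  -- `D ≥ 2`
  have hD2 : 2 ≤ D := by
    by_contra hlt
    have hc : X'.card = 1 := by omega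
    obtain ⟨z, hz⟩ := Finset.card_eq_one.1 hc
    subst hz
    have hDe : D = 1 := by omega
    subst hDe
    have a1 : E z y := by
      obtain ⟨w, hw⟩ := Finset.card_pos.1 (lt_of_lt_of_le one_pos hy)
      simp only [mem_filter, mem_singleton] at hw
      rw [← hw.1]; exact hw.2
    have a2 : E z y' := by
      obtain ⟨w, hw⟩ := Finset.card_pos.1 (lt_of_lt_of_le one_pos hy')
      simp only [mem_filter, mem_singleton] at hw
      rw [← hw.1]; exact hw.2
    apply hno
    refine ⟨fun _ => z, fun t => if t = 0 then y else y', ?_, ?_, ?_, ?_, ?_⟩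
    · rw [hc]
      refine ⟨fun i hi => ?_, fun i hi => ?_, fun i hi j hj _ => by omega, fun i hi j hj e => ?_⟩
      · have : i = 0 := by omega
        subst this; simpa using a1
      · have : i = 0 := by omega
        subst this; simpa using a2
      · by_cases h3 : i = 0 <;> by_cases h4 : j = 0
        · omega
        · simp only [if_pos h3, if_neg h4] at e; exact absurd e hyy
        · simp only [if_neg h3, if_pos h4] at e; exact absurd e.symm hyy
        · omega
    · intro i _; simp
    · simp
    · simp
    · intro i hi hi'; rw [hc] at hi'; omega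
  obtain ⟨x, b, hp, hx, hb0, hb⟩ := h1 α β E X' F y D hD hyF hF hy hX
  -- an unused neighbour `e` of `x (q-1)`
  set U : Finset β := (Ico 1 X'.card).image b with hU
  have hUc : U.card < X'.card := by
    refine lt_of_le_of_lt Finset.card_image_le ?_
    rw [Nat.card_Ico]; omega
  have unused : ∀ z ∈ X', ∃ e ∈ F, E z e ∧ ∀ i, 0 < i → i < X'.card → b i ≠ e := by
    intro z hz
    have h3 := hX z hz
    obtain ⟨e, he, heU⟩ := Finset.exists_mem_notMem_of_card_lt_card (lt_of_lt_of_le hUc h3)
    rw [mem_filter] at he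
    refine ⟨e, he.1, he.2, fun i hi hi' h4 => heU ?_⟩
    rw [hU, mem_image]
    exact ⟨i, by rw [mem_Ico]; omega, h4⟩
  obtain ⟨e, heF, hee, hne⟩ := unused (x (X'.card - 1)) (hx _ (by omega))
  obtain ⟨k1, k2⟩ := key hD hyy hyF hy'F heF (hF e heF) hy' hp hx hb0 hb hee hne hno
  -- the same with `y` and `y'` exchanged
  have hp' : XPath E X'.card x (fun t => if t = 0 then y' else b t) :=
    repl0 hp ((k1 0 (by omega)).2 (Or.inl rfl)) (by
      intro i hi hi' h3; exact hy'F (h3 ▸ hb i hi hi'))
  obtain ⟨k3, k4⟩ := key hD hyy.symm hy'F hyF heF (hF e heF) hy hp' hx (by simp)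
    (by intro i hi hi'; simp only [if_neg (show ¬ i = 0 by omega)]; exact hb i hi hi') hee
    (by intro i hi hi'; simp only [if_neg (show ¬ i = 0 by omega)]; exact hne i hi hi')
    (fun h3 => hno (full_rev h3))
  have hN : ∀ z ∈ X', E z y ↔ E z y' := by
    intro z hz
    obtain ⟨j, hj, rfl⟩ := surj hx hp.injx z hz
    rw [k1 j hj, k3 j hj]
  refine ⟨hD2, k4, hN, ?_⟩
  -- no full cycles
  have H2 : ∀ (x : ℕ → α) (b : ℕ → β), XPath E X'.card x b → (∀ i < X'.card, x i ∈ X') →
      (∀ i < X'.card, b i ∈ (F : Set β)) → ¬ E (x (X'.card - 1)) (b 0) := by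
    intro x b hp hx hb
    exact nocyc hD hyy hyF hy'F hy (fun z hz => (hN z hz).1) hp hx (fun i hi => by
      simpa using hb i hi) hno
  obtain ⟨y0, hy0F, hy0e, hy0n⟩ := unused (x 0) (hx _ (by omega))
  have hp0 : XPath E X'.card x (fun t => if t = 0 then y0 else b t) := repl0 hp hy0e hy0n
  have hy0b : ∀ i < X'.card, (fun t => if t = 0 then y0 else b t) i ∈ (F : Set β) := by
    intro i hi
    by_cases h0 : i = 0
    · simp only [if_pos h0]; exact hy0F
    · simp only [if_neg h0]; exact hb i (by omega) hi
  have hne0 : y0 ≠ e := by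
    rintro rfl
    exact H2 _ _ hp0 hx hy0b (by simpa using hee)
  have hY0 := hp0.toY hq1 hee (by
    intro i hi
    by_cases h0 : i = 0
    · simp only [if_pos h0]; exact hne0
    · simp only [if_neg h0]; exact hne i (by omega) hi)
  obtain ⟨-, -, hbl⟩ := h2 α β E X' (F : Set β) D X'.card hD rfl
    (fun x b _ _ hb' => hF _ (by simpa using hb' 0 (by omega))) H2 _ _ hY0 hx
    (by
      intro i hi
      by_cases h3 : i < X'.card
      · simp only [if_pos h3]; exact hy0b i h3
      · simp only [if_neg h3]; exact heF)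
  have hbl2 := h2 α β E X' (F : Set β) D X'.card hD rfl
    (fun x b _ _ hb' => hF _ (by simpa using hb' 0 (by omega))) H2 _ _ hY0 hx
    (by
      intro i hi
      by_cases h3 : i < X'.card
      · simp only [if_pos h3]; exact hy0b i h3
      · simp only [if_neg h3]; exact heF)
  obtain ⟨-, hbl3, -⟩ := hbl2
  refine le_trans (hX (x 0) (hx 0 (by omega))) (Finset.card_le_card ?_)
  intro f hf
  rw [mem_filter] at hf ⊢
  refine ⟨hf.1, fun z hz => ?_⟩
  obtain ⟨-, h3⟩ := hbl f (by simpa using hf.1) hf.2
  rw [h3 z hz, hbl3 z hz]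
  obtain ⟨j, hj, rfl⟩ := surj hx hp.injx z hz
  rw [k3 j hj]
  simp only [lt_irrefl, if_false]
  constructor
  · rintro (h4 | ⟨i, h4, h5, h6⟩)
    · left; exact hp.injx _ hj _ (by omega) h4
    · right; exact ⟨i, hp.injx _ hj _ h4 h5, h6⟩
  · rintro (h4 | ⟨i, h4, h6⟩)
    · left; rw [h4]
    · right; exact ⟨i, by omega, by rw [h4], h6⟩

end Pool.Agent.H46.GR
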