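import Pool.Agent.H46.GR.Stmts

namespace Pool.Agent.H46.GR

open Finset
open scoped Classical

theorem edg_erase_left {α β : Type} (E : α → β → Prop) {X : Finset α} (Y : Finset β) {u : α}
    (hu : u ∈ X) : edg E X Y = edg E (X.erase u) Y + (Y.filter (fun y => E u y)).card := by
  unfold edg
  rw [← Finset.sum_erase_add X _ hu]

theorem edg_comm {α β : Type} (E : α → β → Prop) (X : Finset α) (Y : Finset β) :
    edg E X Y = ∑ y ∈ Y, (X.filter (fun x => E x y)).card := by
  unfold edg
  simp only [Finset.card_filter]
  exact Finset.sum_comm

theorem edg_erase_right {α β : Type} (E : α → β → Prop) (X : Finset α) {Y : Finset β} {v : β}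
    (hv : v ∈ Y) : edg E X Y = edg E X (Y.erase v) + (X.filter (fun x => E x v)).card := by
  rw [edg_comm, edg_comm, ← Finset.sum_erase_add Y _ hv]

theorem peel : S_peel := by
  intro α β E k D
  have key : ∀ (N : ℕ) (X : Finset α) (Y : Finset β), X.card + Y.card = N → 1 ≤ D → k ≤ Y.card →
      (edg E X Y ≤ k * X.card + (D - 1) * (Y.card - k)) ∨
      ∃ X' ⊆ X, ∃ Y' ⊆ Y, X'.Nonempty ∧ k + 1 ≤ Y'.card ∧
        (∀ v ∈ Y', D ≤ (X'.filter (fun u => E u v)).card) ∧
        (∀ u ∈ X', k + 1 ≤ (Y'.filter (fun v => E u v)).card) ∧
        edg E X Y ≤ edg E X' Y' + k * (X.card - X'.card) + (D - 1) * (Y.card - Y'.card) := by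
    intro N
    induction N using Nat.strong_induction_on with
    | _ N ih =>
      intro X Y hN hD hk
      by_cases hYk : Y.card = k
      · left
        have h1 : edg E X Y ≤ ∑ x ∈ X, k := by
          unfold edg
          apply Finset.sum_le_sum
          intro x _
          rw [← hYk]
          exact Finset.card_filter_le _ _
        rw [Finset.sum_const, smul_eq_mul, mul_comm] at h1
        exact le_trans h1 (Nat.le_add_right _ _)
      · have hYk' : k < Y.card := lt_of_le_of_ne hk (Ne.symm hYk)
        by_cases hx : ∃ x ∈ X, (Y.filter (fun y => E x y)).card ≤ k
        · obtain ⟨x, hxX, hxd⟩ := hx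
          have hc : (X.erase x).card + 1 = X.card := Finset.card_erase_add_one hxX
          have he := edg_erase_left E Y hxX
          rcases ih ((X.erase x).card + Y.card) (by omega) (X.erase x) Y rfl hD hk with h | h
          · left
            have h2 : k * X.card = k * (X.erase x).card + k := by rw [← hc]; ring
            rw [he, h2]
            linarith
          · right
            obtain ⟨X', hX', Y', hY', hne, hcY, hdv, hdu, hle⟩ := h
            refine ⟨X', hX'.trans (Finset.erase_subset _ _), Y', hY', hne, hcY, hdv, hdu, ?_⟩
            have h3 : X'.card ≤ (X.erase x).card := Finset.card_le_card hX'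
            have h4 : X.card - X'.card = ((X.erase x).card - X'.card) + 1 := by omega
            have h5 : k * (X.card - X'.card) = k * ((X.erase x).card - X'.card) + k := by
              rw [h4]; ring
            rw [he, h5]
            linarith
        · by_cases hy : ∃ y ∈ Y, (X.filter (fun x => E x y)).card ≤ D - 1
          · obtain ⟨y, hyY, hyd⟩ := hy
            have hc : (Y.erase y).card + 1 = Y.card := Finset.card_erase_add_one hyY
            have he := edg_erase_right E X hyY
            rcases ih (X.card + (Y.erase y).card) (by omega) X (Y.erase y) rfl hD (by omega)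
              with h | h
            · left
              have h2 : Y.card - k = ((Y.erase y).card - k) + 1 := by omega
              have h3 : (D - 1) * (Y.card - k) = (D - 1) * ((Y.erase y).card - k) + (D - 1) := by
                rw [h2]; ring
              rw [he, h3]
              linarith
            · right
              obtain ⟨X', hX', Y', hY', hne, hcY, hdv, hdu, hle⟩ := h
              refine ⟨X', hX', Y', hY'.trans (Finset.erase_subset _ _), hne, hcY, hdv, hdu, ?_⟩
              have h3 : Y'.card ≤ (Y.erase y).card := Finset.card_le_card hY'
              have h4 : Y.card - Y'.card = ((Y.erase y).card - Y'.card) + 1 := by omega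
              have h5 : (D - 1) * (Y.card - Y'.card)
                  = (D - 1) * ((Y.erase y).card - Y'.card) + (D - 1) := by
                rw [h4]; ring
              rw [he, h5]
              linarith
          · by_cases hX : X.Nonempty
            · right
              refine ⟨X, Finset.Subset.refl _, Y, Finset.Subset.refl _, hX, hYk', ?_, ?_, ?_⟩
              · intro v hv
                by_contra hcon
                exact hy ⟨v, hv, by omega⟩
              · intro u hu
                by_contra hcon
                exact hx ⟨u, hu, by omega⟩
              · simp
            · left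
              rw [Finset.not_nonempty_iff_eq_empty] at hX
              subst hX
              simp [edg]
  intro X Y hD hk
  exact key _ X Y rfl hD hk

end Pool.Agent.H46.GR
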