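import Pool.Agent.H46.GR.Stmts

namespace Pool.Agent.H46.GR

open Finset
open scoped Classical

namespace ShortL

variable {α β : Type}

/-- walk from `y` to `y'` as a list of pairs (x-vertex, next b-vertex) -/
def W (E : α → β → Prop) : β → β → List (α × β) → Prop
  | y, y', [] => y = y'
  | y, y', (q :: L) => E q.1 y ∧ E q.1 q.2 ∧ W E q.2 y' L

theorem W_append {E : α → β → Prop} {y y' : β} {L1 L2 : List (α × β)} :
    W E y y' (L1 ++ L2) ↔ ∃ m, W E y m L1 ∧ W E m y' L2 := by
  induction L1 generalizing y with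
  | nil => simp [W]
  | cons q L ih =>
    simp only [List.cons_append, W, ih]
    constructor
    · rintro ⟨h1, h2, m, h3, h4⟩; exact ⟨m, ⟨h1, h2, h3⟩, h4⟩
    · rintro ⟨m, ⟨h1, h2, h3⟩, h4⟩; exact ⟨h1, h2, m, h3, h4⟩

theorem W_mem {E : α → β → Prop} {y m : β} {L : List (α × β)} (h : W E y m L) :
    m ∈ y :: L.map Prod.snd := by
  induction L generalizing y with
  | nil => simp [W] at h; simp [h]
  | cons q L ih =>
    have := ih h.2.2
    simp only [List.map_cons, List.mem_cons] at this ⊢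
    tauto

structure Pth (E : α → β → Prop) (X : Finset α) (Y : Finset β) (y y' : β)
    (L : List (α × β)) : Prop where
  w : W E y y' L
  nx : (L.map Prod.fst).Nodup
  ny : (y :: L.map Prod.snd).Nodup
  mem : ∀ q ∈ L, q.1 ∈ X ∧ q.2 ∈ Y

/-- number of P-vertices -/
noncomputable def cnt (P : α → Prop) (L : List (α × β)) : ℕ :=
  (L.map Prod.fst).countP (fun a => decide (P a))

theorem W_get {E : α → β → Prop} {y y' : β} {L : List (α × β)} (h : W E y y' L) :
    (∀ i (hi : i < L.length), E (L[i].1) ((y :: L.map Prod.snd)[i]'(by simp; omega)) ∧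
      E (L[i].1) (L[i].2)) ∧ (y :: L.map Prod.snd)[L.length]'(by simp) = y' := by
  induction L generalizing y with
  | nil => simpa [W] using h
  | cons q L ih =>
    obtain ⟨h1, h2, h3⟩ := h
    obtain ⟨ih1, ih2⟩ := ih h3
    refine ⟨fun i hi => ?_, ?_⟩
    · cases i with
      | zero => exact ⟨h1, h2⟩
      | succ i =>
        have := ih1 i (by simpa using hi)
        simpa using this
    · simpa using ih2

theorem conv {E : α → β → Prop} {X : Finset α} {Y : Finset β} {P : α → Prop} {y y' : β}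
    {L : List (α × β)} (a0 : α) (hy : y ∈ Y) (h : Pth E X Y y y' L) :
    ∃ (x : ℕ → α) (b : ℕ → β), YPath E L.length x b ∧ (∀ i < L.length, x i ∈ X) ∧
      (∀ i ≤ L.length, b i ∈ Y) ∧ b 0 = y ∧ b L.length = y' ∧
      ((range L.length).filter (fun i => P (x i))).card = cnt P L := by
  have hw := W_get h.w
  set xs := L.map Prod.fst with hxs
  set bs := y :: L.map Prod.snd with hbs
  have lx : xs.length = L.length := by simp [hxs]
  have lb : bs.length = L.length + 1 := by simp [hbs]
  refine ⟨fun i => xs.getD i a0, fun i => bs.getD i y, ⟨?_, ?_, ?_, ?_⟩, ?_, ?_, ?_, ?_, ?_⟩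
  · intro i hi
    have := (hw.1 i hi).1
    rw [List.getD_eq_getElem _ _ (by omega), List.getD_eq_getElem _ _ (by omega)]
    simpa [hxs] using this
  · intro i hi
    have := (hw.1 i hi).2
    rw [List.getD_eq_getElem _ _ (by omega), List.getD_eq_getElem _ _ (by omega)]
    simpa [hxs, hbs] using this
  · intro i hi j hj e
    beta_reduce at e
    rw [List.getD_eq_getElem _ _ (by omega), List.getD_eq_getElem _ _ (by omega)] at e
    exact (List.Nodup.getElem_inj_iff h.nx).1 e
  · intro i hi j hj e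
    beta_reduce at e
    rw [List.getD_eq_getElem _ _ (by omega), List.getD_eq_getElem _ _ (by omega)] at e
    exact (List.Nodup.getElem_inj_iff h.ny).1 e
  · intro i hi
    simp only []
    rw [List.getD_eq_getElem _ _ (by omega)]
    have := (h.mem (L[i]) (List.getElem_mem hi)).1
    simpa [hxs] using this
  · intro i hi
    simp only []
    rw [List.getD_eq_getElem _ _ (by omega)]
    cases i with
    | zero => simpa [hbs] using hy
    | succ i =>
      have := (h.mem (L[i]) (List.getElem_mem (by omega))).2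
      simpa [hbs] using this
  · simp [hbs]
  · simp only []
    rw [List.getD_eq_getElem _ _ (by omega)]
    exact hw.2
  · have e1 : List.map (fun i => xs.getD i a0) (List.range L.length) = xs := by
      apply List.ext_getElem
      · simp [lx]
      · intro n h1 h2
        simp
        rw [List.getElem?_eq_getElem h2]; simp
    have e2 : ((range L.length).filter (fun i => P (xs.getD i a0))).card =
        (List.range L.length).countP (fun i => decide (P (xs.getD i a0))) := by
      rw [List.countP_eq_length_filter]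
      rfl
    simp only []
    rw [e2, cnt, ← hxs]
    conv_rhs => rw [← e1]
    rw [List.countP_map]
    rfl

/-- counting lemma -/
theorem count_le (f g : α → Prop) (xs : List α)
    (h : ∀ L1 a b L2, xs = L1 ++ a :: b :: L2 → ¬ (f a ∧ g b)) :
    xs.countP (fun a => decide (f a)) + xs.countP (fun a => decide (g a)) ≤
      xs.length + (if ∃ a t, xs = a :: t ∧ g a then 1 else 0) := by
  induction xs with
  | nil => simp
  | cons a t ih =>
    have ih := ih (fun L1 a' b L2 e => h (a :: L1) a' b L2 (by simp [e]))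
    have e1 : (∃ a_1 t_1, a :: t = a_1 :: t_1 ∧ g a_1) ↔ g a := by
      constructor
      · rintro ⟨a', t', e, hg⟩
        simp at e; rw [e.1]; exact hg
      · intro hg; exact ⟨a, t, rfl, hg⟩
    rw [List.countP_cons, List.countP_cons]
    simp only [e1, List.length_cons]
    by_cases ha : f a
    · have e2 : ¬ (∃ a t_1, t = a :: t_1 ∧ g a) := by
        rintro ⟨a', t', e, hg⟩
        exact h [] a a' t' (by simp [e]) ⟨ha, hg⟩
      rw [if_neg e2] at ih
      by_cases hg : g a <;> simp [ha, hg] <;> omega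
    · by_cases hg : g a <;> simp [ha, hg] <;> split_ifs at ih <;> omega

theorem cnt_append (P : α → Prop) (L1 L2 : List (α × β)) :
    cnt P (L1 ++ L2) = cnt P L1 + cnt P L2 := by
  simp [cnt]

theorem cnt_cons (P : α → Prop) (q : α × β) (L : List (α × β)) :
    cnt P (q :: L) = cnt P L + if P q.1 then 1 else 0 := by
  simp [cnt, List.countP_cons]


section main

variable {E : α → β → Prop} {X : Finset α} {Y : Finset β} {P : α → Prop} {y y' : β} {p : ℕ}

/-- there is an element of `s` outside a list of smaller length -/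
theorem exists_new {γ : Type} (s : Finset γ) (l : List γ) (h : l.length < s.card) :
    ∃ a ∈ s, a ∉ l := by
  by_contra hc
  push Not at hc
  have : s ⊆ l.toFinset := fun a ha => List.mem_toFinset.2 (hc a ha)
  have := (Finset.card_le_card this).trans (List.toFinset_card_le l)
  omega

theorem start (hp : 2 ≤ p) (hy : y ∈ Y) (hy' : y' ∈ Y) (hne : y ≠ y')
    (hcod : ∀ u ∈ Y, ∀ v ∈ Y, u ≠ v → p ≤ (X.filter (fun z => E z u ∧ E z v)).card)
    (h1 : p ≤ (X.filter (fun z => P z ∧ E z y)).card)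
    (h2 : p ≤ (X.filter (fun z => P z ∧ E z y')).card)
    (hd : ∀ z ∈ X, 2 * p + 1 ≤ (Y.filter (fun f => E z f)).card) :
    ∃ L, Pth E X Y y y' L ∧ 2 ≤ cnt P L ∧ L.length + 1 ≤ 2 * 2 := by
  obtain ⟨c, hc, -⟩ := exists_new (X.filter (fun z => P z ∧ E z y)) ([] : List α)
    (by rw [List.length_nil]; omega)
  obtain ⟨c', hc', hcc⟩ := exists_new (X.filter (fun z => P z ∧ E z y')) [c] (by simp only [List.length_cons, List.length_nil]; omega)
  simp only [Finset.mem_filter, List.mem_singleton] at hc hc' hcc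
  obtain ⟨g, hg, hg'⟩ := exists_new (Y.filter (fun f => E c f)) [y, y'] (by have := hd c hc.1; simp; omega)
  obtain ⟨g', hg2, hg2'⟩ := exists_new (Y.filter (fun f => E c' f)) [y, y', g] (by have := hd c' hc'.1; simp; omega)
  simp only [Finset.mem_filter, List.mem_cons, List.not_mem_nil, or_false, not_or] at hg hg' hg2 hg2'
  by_cases hz : ∃ z ∈ X, E z g ∧ E z g' ∧ z ≠ c ∧ z ≠ c'
  · obtain ⟨z, hz, h3, h4, h5, h6⟩ := hz
    refine ⟨[(c, g), (z, g'), (c', y')], ⟨?_, ?_, ?_, ?_⟩, ?_, ?_⟩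
    · simp only [W]; exact ⟨hc.2.2, hg.2, h3, h4, hg2.2, hc'.2.2, trivial⟩
    · simp; grind
    · simp; grind
    · simp; grind
    · simp only [cnt_cons]; simp only [hc.2.1, hc'.2.1, if_true]; omega
    · simp
  · push Not at hz
    have hsub : X.filter (fun z => E z g ∧ E z g') ⊆ {c, c'} := by
      intro z hz'
      simp only [Finset.mem_filter] at hz'
      simp only [Finset.mem_insert, Finset.mem_singleton]
      by_cases h : z = c
      · left; exact h
      · right; exact hz z hz'.1 hz'.2.1 hz'.2.2 h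
    have hcard := hcod g hg.1 g' hg2.1 (Ne.symm hg2'.2.2)
    have heq := Finset.eq_of_subset_of_card_le hsub (by
      have : ({c, c'} : Finset α).card ≤ 2 := Finset.card_le_two
      omega)
    have : c' ∈ X.filter (fun z => E z g ∧ E z g') := by rw [heq]; simp
    simp only [Finset.mem_filter] at this
    refine ⟨[(c, g), (c', y')], ⟨?_, ?_, ?_, ?_⟩, ?_, ?_⟩
    · simp only [W]; exact ⟨hc.2.2, hg.2, this.2.1, hc'.2.2, trivial⟩
    · simp; grind
    · simp; grind
    · simp; grind
    · simp only [cnt_cons]; simp [hc.2.1, hc'.2.1]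
    · simp

theorem nd1 {γ : Type} (A B M : List γ) (q c : γ) (h : (A ++ q :: B).Nodup) (hM : (M ++ [c]).Nodup)
    (hd : ∀ a ∈ M ++ [c], a ∉ A ++ q :: B) : (A ++ (M ++ c :: B)).Nodup := by
  simp only [List.nodup_append', List.nodup_cons, List.mem_append, List.mem_cons, List.disjoint_cons_right, List.disjoint_append_right, List.disjoint_append_left, List.disjoint_cons_left, List.disjoint_nil_right, List.disjoint_nil_left, not_or] at *
  obtain ⟨h1, ⟨h2, h3⟩, h4, h5⟩ := h
  obtain ⟨h6, -, h7, -⟩ := hM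
  refine ⟨h1, ⟨h6, ⟨(hd c (by simp)).2.2, h3⟩, h7, ?_⟩, ?_, (hd c (by simp)).1, h5⟩
  · intro a ha hb
    exact (hd a (Or.inl ha)).2.2 hb
  · intro a ha hb
    exact (hd a (Or.inl hb)).1 ha

theorem nd2 {γ : Type} (A B M : List γ) (q y : γ) (h : (y :: (A ++ q :: B)).Nodup) (hM : M.Nodup)
    (hd : ∀ a ∈ M, a ∉ y :: (A ++ q :: B)) : (y :: (A ++ (M ++ q :: B))).Nodup := by
  simp only [List.nodup_append', List.nodup_cons, List.mem_append, List.mem_cons, List.disjoint_cons_right, List.disjoint_append_right, List.disjoint_append_left, List.disjoint_cons_left, List.disjoint_nil_right, List.disjoint_nil_left, not_or] at *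
  obtain ⟨⟨y1, y2, y3⟩, h1, ⟨h2, h3⟩, h4, h5⟩ := h
  refine ⟨⟨y1, fun h => (hd y h).1 rfl, y2, y3⟩, h1, ⟨hM, ⟨h2, h3⟩, fun h => (hd q h).2.2.1 rfl, ?_⟩, ?_, h4, h5⟩
  · intro a ha hb
    exact (hd a ha).2.2.2 hb
  · intro a ha hb
    exact (hd a hb).2.1 ha

theorem repl {L1 L2 : List (α × β)} {q : α × β} (hL : Pth E X Y y y' (L1 ++ q :: L2))
    (M : List (α × β)) (c : α) (hW : ∀ m, W E y m L1 → W E m q.2 (M ++ [(c, q.2)]))
    (hx : (M.map Prod.fst ++ [c]).Nodup)
    (hx' : ∀ a ∈ M.map Prod.fst ++ [c], a ∉ (L1 ++ q :: L2).map Prod.fst)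
    (hb : (M.map Prod.snd).Nodup)
    (hb' : ∀ f ∈ M.map Prod.snd, f ∉ y :: (L1 ++ q :: L2).map Prod.snd)
    (hmem : ∀ r ∈ M, r.1 ∈ X ∧ r.2 ∈ Y) (hc : c ∈ X) :
    Pth E X Y y y' (L1 ++ (M ++ (c, q.2) :: L2)) := by
  obtain ⟨w, nx, ny, mem⟩ := hL
  obtain ⟨m, w1, w2⟩ := W_append.1 w
  refine ⟨?_, ?_, ?_, ?_⟩
  · refine W_append.2 ⟨m, w1, ?_⟩
    rw [show M ++ (c, q.2) :: L2 = (M ++ [(c, q.2)]) ++ L2 by simp]
    exact W_append.2 ⟨q.2, hW m w1, w2.2.2⟩
  · simp only [List.map_append, List.map_cons] at *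
    exact nd1 _ _ _ _ _ nx hx hx'
  · simp only [List.map_append, List.map_cons] at *
    exact nd2 _ _ _ _ _ ny hb hb'
  · intro r hr
    simp only [List.mem_append, List.mem_cons] at hr
    rcases hr with hr | hr | hr | hr
    · exact mem r (by simp [hr])
    · exact hmem r hr
    · subst hr
      exact ⟨hc, (mem q (by simp)).2⟩
    · exact mem r (by simp [hr])

theorem prep {L : List (α × β)} (hL : Pth E X Y y y' L) (hne : y ≠ y')
    (M : List (α × β)) (g : β) (hW : W E y g M)
    (hg : ∀ q L', L = q :: L' → E q.1 g)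
    (hx : (M.map Prod.fst).Nodup)
    (hx' : ∀ a ∈ M.map Prod.fst, a ∉ L.map Prod.fst)
    (hb : (M.map Prod.snd).Nodup)
    (hb' : ∀ f ∈ M.map Prod.snd, f ∉ y :: L.map Prod.snd)
    (hmem : ∀ r ∈ M, r.1 ∈ X ∧ r.2 ∈ Y) :
    Pth E X Y y y' (M ++ L) := by
  obtain ⟨w, nx, ny, mem⟩ := hL
  cases L with
  | nil => exact absurd w hne
  | cons q L' =>
    refine ⟨?_, ?_, ?_, ?_⟩
    · exact W_append.2 ⟨g, hW, hg q L' rfl, w.2.1, w.2.2⟩
    · simp only [List.map_append, List.map_cons] at *
      grind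
    · simp only [List.map_append, List.map_cons] at *
      grind
    · intro r hr
      rcases List.mem_append.1 hr with hr | hr
      · exact hmem r hr
      · exact mem r hr

theorem insB {L1 L2 : List (α × β)} {q q' : α × β} {v : α} {f f' : β}
    (hL : Pth E X Y y y' (L1 ++ q :: q' :: L2))
    (hv : v ∈ X) (hvL : v ∉ (L1 ++ q :: q' :: L2).map Prod.fst)
    (hf : f ∈ Y) (hf' : f' ∈ Y) (h1 : E v f) (h2 : E v f') (hne : f ≠ f')
    (hn : f ∉ y :: (L1 ++ q :: q' :: L2).map Prod.snd)
    (hn' : f' ∉ y :: (L1 ++ q :: q' :: L2).map Prod.snd)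
    (h3 : E q.1 f) (h4 : E q'.1 f') :
    Pth E X Y y y' (L1 ++ ((q.1, f) :: (v, f') :: q' :: L2)) := by
  obtain ⟨w, nx, ny, mem⟩ := hL
  obtain ⟨m, w1, w2⟩ := W_append.1 w
  refine ⟨?_, ?_, ?_, ?_⟩
  · refine W_append.2 ⟨m, w1, w2.1, h3, h1, h2, h4, w2.2.2.2.1, w2.2.2.2.2⟩
  · simp only [List.map_append, List.map_cons] at *
    grind
  · simp only [List.map_append, List.map_cons] at *
    grind
  · intro r hr
    simp only [List.mem_append, List.mem_cons] at hr
    rcases hr with hr | hr | hr | hr | hr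
    · exact mem r (by simp [hr])
    · subst hr; exact ⟨(mem q (by simp)).1, hf⟩
    · subst hr; exact ⟨hv, hf'⟩
    · exact mem r (by simp [hr])
    · exact mem r (by simp [hr])

/-- among three ports two have few neighbours on the path -/
theorem two_ports (xs : List α) (f1 f2 f3 : β) (j : ℕ) (hlen : xs.length + 1 ≤ 2 * j)
    (h12 : xs.countP (fun a => decide (E a f1)) + xs.countP (fun a => decide (E a f2)) ≤ xs.length)
    (h13 : xs.countP (fun a => decide (E a f1)) + xs.countP (fun a => decide (E a f3)) ≤ xs.length)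
    (h23 : xs.countP (fun a => decide (E a f2)) + xs.countP (fun a => decide (E a f3)) ≤ xs.length) :
    ∃ f f', ((f = f1 ∧ f' = f2) ∨ (f = f1 ∧ f' = f3) ∨ (f = f2 ∧ f' = f3)) ∧
      xs.countP (fun a => decide (E a f)) + 1 ≤ j ∧ xs.countP (fun a => decide (E a f')) + 1 ≤ j := by
  by_cases h1 : xs.countP (fun a => decide (E a f1)) + 1 ≤ j
  · by_cases h2 : xs.countP (fun a => decide (E a f2)) + 1 ≤ j
    · exact ⟨f1, f2, by simp, h1, h2⟩
    · exact ⟨f1, f3, by simp, h1, by omega⟩
  · exact ⟨f2, f3, by simp, by omega, by omega⟩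

theorem step (hp : 2 ≤ p) (hy : y ∈ Y) (hy' : y' ∈ Y) (hne : y ≠ y')
    (hcod : ∀ u ∈ Y, ∀ v ∈ Y, u ≠ v → p ≤ (X.filter (fun z => E z u ∧ E z v)).card)
    (h1 : p ≤ (X.filter (fun z => P z ∧ E z y)).card)
    (hd : ∀ z ∈ X, 2 * p + 1 ≤ (Y.filter (fun f => E z f)).card) (j : ℕ) (hj : j < p)
    (L : List (α × β)) (hL : Pth E X Y y y' L) (hcnt : j ≤ cnt P L) (hlen : L.length + 1 ≤ 2 * j) :
    ∃ L, Pth E X Y y y' L ∧ j + 1 ≤ cnt P L ∧ L.length + 1 ≤ 2 * (j + 1) := by
  by_cases hcl : j + 1 ≤ cnt P L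
  · exact ⟨L, hL, hcl, by omega⟩
  have hcj : cnt P L = j := by omega
  -- the vertex v
  obtain ⟨v, hv, hvn⟩ := exists_new (X.filter (fun z => P z ∧ E z y))
    ((L.map Prod.fst).filter (fun a => decide (P a)))
    (by rw [← List.countP_eq_length_filter]; unfold cnt at hcj; omega)
  simp only [Finset.mem_filter] at hv
  have hvL : v ∉ L.map Prod.fst := by
    intro h; exact hvn (by simp only [List.mem_filter]; exact ⟨h, by simp [hv.2.1]⟩)
  have ports : ∃ f1 f2 f3, (f1 ≠ f2 ∧ f1 ≠ f3 ∧ f2 ≠ f3) ∧ ∀ f, f = f1 ∨ f = f2 ∨ f = f3 →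
      f ∈ Y ∧ E v f ∧ f ∉ y :: L.map Prod.snd := by
    obtain ⟨f1, hf1, hf1n⟩ := exists_new (Y.filter (fun f => E v f)) (y :: L.map Prod.snd)
      (by have := hd v hv.1; simp only [List.length_cons, List.length_map]; omega)
    obtain ⟨f2, hf2, hf2n⟩ := exists_new (Y.filter (fun f => E v f)) (f1 :: y :: L.map Prod.snd)
      (by have := hd v hv.1; simp only [List.length_cons, List.length_map]; omega)
    obtain ⟨f3, hf3, hf3n⟩ := exists_new (Y.filter (fun f => E v f)) (f2 :: f1 :: y :: L.map Prod.snd)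
      (by have := hd v hv.1; simp only [List.length_cons, List.length_map]; omega)
    simp only [Finset.mem_filter] at hf1 hf2 hf3
    refine ⟨f1, f2, f3, ⟨?_, ?_, ?_⟩, ?_⟩
    · rintro rfl; exact hf2n (by simp)
    · rintro rfl; exact hf3n (by simp)
    · rintro rfl; exact hf3n (by simp)
    · rintro f (rfl | rfl | rfl)
      · exact ⟨hf1.1, hf1.2, hf1n⟩
      · exact ⟨hf2.1, hf2.2, fun h => hf2n (List.mem_cons_of_mem _ h)⟩
      · exact ⟨hf3.1, hf3.2, fun h => hf3n (List.mem_cons_of_mem _ (List.mem_cons_of_mem _ h))⟩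
  obtain ⟨f1, f2, f3, hfd, hf⟩ := ports
  -- case A
  by_cases hA : ∃ f, (f = f1 ∨ f = f2 ∨ f = f3) ∧ ∀ q L', L = q :: L' → E q.1 f
  · obtain ⟨f, hff, hq⟩ := hA
    obtain ⟨hfY, hvf, hfn⟩ := hf f hff
    refine ⟨[(v, f)] ++ L, prep hL hne [(v, f)] f ⟨hv.2.2, hvf, rfl⟩ hq (by simp) ?_ (by simp) ?_ ?_,
      ?_, ?_⟩
    · intro a ha; simp at ha; subst ha; exact hvL
    · intro a ha; simp at ha; subst ha; exact hfn
    · intro a ha; simp at ha; subst ha; exact ⟨hv.1, hfY⟩
    · rw [cnt_append, cnt_cons]; simp only [hv.2.1, if_true]; omega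
    · simp only [List.length_append, List.length_cons, List.length_nil]; omega
  -- L is nonempty
  obtain ⟨q0, L0, hL0⟩ : ∃ q0 L0, L = q0 :: L0 := by
    cases L with
    | nil => exact absurd hL.w hne
    | cons q L => exact ⟨q, L, rfl⟩
  have hA' : ∀ f, (f = f1 ∨ f = f2 ∨ f = f3) → ¬ E q0.1 f := by
    intro f hff hE
    refine hA ⟨f, hff, ?_⟩
    intro q L' e
    rw [hL0] at e
    simp only [List.cons.injEq] at e
    rw [← e.1]; exact hE
  -- case B
  by_cases hB : ∃ f f', (f = f1 ∨ f = f2 ∨ f = f3) ∧ (f' = f1 ∨ f' = f2 ∨ f' = f3) ∧ f ≠ f' ∧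
      ∃ L1 q q' L2, L = L1 ++ q :: q' :: L2 ∧ E q.1 f ∧ E q'.1 f'
  · obtain ⟨f, f', hff, hff', hne', L1, q, q', L2, e, h3, h4⟩ := hB
    obtain ⟨hfY, hvf, hfn⟩ := hf f hff
    obtain ⟨hfY', hvf', hfn'⟩ := hf f' hff'
    subst e
    refine ⟨_, insB hL hv.1 hvL hfY hfY' hvf hvf' hne' hfn hfn' h3 h4, ?_, ?_⟩
    · simp only [cnt_append, cnt_cons] at hcnt ⊢
      simp only [hv.2.1, if_true]; omega
    · simp only [List.length_append, List.length_cons] at hlen ⊢; omega
  -- case C
  by_cases hC : ∀ a ∈ L.map Prod.fst, P a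
  · have hlj : L.length = j := by
      rw [← hcj, cnt, List.countP_eq_length.2 (by simpa using hC), List.length_map]
    obtain ⟨hfY, hvf, hfn⟩ := hf f1 (by simp)
    obtain ⟨g, hg, hgn⟩ := exists_new (Y.filter (fun f => E q0.1 f)) (f1 :: y :: L.map Prod.snd)
      (by have := hd q0.1 (hL.mem q0 (by simp [hL0])).1
          simp only [List.length_cons, List.length_map]; omega)
    simp only [Finset.mem_filter] at hg
    simp only [List.mem_cons, not_or] at hgn
    obtain ⟨z, hz, hzn⟩ := exists_new (X.filter (fun z => E z f1 ∧ E z g)) (v :: L0.map Prod.fst)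
      (by have := hcod f1 hfY g hg.1 (Ne.symm hgn.1)
          have e := hlj
          rw [hL0, List.length_cons] at e
          simp only [List.length_cons, List.length_map]; omega)
    simp only [Finset.mem_filter] at hz
    simp only [List.mem_cons, not_or] at hzn
    have hzq : z ≠ q0.1 := by
      rintro rfl; exact hA' f1 (by simp) hz.2.1
    have hzL : z ∉ L.map Prod.fst := by
      rw [hL0]; simp only [List.map_cons, List.mem_cons, not_or]; exact ⟨hzq, hzn.2⟩
    refine ⟨[(v, f1), (z, g)] ++ L, prep hL hne [(v, f1), (z, g)] g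
      ⟨hv.2.2, hvf, hz.2.1, hz.2.2, rfl⟩ ?_ ?_ ?_ ?_ ?_ ?_, ?_, ?_⟩
    · intro q L' e
      rw [hL0] at e
      simp only [List.cons.injEq] at e
      rw [← e.1]; exact hg.2
    · simp; exact Ne.symm hzn.1
    · intro a ha; simp at ha
      rcases ha with rfl | rfl
      · exact hvL
      · exact hzL
    · simp; exact Ne.symm hgn.1
    · intro a ha; simp at ha
      rcases ha with rfl | rfl
      · exact hfn
      · simp only [List.mem_cons, not_or]; exact hgn.2
    · intro a ha; simp at ha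
      rcases ha with rfl | rfl
      · exact ⟨hv.1, hfY⟩
      · exact ⟨hz.1, hg.1⟩
    · rw [cnt_append, cnt_cons]; simp only [hv.2.1, if_true]; omega
    · simp only [List.length_append, List.length_cons, List.length_nil]; omega
  -- case D
  push Not at hC
  obtain ⟨xi, hxi, hxP⟩ := hC
  rw [List.mem_map] at hxi
  obtain ⟨q, hq, rfl⟩ := hxi
  obtain ⟨L1, L2, hL12⟩ := List.append_of_mem hq
  have hcount : ∀ f f', (f = f1 ∨ f = f2 ∨ f = f3) → (f' = f1 ∨ f' = f2 ∨ f' = f3) → f ≠ f' →
      (L.map Prod.fst).countP (fun a => decide (E a f)) +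
        (L.map Prod.fst).countP (fun a => decide (E a f')) ≤ (L.map Prod.fst).length := by
    intro f f' hff hff' hne'
    have := count_le (fun a => E a f) (fun a => E a f') (L.map Prod.fst) (by
      intro M1 a b M2 e hab
      rw [List.map_eq_append_iff] at e
      obtain ⟨N1, N2, e1, e2, e3⟩ := e
      rw [List.map_eq_cons_iff] at e3
      obtain ⟨r1, N3, e4, e5, e6⟩ := e3
      rw [List.map_eq_cons_iff] at e6
      obtain ⟨r2, N4, e7, e8, e9⟩ := e6
      refine hB ⟨f, f', hff, hff', hne', N1, r1, r2, N4, ?_, ?_, ?_⟩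
      · rw [e1, e4, e7]
      · rw [e5]; exact hab.1
      · rw [e8]; exact hab.2)
    rw [if_neg] at this
    · simpa using this
    · rintro ⟨a, t, e, hE⟩
      rw [hL0] at e
      simp only [List.map_cons, List.cons.injEq] at e
      exact hA' f' hff' (by rw [e.1]; exact hE)
  obtain ⟨f, f', hff, hc1, hc2⟩ := two_ports (E := E) (L.map Prod.fst) f1 f2 f3 j (by simpa using hlen)
    (hcount f1 f2 (by simp) (by simp) hfd.1) (hcount f1 f3 (by simp) (by simp) hfd.2.1)
    (hcount f2 f3 (by simp) (by simp) hfd.2.2)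
  have hne' : f ≠ f' := by
    rcases hff with ⟨rfl, rfl⟩ | ⟨rfl, rfl⟩ | ⟨rfl, rfl⟩
    · exact hfd.1
    · exact hfd.2.1
    · exact hfd.2.2
  obtain ⟨hfY, hvf, hfn⟩ := hf f (by tauto)
  obtain ⟨hfY', hvf', hfn'⟩ := hf f' (by tauto)
  -- common neighbours off the path
  have hcom : ∀ f t, f ∈ Y → t ∈ Y → f ≠ t → (L.map Prod.fst).countP (fun a => decide (E a f)) + 1 ≤ j →
      ∀ w : α, ∃ c ∈ X, E c f ∧ E c t ∧ c ∉ L.map Prod.fst ∧ c ≠ w := by
    intro f t hf ht hft hc w
    obtain ⟨c, hc, hcn⟩ := exists_new (X.filter (fun z => E z f ∧ E z t))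
      (w :: (L.map Prod.fst).filter (fun a => decide (E a f))) (by
        rw [List.length_cons, ← List.countP_eq_length_filter]
        have := hcod f hf t ht hft
        omega)
    simp only [Finset.mem_filter] at hc
    simp only [List.mem_cons, not_or, List.mem_filter, not_and] at hcn
    exact ⟨c, hc.1, hc.2.1, hc.2.2, fun h => hcn.2 h (by simp [hc.2.1]), hcn.1⟩
  -- the vertex before q
  obtain ⟨m, w1, w2⟩ := W_append.1 (by rw [hL12] at hL; exact hL.w)
  have hmu : ∀ m', W E y m' L1 → m' = m := by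
    intro m' hm'
    have : ∀ (L : List (α × β)) (y m m' : β), W E y m L → W E y m' L → m' = m := by
      intro L
      induction L with
      | nil => intro y m m' h h'; exact h'.symm.trans h
      | cons q L ih => intro y m m' h h'; exact ih _ _ _ h.2.2 h'.2.2
    exact this _ _ _ _ w1 hm'
  have hmY : m ∈ Y ∧ m ∈ y :: L.map Prod.snd := by
    have := W_mem w1
    constructor
    · rcases List.mem_cons.1 this with h | h
      · rw [h]; exact hy
      · rw [List.mem_map] at h
        obtain ⟨r, hr, rfl⟩ := h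
        exact (hL.mem r (by rw [hL12]; simp [hr])).2
    · rw [hL12, List.map_append]
      rcases List.mem_cons.1 this with h | h
      · rw [h]; simp
      · simp only [List.mem_cons, List.mem_append]; tauto
  have hbY : q.2 ∈ Y ∧ q.2 ∈ y :: L.map Prod.snd := by
    refine ⟨(hL.mem q hq).2, ?_⟩
    simp only [List.mem_cons, List.mem_map]
    exact Or.inr ⟨q, hq, rfl⟩
  have hfm : f ≠ m := by rintro rfl; exact hfn hmY.2
  have hfb : f ≠ q.2 := by rintro rfl; exact hfn hbY.2
  have hfb' : f' ≠ q.2 := by rintro rfl; exact hfn' hbY.2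
  by_cases hvm : E v m
  · obtain ⟨c, hcX, hcf, hcb, hcn, hcv⟩ := hcom f q.2 hfY hbY.1 hfb hc1 v
    rw [hL12] at hL hvL hfn hcn
    refine ⟨L1 ++ ([(v, f)] ++ (c, q.2) :: L2), repl hL [(v, f)] c ?_ ?_ ?_ ?_ ?_ ?_ hcX, ?_, ?_⟩
    · intro m' hm'
      rw [hmu m' hm']
      exact ⟨hvm, hvf, hcf, hcb, rfl⟩
    · simp; exact Ne.symm hcv
    · intro a ha; simp at ha
      rcases ha with rfl | rfl
      · exact hvL
      · exact hcn
    · simp
    · intro a ha; simp at ha; subst ha; exact hfn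
    · intro a ha; simp at ha; subst ha; exact ⟨hv.1, hfY⟩
    · rw [hL12] at hcnt
      simp only [cnt_append, cnt_cons, hv.2.1, if_true] at hcnt ⊢
      rw [if_neg hxP] at hcnt
      omega
    · rw [hL12] at hlen
      simp only [List.length_append, List.length_cons, List.length_nil] at hlen ⊢; omega
  by_cases hvb : E v q.2
  · obtain ⟨c, hcX, hcf, hcb, hcn, hcv⟩ := hcom f m hfY hmY.1 hfm hc1 v
    rw [hL12] at hL hvL hfn hcn
    refine ⟨L1 ++ ([(c, f)] ++ (v, q.2) :: L2), repl hL [(c, f)] v ?_ ?_ ?_ ?_ ?_ ?_ hv.1, ?_, ?_⟩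
    · intro m' hm'
      rw [hmu m' hm']
      exact ⟨hcb, hcf, hvf, hvb, rfl⟩
    · simp; exact hcv
    · intro a ha; simp at ha
      rcases ha with rfl | rfl
      · exact hcn
      · exact hvL
    · simp
    · intro a ha; simp at ha; subst ha; exact hfn
    · intro a ha; simp at ha; subst ha; exact ⟨hcX, hfY⟩
    · rw [hL12] at hcnt
      simp only [cnt_append, cnt_cons, hv.2.1, if_true] at hcnt ⊢
      rw [if_neg hxP] at hcnt
      omega
    · rw [hL12] at hlen
      simp only [List.length_append, List.length_cons, List.length_nil] at hlen ⊢; omega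
  · obtain ⟨c, hcX, hcf, hcb, hcn, hcv⟩ := hcom f m hfY hmY.1 hfm hc1 v
    obtain ⟨c', hcX', hcf', hcb', hcn', hcc⟩ := hcom f' q.2 hfY' hbY.1 hfb' hc2 c
    have hcv' : c' ≠ v := by rintro rfl; exact hvb hcb'
    rw [hL12] at hL hvL hfn hcn hfn' hcn'
    refine ⟨L1 ++ ([(c, f), (v, f')] ++ (c', q.2) :: L2),
      repl hL [(c, f), (v, f')] c' ?_ ?_ ?_ ?_ ?_ ?_ hcX', ?_, ?_⟩
    · intro m' hm'
      rw [hmu m' hm']
      exact ⟨hcb, hcf, hvf, hvf', hcf', hcb', rfl⟩
    · simp; exact ⟨⟨hcv, Ne.symm hcc⟩, Ne.symm hcv'⟩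
    · intro a ha; simp at ha
      rcases ha with rfl | rfl | rfl
      · exact hcn
      · exact hvL
      · exact hcn'
    · simp; exact hne'
    · intro a ha; simp at ha
      rcases ha with rfl | rfl
      · exact hfn
      · exact hfn'
    · intro a ha; simp at ha
      rcases ha with rfl | rfl
      · exact ⟨hcX, hfY⟩
      · exact ⟨hv.1, hfY'⟩
    · rw [hL12] at hcnt
      simp only [cnt_append, cnt_cons, hv.2.1, if_true] at hcnt ⊢
      rw [if_neg hxP] at hcnt
      omega
    · rw [hL12] at hlen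
      simp only [List.length_append, List.length_cons, List.length_nil] at hlen ⊢; omega

end main

end ShortL

open ShortL in
theorem short : S_short := by
  intro α β E X Y P p y y' hp hy hy' hne hcod h1 h2 hd
  have key : ∀ j, 2 ≤ j → j ≤ p → ∃ L, Pth E X Y y y' L ∧ j ≤ cnt P L ∧ L.length + 1 ≤ 2 * j := by
    intro j hj
    induction j, hj using Nat.le_induction with
    | base => intro _; exact start hp hy hy' hne hcod h1 h2 hd
    | succ j hj ih =>
      intro hjp
      obtain ⟨L, hL, hc, hl⟩ := ih (by omega)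
      exact step hp hy hy' hne hcod h1 hd j (by omega) L hL hc hl
  obtain ⟨L, hL, hc, hl⟩ := key p hp le_rfl
  obtain ⟨a0, -, -⟩ := exists_new (X.filter (fun z => P z ∧ E z y)) ([] : List α)
    (by rw [List.length_nil]; omega)
  obtain ⟨x, b, e1, e2, e3, e4, e5, e6⟩ := conv (P := P) a0 hy hL
  exact ⟨L.length, x, b, e1, e2, e3, e4, e5, hl, by rw [e6]; exact hc⟩

end Pool.Agent.H46.GR
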