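import Pool.Agent.H46.GR.Stmts

/-!
# The structure theorem (subtask 1600, helper591)
-/

namespace Pool.Agent.H46.GR

open Finset
open scoped Classical

namespace StructL

variable {α β : Type} {E : α → β → Prop} {q : ℕ} {x : ℕ → α} {b : ℕ → β}

/-- extension of a full path at its first end -/
theorem ext_first (h : YPath E q x b) {u : α} (hu : E u (b 0)) (hx : ∀ i < q, x i ≠ u) :
    XPath E (q + 1) (fun t => if t < q then x (q - 1 - t) else u) (fun t => b (q - t)) := by
  refine ⟨fun i hi => ?_, fun i hi => ?_, fun i hi j hj e => ?_, fun i hi j hj e => ?_⟩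
  · by_cases h1 : i < q
    · simp only [if_pos h1]
      have := h.right (q - 1 - i) (by omega)
      rwa [show q - 1 - i + 1 = q - i by omega] at this
    · simp only [if_neg h1]
      rwa [show q - i = 0 by omega]
  · have h1 : i < q := by omega
    simp only [if_pos h1]
    have := h.left (q - 1 - i) (by omega)
    rwa [show q - (i + 1) = q - 1 - i by omega]
  · by_cases h1 : i < q <;> by_cases h2 : j < q
    · simp only [if_pos h1, if_pos h2] at e
      have := h.injx _ (by omega) _ (by omega) e
      omega
    · simp only [if_pos h1, if_neg h2] at e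
      exact absurd e (hx _ (by omega))
    · simp only [if_neg h1, if_pos h2] at e
      exact absurd e.symm (hx _ (by omega))
    · omega
  · have := h.injb _ (by omega) _ (by omega) e
    omega

theorem nbr_first (hno : ∀ x' b', ¬ XPath E (q + 1) x' b') (h : YPath E q x b) {u : α}
    (hu : E u (b 0)) : ∃ i < q, x i = u := by
  by_contra hc
  push Not at hc
  exact hno _ _ (ext_first h hu hc)

theorem XPath.flip_rev (h : XPath E q x b) :
    XPath (flip E) q (fun t => b (q - 1 - t)) (fun t => x (q - 1 - t)) := by
  refine ⟨fun i hi => ?_, fun i hi => ?_, fun i hi j hj e => ?_, fun i hi j hj e => ?_⟩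
  · exact h.left (q - 1 - i) (by omega)
  · show E (x (q - 1 - (i + 1))) (b (q - 1 - i))
    have := h.right (q - 1 - (i + 1)) (by omega)
    rwa [show q - 1 - (i + 1) + 1 = q - 1 - i by omega] at this
  · have := h.injb _ (by omega) _ (by omega) e
    omega
  · have := h.injx _ (by omega) _ (by omega) e
    omega

theorem Conn.flip {D : ℕ} {A : Finset α} {B : Finset β} (h : Conn E D A B) :
    Conn (flip E) D B A := by
  refine ⟨fun u v huv => ?_, fun u hu => h.degB u hu, fun v hv => h.degA v hv, ?_⟩
  · exact (h.supp v u huv).symm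
  · intro A₁ hA₁ B₁ hB₁ hne hcl
    have := h.conn B₁ hB₁ A₁ hA₁ hne.symm (fun u v huv => (hcl v u huv).symm)
    exact this.symm

/-- restriction of a path -/
theorem XPath.restrict (h : XPath E q x b) {m : ℕ} (hm : m ≤ q) : XPath E m x b :=
  ⟨fun i hi => h.left i (by omega), fun i hi => h.right i (by omega),
    fun i hi j hj e => h.injx i (by omega) j (by omega) e,
    fun i hi j hj e => h.injb i (by omega) j (by omega) e⟩

/-- cyclic shift of a cycle -/
theorem shift (h : XPath E q x b) (hq : 1 ≤ q) (hc : E (x (q - 1)) (b 0)) (s : ℕ) :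
    XPath E q (fun t => x ((s + t) % q)) (fun t => b ((s + t) % q)) ∧
      E (x ((s + (q - 1)) % q)) (b ((s + 0) % q)) := by
  have key : ∀ m, E (x (m % q)) (b ((m + 1) % q)) := by
    intro m
    have h1 : m % q < q := Nat.mod_lt _ hq
    by_cases h2 : m % q + 1 < q
    · have h3 : (m + 1) % q = m % q + 1 := by
        rw [Nat.add_mod, Nat.mod_eq_of_lt (show 1 < q by omega), Nat.mod_eq_of_lt h2]
      rw [h3]
      exact h.right _ h2
    · have h4 : m % q = q - 1 := by omega
      have h3 : (m + 1) % q = 0 := by
        rw [Nat.add_mod, h4]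
        rcases Nat.eq_or_lt_of_le hq with h5 | h5
        · rw [← h5]
        · rw [Nat.mod_eq_of_lt h5, show q - 1 + 1 = q by omega, Nat.mod_self]
      rw [h3, h4]
      exact hc
  have inj : ∀ i < q, ∀ j < q, (s + i) % q = (s + j) % q → i = j := by
    intro i hi j hj e
    have : i ≡ j [MOD q] := Nat.ModEq.add_left_cancel' s e
    rwa [Nat.ModEq, Nat.mod_eq_of_lt hi, Nat.mod_eq_of_lt hj] at this
  refine ⟨⟨fun i _ => h.left _ (Nat.mod_lt _ hq), fun i _ => key (s + i),
    fun i hi j hj e => inj i hi j hj (h.injx _ (Nat.mod_lt _ hq) _ (Nat.mod_lt _ hq) e),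
    fun i hi j hj e => inj i hi j hj (h.injb _ (Nat.mod_lt _ hq) _ (Nat.mod_lt _ hq) e)⟩, ?_⟩
  have := key (s + (q - 1))
  rwa [show s + (q - 1) + 1 = (s + 0) + q by omega, Nat.add_mod_right] at this

/-- the neighbours of a vertex that lie on the path, by indices -/
theorem card_le_idx {D : ℕ} {A : Finset α} (P : α → Prop) (hD : D ≤ (A.filter P).card)
    (hsub : ∀ u, P u → ∃ i < q, x i = u) :
    D ≤ ((range q).filter (fun i => P (x i))).card := by
  refine hD.trans ?_
  have : A.filter P ⊆ ((range q).filter (fun i => P (x i))).image x := by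
    intro u hu
    rw [mem_filter] at hu
    obtain ⟨i, hi, rfl⟩ := hsub u hu.2
    rw [mem_image]
    exact ⟨i, mem_filter.mpr ⟨mem_range.mpr hi, hu.2⟩, rfl⟩
  exact (card_le_card this).trans card_image_le

/-- Case YY -/
theorem caseYY (hb : S_blade) (hcyc : S_cyc) {k D : ℕ} {A : Finset α} {B : Finset β}
    (hC : Conn E D A B) (hk : k ≤ 2 * D) (hq : 1 ≤ q) (hqk : q + 1 ≤ k)
    (hno : ∀ x' b', ¬ XPath E (q + 1) x' b') (h : YPath E q x b) :
    A.card = q ∨ (2 * D = k ∧ ∃ u ∈ A, ∃ S ⊆ A, S.card = D ∧ ∀ v, E u v → ∀ z, E z v ↔ z ∈ S) := by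
  by_cases hA : A.card = q
  · exact Or.inl hA
  right
  have hxA : ∀ i < q, x i ∈ A := fun i hi => (hC.supp _ _ (h.left i hi)).1
  have hbB : ∀ i ≤ q, b i ∈ B := by
    intro i hi
    by_cases h1 : i < q
    · exact (hC.supp _ _ (h.left i h1)).2
    · have := h.right (q - 1) (by omega)
      rw [show q - 1 + 1 = i by omega] at this
      exact (hC.supp _ _ this).2
  have hBq : q + 1 ≤ B.card := by
    have h1 : ((range (q + 1)).image b) ⊆ B := by
      intro v hv
      rw [mem_image] at hv
      obtain ⟨i, hi, rfl⟩ := hv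
      rw [mem_range] at hi
      exact hbB i (by omega)
    have h2 : ((range (q + 1)).image b).card = q + 1 := by
      rw [card_image_of_injOn, card_range]
      intro i hi j hj e
      rw [mem_coe, mem_range] at hi hj
      exact h.injb i (by omega) j (by omega) e
    rw [← h2]
    exact card_le_card h1
  have nocyc : ∀ (x' : ℕ → α) (b' : ℕ → β), XPath E q x' b' → ¬ E (x' (q - 1)) (b' 0) := by
    intro x' b' hx' hc
    exact hA (hcyc α β E k D A B q x' b' hC hk hq hqk hno hx' hc hBq)
  -- no short chords
  have h0q : ¬ E (x 0) (b q) := by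
    intro he
    refine nocyc x (fun t => if t = 0 then b q else b t) ?_ ?_
    · refine ⟨fun i hi => ?_, fun i hi => ?_, h.injx, fun i hi j hj e => ?_⟩
      · by_cases h1 : i = 0
        · subst h1
          simpa using he
        · simp only [if_neg h1]
          exact h.left i hi
      · simp only [if_neg (show i + 1 ≠ 0 by omega)]
        exact h.right i (by omega)
      · by_cases h1 : i = 0 <;> by_cases h2 : j = 0
        · omega
        · simp only [if_pos h1, if_neg h2] at e
          have := h.injb _ le_rfl _ (by omega) e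
          omega
        · simp only [if_neg h1, if_pos h2] at e
          have := h.injb _ (by omega) _ le_rfl e
          omega
        · simp only [if_neg h1, if_neg h2] at e
          exact h.injb _ (by omega) _ (by omega) e
    · simp only [if_true]
      have := h.right (q - 1) (by omega)
      rwa [show q - 1 + 1 = q by omega] at this
  have hq0 : ¬ E (x (q - 1)) (b 0) := nocyc x b h.toX
  have hcross : ∀ i, i + 1 < q → E (x i) (b q) → ¬ E (x (i + 1)) (b 0) := by
    intro i hi he he'
    refine nocyc _ _ (h.rot (show i < q by omega) he).toX ?_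
    simp only [if_neg (show ¬ (q - 1 ≤ i) by omega), if_pos (Nat.zero_le i)]
    rwa [show q + i - (q - 1) = i + 1 by omega]
  have hfirst : ∀ (x' : ℕ → α) (b' : ℕ → β), YPath E q x' b' → ∀ u, E u (b' 0) →
      ∃ i < q, x' i = u := fun x' b' h' u hu => nbr_first hno h' hu
  have hI : D ≤ ((range q).filter (fun i => E (x i) (b 0))).card :=
    card_le_idx (fun u => E u (b 0)) (hC.degB _ (hbB 0 (by omega))) (hfirst x b h)
  have hlast : ∀ u, E u (b q) → ∃ i < q, x i = u := by
    intro u hu
    obtain ⟨i, hi, rfl⟩ := hfirst _ _ h.rev u (by simpa using hu)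
    exact ⟨q - 1 - i, by omega, rfl⟩
  have hJ : D ≤ ((range q).filter (fun i => E (x i) (b q))).card :=
    card_le_idx (fun u => E u (b q)) (hC.degB _ (hbB q le_rfl)) hlast
  have hcount : 2 * D ≤ q + 1 := by
    have h1 : Disjoint ((range q).filter (fun i => E (x i) (b 0)))
        (((range q).filter (fun i => E (x i) (b q))).image (fun i => i + 1)) := by
      rw [disjoint_left]
      intro t ht ht'
      rw [mem_filter, mem_range] at ht
      rw [mem_image] at ht'
      obtain ⟨j, hj, rfl⟩ := ht'
      rw [mem_filter, mem_range] at hj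
      exact hcross j ht.1 hj.2 ht.2
    have h2 : ((range q).filter (fun i => E (x i) (b 0))) ∪
        (((range q).filter (fun i => E (x i) (b q))).image (fun i => i + 1)) ⊆ range (q + 1) := by
      intro t ht
      rw [mem_union, mem_filter, mem_image] at ht
      rw [mem_range]
      rcases ht with ht | ⟨j, hj, rfl⟩
      · have := mem_range.mp ht.1
        omega
      · have := mem_range.mp (mem_filter.mp hj).1
        omega
    have h3 := card_le_card h2
    rw [card_union_of_disjoint h1, card_range,
      card_image_of_injective _ (fun a b h => by simpa using h)] at h3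
    omega
  have hkD : 2 * D = k := by omega
  refine ⟨hkD, ?_⟩
  set X' : Finset α := (range q).image x with hX'
  have hX'c : X'.card = q := by
    rw [hX', card_image_of_injOn, card_range]
    intro i hi j hj e
    rw [mem_coe, mem_range] at hi hj
    exact h.injx i hi j hj e
  have hxX : ∀ i < q, x i ∈ X' := fun i hi => mem_image_of_mem x (mem_range.mpr hi)
  have hX'A : X' ⊆ A := by
    intro u hu
    rw [hX', mem_image] at hu
    obtain ⟨i, hi, rfl⟩ := hu
    exact hxA i (mem_range.mp hi)
  have hbl := hb α β E X' Set.univ D q (by omega) hX'c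
    (fun x' b' h' hx' _ => by
      have h1 : b' 0 ∈ B := (hC.supp _ _ (h'.left 0 (by omega))).2
      refine (hC.degB _ h1).trans (card_le_card ?_)
      intro u hu
      rw [mem_filter] at hu ⊢
      obtain ⟨i, hi, rfl⟩ := hfirst x' b' h' u hu.2
      exact ⟨hx' i hi, hu.2⟩)
    (fun x' b' h' _ _ => nocyc x' b' h') x b h hxX (fun _ _ => Set.mem_univ _)
  obtain ⟨hb1, -, hb3⟩ := hbl
  refine ⟨x 0, hxA 0 (by omega), X'.filter (fun z => E z (b 0)),
    (filter_subset _ _).trans hX'A, hb1, ?_⟩
  intro v hv z
  obtain ⟨⟨x', b', h', hx', -, hb0⟩, htw⟩ := hb3 v (Set.mem_univ _) hv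
  rw [mem_filter]
  constructor
  · intro hz
    obtain ⟨i, hi, rfl⟩ := hfirst x' b' h' z (by rw [hb0]; exact hz)
    exact ⟨hx' i hi, (htw _ (hx' i hi)).mp hz⟩
  · rintro ⟨hz, hz'⟩
    exact (htw z hz).mpr hz'

/-- Case neither -/
theorem caseN {k D : ℕ} {A : Finset α} {B : Finset β}
    (hC : Conn E D A B) (hk : k ≤ 2 * D) (hq : 1 ≤ q) (hqk : q + 1 ≤ k)
    (hY : ∀ x' b', ¬ YPath E q x' b') (hYf : ∀ x' b', ¬ YPath (flip E) q x' b')
    (h : XPath E q x b) : A.card = q := by
  have hxA : ∀ (x' : ℕ → α) (b' : ℕ → β), XPath E q x' b' → ∀ i < q, x' i ∈ A ∧ b' i ∈ B :=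
    fun x' b' h' i hi => hC.supp _ _ (h'.left i hi)
  have hlast : ∀ (x' : ℕ → α) (b' : ℕ → β), XPath E q x' b' → ∀ v, E (x' (q - 1)) v →
      ∃ i < q, b' i = v := by
    intro x' b' h' v hv
    by_contra hc
    push Not at hc
    exact hY _ _ (h'.toY hq hv hc)
  have hfirst : ∀ (x' : ℕ → α) (b' : ℕ → β), XPath E q x' b' → ∀ u, E u (b' 0) →
      ∃ i < q, x' i = u := by
    intro x' b' h' u hu
    by_contra hc
    push Not at hc
    apply hYf b' (fun t => if t = 0 then u else x' (t - 1))
    refine ⟨fun i hi => ?_, fun i hi => ?_, h'.injb, fun i hi j hj e => ?_⟩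
    · show E (if i = 0 then u else x' (i - 1)) (b' i)
      by_cases h1 : i = 0
      · rw [if_pos h1, h1]
        exact hu
      · rw [if_neg h1]
        have := h'.right (i - 1) (by omega)
        rwa [show i - 1 + 1 = i by omega] at this
    · show E (if i + 1 = 0 then u else x' (i + 1 - 1)) (b' i)
      rw [if_neg (by omega)]
      exact h'.left i hi
    · by_cases h1 : i = 0 <;> by_cases h2 : j = 0
      · omega
      · simp only [if_pos h1, if_neg h2] at e
        exact absurd e.symm (hc _ (by omega))
      · simp only [if_neg h1, if_pos h2] at e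
        exact absurd e (hc _ (by omega))
      · simp only [if_neg h1, if_neg h2] at e
        have := h'.injx _ (by omega) _ (by omega) e
        omega
  -- a cycle
  have hI : D ≤ ((range q).filter (fun i => E (x i) (b 0))).card :=
    card_le_idx (fun u => E u (b 0)) (hC.degB _ (hxA x b h 0 (by omega)).2) (hfirst x b h)
  have hJ : D ≤ ((range q).filter (fun i => E (x (q - 1)) (b i))).card :=
    card_le_idx (x := b) (fun v => E (x (q - 1)) v) (hC.degA _ (hxA x b h (q - 1) (by omega)).1)
      (hlast x b h)
  obtain ⟨i, hi⟩ : (((range q).filter (fun i => E (x i) (b 0))) ∩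
      ((range q).filter (fun i => E (x (q - 1)) (b i)))).Nonempty := by
    rw [← card_pos]
    have h1 := card_union_add_card_inter ((range q).filter (fun i => E (x i) (b 0)))
      ((range q).filter (fun i => E (x (q - 1)) (b i)))
    have h2 : ((range q).filter (fun i => E (x i) (b 0)) ∪
      (range q).filter (fun i => E (x (q - 1)) (b i))).card ≤ (range q).card :=
      card_le_card (union_subset (filter_subset _ _) (filter_subset _ _))
    rw [card_range] at h2
    omega
  rw [mem_inter, mem_filter, mem_filter, mem_range] at hi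
  obtain ⟨⟨hiq, hi0⟩, -, hiJ⟩ := hi
  set x₁ : ℕ → α := fun t => if t < i then x t else x (q - 1 + i - t) with hx₁
  set b₁ : ℕ → β := fun t => if t ≤ i then b t else b (q + i - t) with hb₁
  have h₁ : XPath E q x₁ b₁ := by
    refine ⟨fun t ht => ?_, fun t ht => ?_, fun s hs t ht e => ?_, fun s hs t ht e => ?_⟩
    · simp only [hx₁, hb₁]
      by_cases h1 : t < i
      · rw [if_pos h1, if_pos h1.le]
        exact h.left t ht
      · rw [if_neg h1]
        by_cases h2 : t ≤ i
        · rw [if_pos h2]
          obtain rfl : t = i := by omega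
          rwa [show q - 1 + t - t = q - 1 by omega]
        · rw [if_neg h2]
          have := h.right (q - 1 + i - t) (by omega)
          rwa [show q - 1 + i - t + 1 = q + i - t by omega] at this
    · simp only [hx₁, hb₁]
      by_cases h1 : t < i
      · rw [if_pos h1, if_pos (by omega)]
        exact h.right t ht
      · rw [if_neg h1, if_neg (by omega)]
        have := h.left (q - 1 + i - t) (by omega)
        rwa [show q + i - (t + 1) = q - 1 + i - t by omega]
    · simp only [hx₁] at e
      by_cases h1 : s < i <;> by_cases h2 : t < i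
      · simp only [if_pos h1, if_pos h2] at e
        have := h.injx _ (by omega) _ (by omega) e; omega
      · simp only [if_pos h1, if_neg h2] at e
        have := h.injx _ (by omega) _ (by omega) e; omega
      · simp only [if_neg h1, if_pos h2] at e
        have := h.injx _ (by omega) _ (by omega) e; omega
      · simp only [if_neg h1, if_neg h2] at e
        have := h.injx _ (by omega) _ (by omega) e; omega
    · simp only [hb₁] at e
      by_cases h1 : s ≤ i <;> by_cases h2 : t ≤ i
      · simp only [if_pos h1, if_pos h2] at e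
        have := h.injb _ (by omega) _ (by omega) e; omega
      · simp only [if_pos h1, if_neg h2] at e
        have := h.injb _ (by omega) _ (by omega) e; omega
      · simp only [if_neg h1, if_pos h2] at e
        have := h.injb _ (by omega) _ (by omega) e; omega
      · simp only [if_neg h1, if_neg h2] at e
        have := h.injb _ (by omega) _ (by omega) e; omega
  have hc₁ : E (x₁ (q - 1)) (b₁ 0) := by
    simp only [hx₁, hb₁]
    rw [if_neg (by omega), if_pos (Nat.zero_le i), show q - 1 + i - (q - 1) = i by omega]
    exact hi0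
  -- closed under adjacency
  have hcl := hC.conn ((range q).image x₁) (by
      intro u hu
      rw [mem_image] at hu
      obtain ⟨t, ht, rfl⟩ := hu
      exact (hxA x₁ b₁ h₁ t (mem_range.mp ht)).1) ((range q).image b₁) (by
      intro v hv
      rw [mem_image] at hv
      obtain ⟨t, ht, rfl⟩ := hv
      exact (hxA x₁ b₁ h₁ t (mem_range.mp ht)).2)
    (Or.inl ⟨x₁ 0, mem_image_of_mem _ (mem_range.mpr (by omega))⟩) (by
      intro u v huv
      rw [mem_image, mem_image]
      constructor
      · rintro ⟨t, ht, rfl⟩
        rw [mem_range] at ht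
        obtain ⟨hs, -⟩ := shift h₁ hq hc₁ (t + 1)
        have h3 : (t + 1 + (q - 1)) % q = t := by
          rw [show t + 1 + (q - 1) = t + q by omega, Nat.add_mod_right, Nat.mod_eq_of_lt ht]
        obtain ⟨i, hi, hv⟩ := hlast _ _ hs v (by
          show E (x₁ ((t + 1 + (q - 1)) % q)) v
          rw [h3]
          exact huv)
        exact ⟨(t + 1 + i) % q, mem_range.mpr (Nat.mod_lt _ hq), hv⟩
      · rintro ⟨t, ht, rfl⟩
        rw [mem_range] at ht
        obtain ⟨hs, -⟩ := shift h₁ hq hc₁ t
        obtain ⟨i, hi, hv⟩ := hfirst _ _ hs u (by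
          show E u (b₁ ((t + 0) % q))
          rw [add_zero, Nat.mod_eq_of_lt ht]
          exact huv)
        exact ⟨(t + i) % q, mem_range.mpr (Nat.mod_lt _ hq), hv⟩)
  rw [← hcl.1, card_image_of_injOn, card_range]
  intro i hi j hj e
  rw [mem_coe, mem_range] at hi hj
  exact h₁.injx i hi j hj e

end StructL

open StructL

/-- **Structure theorem.** -/
theorem struct (hb : S_blade) (hc : S_cyc) : S_struct := by
  intro α β E k D A B hC hk2 hk hno hne
  have hD : 1 ≤ D := by omega
  -- an edge
  obtain ⟨u, v, huv⟩ : ∃ u v, E u v := by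
    rcases hne with ⟨u, hu⟩ | ⟨v, hv⟩
    · have h1 := hC.degA u hu
      obtain ⟨v, hv⟩ := card_pos.mp (show 0 < (B.filter (fun v => E u v)).card by omega)
      exact ⟨u, v, (mem_filter.mp hv).2⟩
    · have h1 := hC.degB v hv
      obtain ⟨u, hu⟩ := card_pos.mp (show 0 < (A.filter (fun u => E u v)).card by omega)
      exact ⟨u, v, (mem_filter.mp hu).2⟩
  have hex : ∃ m, ∀ x b, ¬ XPath E (m + 1) x b := ⟨k - 1, by
    rw [show k - 1 + 1 = k by omega]
    exact hno⟩
  set q := Nat.find hex with hqd
  have hno' : ∀ x b, ¬ XPath E (q + 1) x b := Nat.find_spec hex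
  have hqk : q ≤ k - 1 := Nat.find_min' hex (by
    rw [show k - 1 + 1 = k by omega]
    exact hno)
  have hq1 : 1 ≤ q := by
    by_contra hc0
    have h0 : q = 0 := by omega
    rw [h0] at hno'
    refine hno' (fun _ => u) (fun _ => v) ⟨fun _ _ => huv, fun i hi => by omega,
      fun i hi j hj _ => by omega, fun i hi j hj _ => by omega⟩
  obtain ⟨x, b, h⟩ : ∃ x b, XPath E q x b := by
    have h1 := Nat.find_min hex (show q - 1 < q by omega)
    push Not at h1
    rwa [show q - 1 + 1 = q by omega] at h1
  by_cases hYY : ∃ x' b', YPath E q x' b'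
  · obtain ⟨x', b', h'⟩ := hYY
    rcases caseYY hb hc hC hk hq1 (by omega) hno' h' with h1 | h1
    · left
      omega
    · exact Or.inr (Or.inr (Or.inl h1))
  by_cases hXX : ∃ x' b', YPath (flip E) q x' b'
  · obtain ⟨x', b', h'⟩ := hXX
    have hnof : ∀ x b, ¬ XPath (flip E) (q + 1) x b := by
      intro x b hx
      exact hno' _ _ (XPath.flip_rev hx)
    rcases caseYY hb hc (Conn.flip hC) hk hq1 (by omega) hnof h' with h1 | h1
    · right
      left
      omega
    · exact Or.inr (Or.inr (Or.inr h1))
  push Not at hYY hXX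
  left
  have := caseN hC hk hq1 (by omega) hYY hXX h
  omega

end Pool.Agent.H46.GR
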