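import Pool.Agent.H46.GR.Stmts

namespace Pool.Agent.H46.GR

open Finset
open scoped Classical

theorem swap (hA : S_fullA) (hcomp : S_complete) (hcl : S_close) : S_swap := by
  intro α β C k D χ hNo hkD c d S X₂ Φ Y₂ y y' hcd hyy hU hy hy' hX₂ hS hSc hyΦ hy'Φ hSΦ hk
  have hdy := hU.degY y hy
  have hdy' := hU.degY y' hy'
  have hD1 : 1 ≤ D := by omega
  have hX₂pos : 1 ≤ X₂.card := by
    have := Finset.card_filter_le X₂ (fun x => χ x y = d)
    omega
  -- size of S \ X₂
  have hdisj : Disjoint (S ∩ X₂) (X₂.filter (fun x => χ x y = d)) := by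
    rw [Finset.disjoint_left]
    intro z hz hz2
    rw [Finset.mem_inter] at hz
    rw [Finset.mem_filter] at hz2
    have h1 := (hSc z hz.1).1
    rw [h1] at hz2
    exact hcd hz2.2
  have hcard1 : (S ∩ X₂).card + (X₂.filter (fun x => χ x y = d)).card ≤ X₂.card := by
    rw [← Finset.card_union_of_disjoint hdisj]
    apply Finset.card_le_card
    intro z hz
    rw [Finset.mem_union, Finset.mem_inter, Finset.mem_filter] at hz
    rcases hz with hz | hz
    · exact hz.2
    · exact hz.1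
  have hcard2 : (S \ X₂).card + (S ∩ X₂).card = S.card := Finset.card_sdiff_add_card_inter S X₂
  obtain ⟨S', hS'sub, hS'card⟩ : ∃ S' ⊆ S \ X₂, S'.card = k - X₂.card :=
    Finset.exists_subset_card_eq (by omega)
  obtain ⟨Φ', hΦ'sub, hΦ'card⟩ : ∃ Φ' ⊆ Φ, Φ'.card = k - X₂.card - 1 :=
    Finset.exists_subset_card_eq (by omega)
  have hS'S : ∀ z ∈ S', z ∈ S ∧ z ∉ X₂ := fun z hz => Finset.mem_sdiff.mp (hS'sub hz)
  obtain ⟨x, b, hP, hxS, hb0, hbr, hbΦ⟩ := hcomp α β (fun u v => χ u v = c) S' Φ' y y'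
    (Finset.card_pos.mp (by omega)) hyy (fun h => hyΦ (hΦ'sub h)) (fun h => hy'Φ (hΦ'sub h))
    (fun z hz => hSc z (hS'S z hz).1) (fun z hz f hf => hSΦ z (hS'S z hz).1 f (hΦ'sub hf))
    (by omega)
  set F : Finset β := Y₂ \ ({y, y'} ∪ Φ') with hF
  have hFY : ∀ f ∈ F, f ∈ Y₂ := fun f hf => (Finset.mem_sdiff.mp hf).1
  obtain ⟨x', b', hP', hx'X, hb'0, hb'r, hb'F⟩ := hA α β (fun u v => χ u v = d) X₂ F y y' D
    (by omega) hyy (by simp [hF]) (by simp [hF]) (fun f hf => hU.degY f (hFY f hf)) hdy hdy' (by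
      intro z hz
      have h1 := hU.degX z hz
      have h2 : (Y₂.filter (fun f => χ z f = d)).card ≤
          (F.filter (fun f => χ z f = d)).card + ({y, y'} ∪ Φ').card := by
        rw [← Finset.card_union_add_card_inter] 
        refine le_trans (Finset.card_le_card ?_) (Nat.le_add_right _ _)
        intro f hf
        rw [Finset.mem_filter] at hf
        rw [Finset.mem_union, Finset.mem_filter, hF, Finset.mem_sdiff]
        by_cases h3 : f ∈ {y, y'} ∪ Φ'
        · right; exact h3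
        · left; exact ⟨⟨hf.1, h3⟩, hf.2⟩
      have h4 : ({y, y'} ∪ Φ' : Finset β).card ≤ 2 + (k - X₂.card - 1) := by
        refine le_trans (Finset.card_union_le _ _) ?_
        rw [hΦ'card]
        exact Nat.add_le_add_right Finset.card_le_two _
      omega)
  refine hcl α β C k χ hNo c d S'.card X₂.card x b x' b' (by omega) hX₂pos (by omega) hP hP'
    (by rw [hb0, hb'0]) (by rw [hbr, hb'r]) ?_ ?_
  · intro i hi j hj h
    have h1 := (hS'S _ (hxS i hi)).2
    rw [h] at h1
    exact h1 (hx'X j hj)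
  · intro i hi0 hi j hj0 hj h
    have h1 := hbΦ i hi0 hi
    have h2 := hb'F j hj0 hj
    rw [h] at h1
    rw [hF, Finset.mem_sdiff, Finset.mem_union] at h2
    exact h2.2 (Or.inr h1)

end Pool.Agent.H46.GR
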