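import Pool.Agent.H46.GR.Tc
import Pool.Agent.H46.GR.Close
import Pool.Agent.H46.GR.Peel
import Pool.Agent.H46.GR.AccSmall
import Pool.Agent.H46.GR.Blade
import Pool.Agent.H46.GR.FullA
import Pool.Agent.H46.GR.Bridge
import Pool.Agent.H46.GR.Cyc
import Pool.Agent.H46.GR.Struct
import Pool.Agent.H46.GR.Swap
import Pool.Agent.H46.GR.FullB
import Pool.Agent.H46.GR.Account
import Pool.Agent.H46.GR.Excl
import Pool.Agent.H46.GR.Capacity
import Pool.Agent.H46.GR.Core
import Pool.Agent.H46.GR.Final
import Pool.Agent.H46.GR.FullB1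
import Pool.Agent.H46.GR.Short

/-! Assembly: the lower bound `c_k n ≤ r(K_{n,n}, C_{2k}, 3)`. -/

namespace Pool.Agent.H46.GR

theorem lower_bound (k n : ℕ) (hk : 4 ≤ k) :
    ((3 * k - 2 : ℝ) / (2 * (k - 1) * (2 * k - 1))) * n ≤
      (genRamsey (completeBipartiteGraph (Fin n) (Fin n)) (SimpleGraph.cycleGraph (2 * k)) 3 : ℝ) := by
  have hblade : S_blade := blade tc
  have hfB : S_fullB := fullB fullB1 hblade
  have hsw : S_swap := swap fullA complete close
  have hex : S_excl := excl short fullA hfB close hsw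
  have hcap : S_capacity := capacity fullA hfB close complete hsw hex
  have hacc : S_account := account (struct hblade cyc) (accSmall peel)
  exact lower (core hacc hcap) bridge rainbow k n hk

end Pool.Agent.H46.GR
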