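import Mathlib

/-!
# Generalized Ramsey numbers r(K_{n,n}, C_{2k}, 3): basic definitions and path rotations
-/

namespace Pool.Agent.H46.GR

open Finset
open scoped Classical

/-- A path `b 0, x 0, b 1, x 1, …, x (q-1), b q` of the bipartite graph `E`
(`q` vertices on the α side, `q+1` on the β side). -/
structure YPath {α β : Type} (E : α → β → Prop) (q : ℕ) (x : ℕ → α) (b : ℕ → β) : Prop where
  left : ∀ i < q, E (x i) (b i)
  right : ∀ i < q, E (x i) (b (i + 1))
  injx : ∀ i < q, ∀ j < q, x i = x j → i = j
  injb : ∀ i ≤ q, ∀ j ≤ q, b i = b j → i = j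

/-- A path `b 0, x 0, b 1, x 1, …, b (q-1), x (q-1)` (`q` vertices on each side). -/
structure XPath {α β : Type} (E : α → β → Prop) (q : ℕ) (x : ℕ → α) (b : ℕ → β) : Prop where
  left : ∀ i < q, E (x i) (b i)
  right : ∀ i, i + 1 < q → E (x i) (b (i + 1))
  injx : ∀ i < q, ∀ j < q, x i = x j → i = j
  injb : ∀ i < q, ∀ j < q, b i = b j → i = j

/-- number of edges between `X` and `Y` -/
noncomputable def edg {α β : Type} (E : α → β → Prop) (X : Finset α) (Y : Finset β) : ℕ :=
  ∑ x ∈ X, (Y.filter (fun y => E x y)).card

/-- No cycle of length `2k` is coloured with at most two colours. -/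
def NoC {α β C : Type} (k : ℕ) (χ : α → β → C) : Prop :=
  ∀ (c d : C) (x : ℕ → α) (b : ℕ → β), XPath (fun u v => χ u v = c ∨ χ u v = d) k x b →
    ¬ (χ (x (k - 1)) (b 0) = c ∨ χ (x (k - 1)) (b 0) = d)

/-- A unit: at most `k-1` vertices on the `X` side, every `y ∈ Y` has at least `D` neighbours
in `X`, every `x ∈ X` has at least `k+1` neighbours in `Y`. -/
structure IsUnit' {α β : Type} (E : α → β → Prop) (k D : ℕ) (X : Finset α) (Y : Finset β) :
    Prop where
  cardX : X.card + 1 ≤ k
  degY : ∀ y ∈ Y, D ≤ (X.filter (fun x => E x y)).card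
  degX : ∀ x ∈ X, k + 1 ≤ (Y.filter (fun y => E x y)).card

/-- An `X'`-full path from `y` to `y'` whose interior β-vertices are in `F`. -/
def FullPath {α β : Type} (E : α → β → Prop) (X' : Finset α) (F : Finset β) (y y' : β) : Prop :=
  ∃ (x : ℕ → α) (b : ℕ → β), YPath E X'.card x b ∧ (∀ i < X'.card, x i ∈ X') ∧
    b 0 = y ∧ b X'.card = y' ∧ ∀ i, 0 < i → i < X'.card → b i ∈ F

section rot

variable {α β : Type} {E : α → β → Prop} {q : ℕ} {x : ℕ → α} {b : ℕ → β}

theorem YPath.toX (h : YPath E q x b) : XPath E q x b :=
  ⟨h.left, fun i hi => h.right i (by omega), h.injx,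
    fun i hi j hj e => h.injb i (by omega) j (by omega) e⟩

theorem XPath.toY (h : XPath E q x b) (hq : 1 ≤ q) {f : β} (hf : E (x (q - 1)) f)
    (hfb : ∀ i < q, b i ≠ f) : YPath E q x (fun t => if t < q then b t else f) := by
  refine ⟨fun i hi => ?_, fun i hi => ?_, h.injx, fun i hi j hj e => ?_⟩
  · simp only [if_pos hi]; exact h.left i hi
  · by_cases h1 : i + 1 < q
    · simp only [if_pos h1]; exact h.right i h1
    · simp only [if_neg h1]
      have : i = q - 1 := by omega
      subst this; exact hf
  · by_cases h1 : i < q <;> by_cases h2 : j < q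
    · simp only [if_pos h1, if_pos h2] at e; exact h.injb i h1 j h2 e
    · simp only [if_pos h1, if_neg h2] at e; exact absurd e (hfb i h1)
    · simp only [if_neg h1, if_pos h2] at e; exact absurd e.symm (hfb j h2)
    · omega

/-- The reversed path. -/
theorem YPath.rev (h : YPath E q x b) :
    YPath E q (fun t => x (q - 1 - t)) (fun t => b (q - t)) := by
  refine ⟨fun i hi => ?_, fun i hi => ?_, fun i hi j hj e => ?_, fun i hi j hj e => ?_⟩
  · have := h.right (q - 1 - i) (by omega)
    rwa [show q - 1 - i + 1 = q - i by omega] at this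
  · have := h.left (q - 1 - i) (by omega)
    simpa only [show q - (i + 1) = q - 1 - i by omega] using this
  · have := h.injx _ (by omega) _ (by omega) e
    omega
  · have := h.injb _ (by omega) _ (by omega) e
    omega

/-- Rotation at the end `b q`: if `x i ~ b q` (`i < q`) then
`b 0, x 0, …, b i, x i, b q, x (q-1), b (q-1), …, x (i+1), b (i+1)` is again a path. -/
theorem YPath.rot (h : YPath E q x b) {i : ℕ} (hi : i < q) (he : E (x i) (b q)) :
    YPath E q (fun t => if t ≤ i then x t else x (q + i - t))
      (fun t => if t ≤ i then b t else b (q + i + 1 - t)) := by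
  refine ⟨fun t ht => ?_, fun t ht => ?_, fun s hs t ht e => ?_, fun s hs t ht e => ?_⟩
  · by_cases h1 : t ≤ i
    · simp only [if_pos h1]; exact h.left t ht
    · simp only [if_neg h1]
      have := h.right (q + i - t) (by omega)
      rwa [show q + i - t + 1 = q + i + 1 - t by omega] at this
  · by_cases h1 : t ≤ i
    · by_cases h2 : t + 1 ≤ i
      · simp only [if_pos h1, if_pos h2]; exact h.right t ht
      · have : t = i := by omega
        subst this
        simp only [le_refl, if_true, if_neg h2]
        rwa [show q + t + 1 - (t + 1) = q by omega]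
    · have h2 : ¬ (t + 1 ≤ i) := by omega
      simp only [if_neg h1, if_neg h2]
      have := h.left (q + i - t) (by omega)
      rwa [show q + i + 1 - (t + 1) = q + i - t by omega]
  · by_cases h1 : s ≤ i <;> by_cases h2 : t ≤ i
    · simp only [if_pos h1, if_pos h2] at e
      have := h.injx _ (by omega) _ (by omega) e; omega
    · simp only [if_pos h1, if_neg h2] at e
      have := h.injx _ (by omega) _ (by omega) e; omega
    · simp only [if_neg h1, if_pos h2] at e
      have := h.injx _ (by omega) _ (by omega) e; omega
    · simp only [if_neg h1, if_neg h2] at e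
      have := h.injx _ (by omega) _ (by omega) e; omega
  · by_cases h1 : s ≤ i <;> by_cases h2 : t ≤ i
    · simp only [if_pos h1, if_pos h2] at e
      have := h.injb _ (by omega) _ (by omega) e; omega
    · simp only [if_pos h1, if_neg h2] at e
      have := h.injb _ (by omega) _ (by omega) e; omega
    · simp only [if_neg h1, if_pos h2] at e
      have := h.injb _ (by omega) _ (by omega) e; omega
    · simp only [if_neg h1, if_neg h2] at e
      have := h.injb _ (by omega) _ (by omega) e; omega

/-- Rotation at the start `b 0`: if `x i ~ b 0` (`i < q`) then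
`b i, x (i-1), b (i-1), …, x 0, b 0, x i, b (i+1), x (i+1), …, b q` is again a path. -/
theorem YPath.rotL (h : YPath E q x b) {i : ℕ} (hi : i < q) (he : E (x i) (b 0)) :
    YPath E q (fun t => if t < i then x (i - 1 - t) else x t)
      (fun t => if t ≤ i then b (i - t) else b t) := by
  refine ⟨fun t ht => ?_, fun t ht => ?_, fun s hs t ht e => ?_, fun s hs t ht e => ?_⟩
  · by_cases h1 : t < i
    · simp only [if_pos h1, if_pos h1.le]
      have := h.right (i - 1 - t) (by omega)
      rwa [show i - 1 - t + 1 = i - t by omega] at this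
    · by_cases h2 : t ≤ i
      · have : t = i := by omega
        subst this
        simp only [lt_irrefl, le_refl, if_true, if_false, Nat.sub_self]
        exact he
      · simp only [if_neg h1, if_neg h2]; exact h.left t ht
  · by_cases h1 : t < i
    · simp only [if_pos h1, if_pos (show t + 1 ≤ i by omega)]
      have := h.left (i - 1 - t) (by omega)
      rwa [show i - (t + 1) = i - 1 - t by omega]
    · simp only [if_neg h1, if_neg (show ¬ (t + 1 ≤ i) by omega)]
      exact h.right t ht
  · by_cases h1 : s < i <;> by_cases h2 : t < i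
    · simp only [if_pos h1, if_pos h2] at e
      have := h.injx _ (by omega) _ (by omega) e; omega
    · simp only [if_pos h1, if_neg h2] at e
      have := h.injx _ (by omega) _ (by omega) e; omega
    · simp only [if_neg h1, if_pos h2] at e
      have := h.injx _ (by omega) _ (by omega) e; omega
    · simp only [if_neg h1, if_neg h2] at e
      have := h.injx _ (by omega) _ (by omega) e; omega
  · by_cases h1 : s ≤ i <;> by_cases h2 : t ≤ i
    · simp only [if_pos h1, if_pos h2] at e
      have := h.injb _ (by omega) _ (by omega) e; omega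
    · simp only [if_pos h1, if_neg h2] at e
      have := h.injb _ (by omega) _ (by omega) e; omega
    · simp only [if_neg h1, if_pos h2] at e
      have := h.injb _ (by omega) _ (by omega) e; omega
    · simp only [if_neg h1, if_neg h2] at e
      have := h.injb _ (by omega) _ (by omega) e; omega

end rot

end Pool.Agent.H46.GR
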