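import Pool.Agent.H46.GR.Stmts

/-!
# Full path from one end, surplus 1 (task fullB1, helper722)
-/

set_option autoImplicit false

namespace Pool.Agent.H46.GR

open Finset
open scoped Classical

namespace FullB1x

variable {α β : Type} {E : α → β → Prop} {X' : Finset α} {F : Finset β} {y : β}

/-- partial paths -/
structure Gd (E : α → β → Prop) (X' : Finset α) (F : Finset β) (y : β) (j : ℕ) (x : ℕ → α)
    (b : ℕ → β) : Prop where
  path : XPath E j x b
  mem : ∀ i < j, x i ∈ X'
  zero : b 0 = y
  memF : ∀ i, 0 < i → i < j → b i ∈ F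

theorem ext_end {j : ℕ} {x : ℕ → α} {b : ℕ → β} (h : Gd E X' F y j x b) (hj : 1 ≤ j) {f : β}
    (hf : f ∈ F) (hf1 : E (x (j - 1)) f) (hf2 : ∀ i < j, b i ≠ f) {v : α} (hv : v ∈ X')
    (hv1 : ∀ i < j, x i ≠ v) (hv2 : E v f) : ∃ x' b', Gd E X' F y (j + 1) x' b' := by
  refine ⟨fun t => if t < j then x t else v, fun t => if t < j then b t else f, ⟨?_, ?_, ?_, ?_⟩,
    ?_, ?_, ?_⟩
  · intro i hi
    by_cases h1 : i < j
    · simp only [if_pos h1]; exact h.path.left i h1
    · simp only [if_neg h1]; exact hv2
  · intro i hi
    have h1 : i < j := by omega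
    simp only [if_pos h1]
    by_cases h2 : i + 1 < j
    · simp only [if_pos h2]; exact h.path.right i h2
    · simp only [if_neg h2]
      have : i = j - 1 := by omega
      rw [this]; exact hf1
  · intro s hs t ht e
    by_cases h1 : s < j <;> by_cases h2 : t < j
    · simp only [if_pos h1, if_pos h2] at e; exact h.path.injx s h1 t h2 e
    · simp only [if_pos h1, if_neg h2] at e; exact absurd e (hv1 s h1)
    · simp only [if_neg h1, if_pos h2] at e; exact absurd e.symm (hv1 t h2)
    · omega
  · intro s hs t ht e
    by_cases h1 : s < j <;> by_cases h2 : t < j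
    · simp only [if_pos h1, if_pos h2] at e; exact h.path.injb s h1 t h2 e
    · simp only [if_pos h1, if_neg h2] at e; exact absurd e (hf2 s h1)
    · simp only [if_neg h1, if_pos h2] at e; exact absurd e.symm (hf2 t h2)
    · omega
  · intro i hi
    by_cases h1 : i < j
    · simp only [if_pos h1]; exact h.mem i h1
    · simp only [if_neg h1]; exact hv
  · simp only [if_pos (show 0 < j by omega)]; exact h.zero
  · intro i h0 hi
    by_cases h1 : i < j
    · simp only [if_pos h1]; exact h.memF i h0 h1
    · simp only [if_neg h1]; exact hf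

/-- insert `v, f` after `y` -/
theorem ext_front {j : ℕ} {x : ℕ → α} {b : ℕ → β} (h : Gd E X' F y j x b) (hj : 1 ≤ j) {f : β}
    (hf : f ∈ F) (hf1 : E (x 0) f) (hf2 : ∀ i < j, b i ≠ f) {v : α} (hv : v ∈ X')
    (hv1 : ∀ i < j, x i ≠ v) (hv2 : E v f) (hvy : E v y) :
    ∃ x' b', Gd E X' F y (j + 1) x' b' := by
  have hfy : y ≠ f := by rw [← h.zero]; exact hf2 0 (by omega)
  refine ⟨fun t => if t = 0 then v else x (t - 1),
    fun t => if t = 0 then y else if t = 1 then f else b (t - 1), ⟨?_, ?_, ?_, ?_⟩,
    ?_, ?_, ?_⟩
  · intro i hi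
    by_cases h0 : i = 0
    · subst h0; simpa using hvy
    · by_cases h1 : i = 1
      · subst h1; simpa using hf1
      · simp only [if_neg h0, if_neg h1]
        exact h.path.left _ (by omega)
  · intro i hi
    by_cases h0 : i = 0
    · subst h0; simpa using hv2
    · simp only [if_neg h0, if_neg (show ¬ (i + 1 = 0) by omega), if_neg (show ¬ (i + 1 = 1) by omega)]
      have := h.path.right (i - 1) (by omega)
      rwa [show i - 1 + 1 = i + 1 - 1 by omega] at this
  · intro s hs t ht e
    by_cases h1 : s = 0 <;> by_cases h2 : t = 0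
    · omega
    · simp only [if_pos h1, if_neg h2] at e; exact absurd e.symm (hv1 _ (by omega))
    · simp only [if_neg h1, if_pos h2] at e; exact absurd e (hv1 _ (by omega))
    · simp only [if_neg h1, if_neg h2] at e
      have := h.path.injx _ (by omega) _ (by omega) e
      omega
  · have key : ∀ s, s < j + 1 → ∀ t, t < j + 1 → s < t →
        (if s = 0 then y else if s = 1 then f else b (s - 1)) ≠
        (if t = 0 then y else if t = 1 then f else b (t - 1)) := by
      intro s hs t ht hst e
      rw [if_neg (show ¬ t = 0 by omega)] at e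
      by_cases h0 : s = 0
      · rw [if_pos h0] at e
        by_cases h1 : t = 1
        · rw [if_pos h1] at e; exact hfy e
        · rw [if_neg h1, ← h.zero] at e
          have := h.path.injb _ (by omega) _ (by omega) e
          omega
      · rw [if_neg h0, if_neg (show ¬ t = 1 by omega)] at e
        by_cases h1 : s = 1
        · rw [if_pos h1] at e; exact hf2 _ (by omega) e.symm
        · rw [if_neg h1] at e
          have := h.path.injb _ (by omega) _ (by omega) e
          omega
    intro s hs t ht e
    rcases lt_trichotomy s t with h1 | h1 | h1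
    · exact absurd e (key s hs t ht h1)
    · exact h1
    · exact absurd e.symm (key t ht s hs h1)
  · intro i hi
    by_cases h0 : i = 0
    · simp only [if_pos h0]; exact hv
    · simp only [if_neg h0]; exact h.mem _ (by omega)
  · simp
  · intro i h0 hi
    simp only [if_neg (show ¬ i = 0 by omega)]
    by_cases h1 : i = 1
    · simp only [if_pos h1]; exact hf
    · simp only [if_neg h1]; exact h.memF _ (by omega) (by omega)

/-- insert `f', v, f` between `x 0` and `x 1` -/
theorem ext_mid {j : ℕ} {x : ℕ → α} {b : ℕ → β} (h : Gd E X' F y j x b) (hj : 2 ≤ j) {f f' : β}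
    (hf : f ∈ F) (hf' : f' ∈ F) (hff : f' ≠ f) (hf1 : E (x 1) f) (hf1' : E (x 0) f')
    (hf2 : ∀ i < j, b i ≠ f) (hf2' : ∀ i < j, b i ≠ f') {v : α} (hv : v ∈ X')
    (hv1 : ∀ i < j, x i ≠ v) (hv2 : E v f) (hv2' : E v f') :
    ∃ x' b', Gd E X' F y (j + 1) x' b' := by
  have hfy : y ≠ f := by rw [← h.zero]; exact hf2 0 (by omega)
  have hfy' : y ≠ f' := by rw [← h.zero]; exact hf2' 0 (by omega)
  refine ⟨fun t => if t = 0 then x 0 else if t = 1 then v else x (t - 1),
    fun t => if t = 0 then y else if t = 1 then f' else if t = 2 then f else b (t - 1),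
    ⟨?_, ?_, ?_, ?_⟩, ?_, ?_, ?_⟩
  · intro i hi
    by_cases h0 : i = 0
    · subst h0; simp only [if_true]
      have := h.path.left 0 (by omega)
      rwa [h.zero] at this
    · by_cases h1 : i = 1
      · subst h1; simpa using hv2'
      · by_cases h2 : i = 2
        · subst h2; simpa using hf1
        · simp only [if_neg h0, if_neg h1, if_neg h2]
          exact h.path.left _ (by omega)
  · intro i hi
    by_cases h0 : i = 0
    · subst h0; simpa using hf1'
    · by_cases h1 : i = 1
      · subst h1; simpa using hv2
      · simp only [if_neg h0, if_neg h1, if_neg (show ¬ (i + 1 = 0) by omega),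
          if_neg (show ¬ (i + 1 = 1) by omega), if_neg (show ¬ (i + 1 = 2) by omega)]
        have := h.path.right (i - 1) (by omega)
        rwa [show i - 1 + 1 = i + 1 - 1 by omega] at this
  · have key : ∀ s, s < j + 1 → ∀ t, t < j + 1 → s < t →
        (if s = 0 then x 0 else if s = 1 then v else x (s - 1)) ≠
        (if t = 0 then x 0 else if t = 1 then v else x (t - 1)) := by
      intro s hs t ht hst e
      rw [if_neg (show ¬ t = 0 by omega)] at e
      by_cases h0 : s = 0
      · rw [if_pos h0] at e
        by_cases h1 : t = 1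
        · rw [if_pos h1] at e; exact hv1 0 (by omega) e
        · rw [if_neg h1] at e
          have := h.path.injx _ (by omega) _ (by omega) e
          omega
      · rw [if_neg h0, if_neg (show ¬ t = 1 by omega)] at e
        by_cases h1 : s = 1
        · rw [if_pos h1] at e; exact hv1 _ (by omega) e.symm
        · rw [if_neg h1] at e
          have := h.path.injx _ (by omega) _ (by omega) e
          omega
    intro s hs t ht e
    rcases lt_trichotomy s t with h1 | h1 | h1
    · exact absurd e (key s hs t ht h1)
    · exact h1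
    · exact absurd e.symm (key t ht s hs h1)
  · have key : ∀ s, s < j + 1 → ∀ t, t < j + 1 → s < t →
        (if s = 0 then y else if s = 1 then f' else if s = 2 then f else b (s - 1)) ≠
        (if t = 0 then y else if t = 1 then f' else if t = 2 then f else b (t - 1)) := by
      intro s hs t ht hst e
      rw [if_neg (show ¬ t = 0 by omega)] at e
      by_cases h0 : s = 0
      · rw [if_pos h0] at e
        by_cases h1 : t = 1
        · rw [if_pos h1] at e; exact hfy' e
        · rw [if_neg h1] at e
          by_cases h2 : t = 2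
          · rw [if_pos h2] at e; exact hfy e
          · rw [if_neg h2, ← h.zero] at e
            have := h.path.injb _ (by omega) _ (by omega) e
            omega
      · rw [if_neg h0, if_neg (show ¬ t = 1 by omega)] at e
        by_cases h1 : s = 1
        · rw [if_pos h1] at e
          by_cases h2 : t = 2
          · rw [if_pos h2] at e; exact hff e
          · rw [if_neg h2] at e; exact hf2' _ (by omega) e.symm
        · rw [if_neg h1, if_neg (show ¬ t = 2 by omega)] at e
          by_cases h2 : s = 2
          · rw [if_pos h2] at e; exact hf2 _ (by omega) e.symm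
          · rw [if_neg h2] at e
            have := h.path.injb _ (by omega) _ (by omega) e
            omega
    intro s hs t ht e
    rcases lt_trichotomy s t with h1 | h1 | h1
    · exact absurd e (key s hs t ht h1)
    · exact h1
    · exact absurd e.symm (key t ht s hs h1)
  · intro i hi
    by_cases h0 : i = 0
    · simp only [if_pos h0]; exact h.mem _ (by omega)
    · by_cases h1 : i = 1
      · simp only [if_neg h0, if_pos h1]; exact hv
      · simp only [if_neg h0, if_neg h1]; exact h.mem _ (by omega)
  · simp
  · intro i h0 hi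
    simp only [if_neg (show ¬ i = 0 by omega)]
    by_cases h1 : i = 1
    · simp only [if_pos h1]; exact hf'
    · by_cases h2 : i = 2
      · simp only [if_neg h1, if_pos h2]; exact hf
      · simp only [if_neg h1, if_neg h2]; exact h.memF _ (by omega) (by omega)

/-- the reversed path `y, x (j-1), b (j-1), …, b 1, x 0` if `y ~ x (j-1)` -/
theorem flipPath {j : ℕ} {x : ℕ → α} {b : ℕ → β} (h : Gd E X' F y j x b) (hj : 1 ≤ j)
    (hy : E (x (j - 1)) y) :
    Gd E X' F y j (fun t => x (j - 1 - t)) (fun t => if t = 0 then y else b (j - t)) := by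
  refine ⟨⟨?_, ?_, ?_, ?_⟩, ?_, ?_, ?_⟩
  · intro i hi
    by_cases h0 : i = 0
    · subst h0; simpa using hy
    · simp only [if_neg h0]
      have := h.path.right (j - 1 - i) (by omega)
      rwa [show j - 1 - i + 1 = j - i by omega] at this
  · intro i hi
    simp only [if_neg (show ¬ (i + 1 = 0) by omega)]
    have := h.path.left (j - 1 - i) (by omega)
    rwa [show j - (i + 1) = j - 1 - i by omega]
  · intro s hs t ht e
    have := h.path.injx _ (by omega) _ (by omega) e
    omega
  · have key : ∀ s, s < j → ∀ t, t < j → s < t →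
        (if s = 0 then y else b (j - s)) ≠ (if t = 0 then y else b (j - t)) := by
      intro s hs t ht hst e
      rw [if_neg (show ¬ t = 0 by omega)] at e
      by_cases h0 : s = 0
      · rw [if_pos h0, ← h.zero] at e
        have := h.path.injb _ (by omega) _ (by omega) e
        omega
      · rw [if_neg h0] at e
        have := h.path.injb _ (by omega) _ (by omega) e
        omega
    intro s hs t ht e
    rcases lt_trichotomy s t with h1 | h1 | h1
    · exact absurd e (key s hs t ht h1)
    · exact h1
    · exact absurd e.symm (key t ht s hs h1)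
  · intro i hi; exact h.mem _ (by omega)
  · simp
  · intro i h0 hi
    simp only [if_neg (show ¬ i = 0 by omega)]
    exact h.memF _ (by omega) (by omega)

/-- the path around the cycle through `e`: `y, x i, b i, …, b 1, x 0, e, x (j-1), …, x (i+1)` -/
theorem around {j : ℕ} {x : ℕ → α} {b : ℕ → β} (h : Gd E X' F y j x b) {e : β} (he : e ∈ F)
    (he1 : E (x (j - 1)) e) (he0 : E (x 0) e) (he2 : ∀ i < j, b i ≠ e) {i : ℕ} (hi : i + 1 < j)
    (hy : E (x i) y) :
    Gd E X' F y j (fun t => if t ≤ i then x (i - t) else x (j + i - t))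
      (fun t => if t = 0 then y else if t ≤ i then b (i + 1 - t) else
        if t = i + 1 then e else b (j + i + 1 - t)) := by
  have hey : y ≠ e := by rw [← h.zero]; exact he2 0 (by omega)
  refine ⟨⟨?_, ?_, ?_, ?_⟩, ?_, ?_, ?_⟩
  · intro t ht
    by_cases h0 : t = 0
    · subst h0; simpa using hy
    · by_cases h1 : t ≤ i
      · simp only [if_neg h0, if_pos h1]
        have := h.path.right (i - t) (by omega)
        rwa [show i - t + 1 = i + 1 - t by omega] at this
      · by_cases h2 : t = i + 1
        · simp only [if_neg h0, if_neg h1, if_pos h2]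
          rw [h2, show j + i - (i + 1) = j - 1 by omega]; exact he1
        · simp only [if_neg h0, if_neg h1, if_neg h2]
          have := h.path.right (j + i - t) (by omega)
          rwa [show j + i - t + 1 = j + i + 1 - t by omega] at this
  · intro t ht
    simp only [if_neg (show ¬ (t + 1 = 0) by omega)]
    by_cases h1 : t + 1 ≤ i
    · simp only [if_pos (show t ≤ i by omega), if_pos h1]
      have := h.path.left (i - t) (by omega)
      rwa [show i + 1 - (t + 1) = i - t by omega]
    · by_cases h2 : t + 1 = i + 1
      · simp only [if_pos (show t ≤ i by omega), if_neg h1, if_pos h2]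
        rw [show i - t = 0 by omega]; exact he0
      · simp only [if_neg (show ¬ t ≤ i by omega), if_neg h1, if_neg h2]
        have := h.path.left (j + i - t) (by omega)
        rwa [show j + i + 1 - (t + 1) = j + i - t by omega]
  · intro s hs t ht e'
    by_cases h1 : s ≤ i <;> by_cases h2 : t ≤ i
    · simp only [if_pos h1, if_pos h2] at e'
      have := h.path.injx _ (by omega) _ (by omega) e'; omega
    · simp only [if_pos h1, if_neg h2] at e'
      have := h.path.injx _ (by omega) _ (by omega) e'; omega
    · simp only [if_neg h1, if_pos h2] at e'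
      have := h.path.injx _ (by omega) _ (by omega) e'; omega
    · simp only [if_neg h1, if_neg h2] at e'
      have := h.path.injx _ (by omega) _ (by omega) e'; omega
  · have key : ∀ s, s < j → ∀ t, t < j → s < t →
        (if s = 0 then y else if s ≤ i then b (i + 1 - s) else
          if s = i + 1 then e else b (j + i + 1 - s)) ≠
        (if t = 0 then y else if t ≤ i then b (i + 1 - t) else
          if t = i + 1 then e else b (j + i + 1 - t)) := by
      intro s hs t ht hst e'
      rw [if_neg (show ¬ t = 0 by omega)] at e'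
      by_cases h0 : s = 0
      · rw [if_pos h0] at e'
        by_cases h1 : t ≤ i
        · rw [if_pos h1, ← h.zero] at e'
          have := h.path.injb _ (by omega) _ (by omega) e'; omega
        · rw [if_neg h1] at e'
          by_cases h2 : t = i + 1
          · rw [if_pos h2] at e'; exact hey e'
          · rw [if_neg h2, ← h.zero] at e'
            have := h.path.injb _ (by omega) _ (by omega) e'; omega
      · rw [if_neg h0] at e'
        by_cases h1 : s ≤ i
        · rw [if_pos h1] at e'
          by_cases h3 : t ≤ i
          · rw [if_pos h3] at e'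
            have := h.path.injb _ (by omega) _ (by omega) e'; omega
          · rw [if_neg h3] at e'
            by_cases h4 : t = i + 1
            · rw [if_pos h4] at e'; exact he2 _ (by omega) e'
            · rw [if_neg h4] at e'
              have := h.path.injb _ (by omega) _ (by omega) e'; omega
        · rw [if_neg h1, if_neg (show ¬ t ≤ i by omega)] at e'
          by_cases h2 : s = i + 1
          · rw [if_pos h2, if_neg (show ¬ t = i + 1 by omega)] at e'
            exact he2 _ (by omega) e'.symm
          · rw [if_neg h2, if_neg (show ¬ t = i + 1 by omega)] at e'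
            have := h.path.injb _ (by omega) _ (by omega) e'; omega
    intro s hs t ht e'
    rcases lt_trichotomy s t with h1 | h1 | h1
    · exact absurd e' (key s hs t ht h1)
    · exact h1
    · exact absurd e'.symm (key t ht s hs h1)
  · intro t ht
    by_cases h1 : t ≤ i
    · simp only [if_pos h1]; exact h.mem _ (by omega)
    · simp only [if_neg h1]; exact h.mem _ (by omega)
  · simp
  · intro t h0 ht
    simp only [if_neg (show ¬ t = 0 by omega)]
    by_cases h1 : t ≤ i
    · simp only [if_pos h1]; exact h.memF _ (by omega) (by omega)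
    · by_cases h2 : t = i + 1
      · simp only [if_neg h1, if_pos h2]; exact he
      · simp only [if_neg h1, if_neg h2]; exact h.memF _ (by omega) (by omega)

/-- rotation at `e` -/
theorem rotE {j : ℕ} {x : ℕ → α} {b : ℕ → β} (h : Gd E X' F y j x b) {e : β} (he : e ∈ F)
    (he1 : E (x (j - 1)) e) (he2 : ∀ i < j, b i ≠ e) {i : ℕ} (hi : i + 1 < j)
    (hie : E (x i) e) :
    Gd E X' F y j (fun t => if t ≤ i then x t else x (j + i - t))
      (fun t => if t ≤ i then b t else if j + i + 1 - t < j then b (j + i + 1 - t) else e) := by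
  have hY := h.path.toY (by omega) he1 he2
  have hR := (hY.rot (i := i) (by omega) (by simpa using hie)).toX
  have hb : (fun t => if t ≤ i then (if t < j then b t else e) else
      (if j + i + 1 - t < j then b (j + i + 1 - t) else e)) =
      (fun t => if t ≤ i then b t else if j + i + 1 - t < j then b (j + i + 1 - t) else e) := by
    funext t
    by_cases h1 : t ≤ i
    · simp only [if_pos h1, if_pos (show t < j by omega)]
    · simp only [if_neg h1]
  rw [← hb]
  refine ⟨hR, ?_, ?_, ?_⟩
  · intro t ht
    by_cases h1 : t ≤ i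
    · simp only [if_pos h1]; exact h.mem _ (by omega)
    · simp only [if_neg h1]; exact h.mem _ (by omega)
  · simp only [if_pos (Nat.zero_le i), if_pos (show 0 < j by omega)]; exact h.zero
  · intro t h0 ht
    by_cases h1 : t ≤ i
    · simp only [if_pos h1, if_pos (show t < j by omega)]; exact h.memF _ (by omega) (by omega)
    · simp only [if_neg h1]
      by_cases h2 : j + i + 1 - t < j
      · simp only [if_pos h2]; exact h.memF _ (by omega) (by omega)
      · simp only [if_neg h2]; exact he

/-- many unused neighbours -/
theorem unused {j : ℕ} {x : ℕ → α} {b : ℕ → β} (h : Gd E X' F y j x b) (hyF : y ∉ F)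
    (hj : 1 ≤ j) {z : α} (hz : X'.card ≤ (F.filter (fun f => E z f)).card) :
    X'.card + 1 ≤ ((F.filter (fun f => E z f)).filter (fun f => ∀ i < j, b i ≠ f)).card + j := by
  have h1 : F.filter (fun f => E z f) ⊆
      ((F.filter (fun f => E z f)).filter (fun f => ∀ i < j, b i ≠ f)) ∪
        (Ioo 0 j).image b := by
    intro f hf
    by_cases h2 : ∀ i < j, b i ≠ f
    · exact mem_union_left _ (mem_filter.2 ⟨hf, h2⟩)
    · push Not at h2
      obtain ⟨i, hi, hif⟩ := h2
      apply mem_union_right
      rw [mem_image]
      refine ⟨i, ?_, hif⟩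
      rw [mem_Ioo]
      refine ⟨?_, hi⟩
      rcases Nat.eq_zero_or_pos i with h0 | h0
      · exfalso
        apply hyF
        rw [← h.zero, ← h0, hif]
        exact (mem_filter.1 hf).1
      · exact h0
  have h2 := (card_le_card h1).trans (card_union_le _ _)
  have h3 : ((Ioo 0 j).image b).card ≤ j - 1 := by
    refine card_image_le.trans ?_
    rw [Nat.card_Ioo]; omega
  omega

theorem contra (D : ℕ) (hD : X'.card + 1 = 2 * D) (hyF : y ∉ F)
    (hF : ∀ f ∈ F, D ≤ (X'.filter (fun z => E z f)).card)
    (hy : D ≤ (X'.filter (fun z => E z y)).card)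
    (hX : ∀ z ∈ X', X'.card ≤ (F.filter (fun f => E z f)).card)
    {j : ℕ} (hj : 1 ≤ j) (hjm : j < X'.card) {x : ℕ → α} {b : ℕ → β}
    (h : Gd E X' F y j x b) (hmax : ∀ x' b', ¬ Gd E X' F y (j + 1) x' b') : False := by
  -- the end `e`
  have hxj : x (j - 1) ∈ X' := h.mem _ (by omega)
  obtain ⟨e, he⟩ : ((F.filter (fun f => E (x (j - 1)) f)).filter
      (fun f => ∀ i < j, b i ≠ f)).Nonempty := by
    rw [← card_pos]
    have := unused h hyF hj (hX _ hxj)
    omega
  rw [mem_filter, mem_filter] at he
  obtain ⟨⟨heF, he1⟩, he2⟩ := he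
  -- an unused `v`
  have hxs : (range j).image x ⊆ X' := by
    intro z hz
    rw [mem_image] at hz
    obtain ⟨i, hi, rfl⟩ := hz
    exact h.mem i (mem_range.1 hi)
  have hxc : ((range j).image x).card ≤ j := card_image_le.trans (by rw [card_range])
  obtain ⟨v, hv⟩ : (X' \ (range j).image x).Nonempty := by
    rw [← card_pos]
    have := le_card_sdiff ((range j).image x) X'
    omega
  rw [mem_sdiff] at hv
  obtain ⟨hvX, hv0⟩ := hv
  have hv1 : ∀ i < j, x i ≠ v := fun i hi hiv => hv0 (mem_image.2 ⟨i, mem_range.2 hi, hiv⟩)
  -- neighbours of `e`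
  have hNe : ∀ z ∈ X', E z e → ∃ i < j, x i = z := by
    intro z hz hze
    by_contra hcon
    push Not at hcon
    obtain ⟨x', b', h'⟩ := ext_end h hj heF he1 he2 hz hcon hze
    exact hmax _ _ h'
  -- properties of unused neighbours of unused vertices
  have hno : ∀ f ∈ F, (∀ i < j, b i ≠ f) → ∀ w ∈ X', (∀ i < j, x i ≠ w) → E w f →
      ¬ E (x (j - 1)) f ∧ ∀ i, i + 1 < j → E (x i) e → ¬ E (x (i + 1)) f := by
    intro f hf hf2 w hw hw1 hwf
    have hfe : f ≠ e := by
      rintro rfl
      obtain ⟨i, hi, hiw⟩ := hNe w hw hwf
      exact hw1 i hi hiw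
    refine ⟨fun hc => ?_, fun i hi hie hc => ?_⟩
    · obtain ⟨x', b', h'⟩ := ext_end h hj hf hc hf2 hw hw1 hwf
      exact hmax _ _ h'
    · have hR := rotE h heF he1 he2 hi hie
      have hlast : (if j - 1 ≤ i then x (j - 1) else x (j + i - (j - 1))) = x (i + 1) := by
        rw [if_neg (show ¬ j - 1 ≤ i by omega), show j + i - (j - 1) = i + 1 by omega]
      obtain ⟨x', b', h'⟩ := ext_end hR hj hf (by simp only [hlast]; exact hc) (by
        intro t ht
        by_cases h1 : t ≤ i
        · simp only [if_pos h1]; exact hf2 t ht
        · simp only [if_neg h1]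
          by_cases h2 : j + i + 1 - t < j
          · simp only [if_pos h2]; exact hf2 _ h2
          · simp only [if_neg h2]; exact hfe.symm) hw (by
        intro t ht
        by_cases h1 : t ≤ i
        · simp only [if_pos h1]; exact hw1 t ht
        · simp only [if_neg h1]; exact hw1 _ (by omega)) hwf
      exact hmax _ _ h'
  -- the set `S`
  set S1 : Finset α := ((range (j - 1)).filter (fun i => E (x i) e)).image (fun i => x (i + 1))
    with hS1
  have hS1c : D ≤ S1.card + 1 := by
    have e1 : S1.card = ((range (j - 1)).filter (fun i => E (x i) e)).card := by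
      rw [hS1]
      apply card_image_of_injOn
      intro s hs t ht hst
      simp only [coe_filter, mem_range, Set.mem_ofPred_eq] at hs ht
      have := h.path.injx _ (by omega) _ (by omega) hst
      omega
    have e2 : (X'.filter (fun z => E z e)) ⊆
        insert (x (j - 1)) (((range (j - 1)).filter (fun i => E (x i) e)).image x) := by
      intro z hz
      rw [mem_filter] at hz
      obtain ⟨i, hi, rfl⟩ := hNe z hz.1 hz.2
      rw [mem_insert, mem_image]
      by_cases h1 : i = j - 1
      · left; rw [h1]
      · right
        exact ⟨i, mem_filter.2 ⟨mem_range.2 (by omega), hz.2⟩, rfl⟩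
    have e3 := (hF e heF).trans (card_le_card e2)
    have e4 := card_insert_le (x (j - 1)) (((range (j - 1)).filter (fun i => E (x i) e)).image x)
    have e5 : (((range (j - 1)).filter (fun i => E (x i) e)).image x).card ≤
      ((range (j - 1)).filter (fun i => E (x i) e)).card := card_image_le
    omega
  set S : Finset α := insert (x (j - 1)) S1 with hS
  have hSX : S ⊆ X' := by
    intro z hz
    rw [hS, mem_insert] at hz
    rcases hz with rfl | hz
    · exact hxj
    · rw [hS1, mem_image] at hz
      obtain ⟨i, hi, rfl⟩ := hz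
      have := mem_range.1 (mem_filter.1 hi).1
      exact h.mem _ (by omega)
  have hNf : ∀ f ∈ F, (∀ i < j, b i ≠ f) → E v f → X'.filter (fun z => E z f) ⊆ X' \ S := by
    intro f hf hf2 hvf z hz
    rw [mem_filter] at hz
    rw [mem_sdiff]
    refine ⟨hz.1, fun hzS => ?_⟩
    obtain ⟨g1, g2⟩ := hno f hf hf2 v hvX hv1 hvf
    rw [hS, mem_insert] at hzS
    rcases hzS with rfl | hzS
    · exact g1 hz.2
    · rw [hS1, mem_image] at hzS
      obtain ⟨i, hi, rfl⟩ := hzS
      rw [mem_filter, mem_range] at hi
      exact g2 i (by omega) hi.2 hz.2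
  -- two unused neighbours of `v`
  obtain ⟨f, hf0, f', hf0', hff⟩ := one_lt_card.1 (show 1 <
      ((F.filter (fun f => E v f)).filter (fun f => ∀ i < j, b i ≠ f)).card by
    have := unused h hyF hj (hX _ hvX)
    omega)
  rw [mem_filter, mem_filter] at hf0 hf0'
  obtain ⟨⟨hf, hvf⟩, hf2⟩ := hf0
  obtain ⟨⟨hf', hvf'⟩, hf2'⟩ := hf0'
  have hScard : S.card + D ≤ X'.card := by
    have := (hF f hf).trans (card_le_card (hNf f hf hf2 hvf))
    rw [card_sdiff_of_subset hSX] at this
    have h2 := card_le_card hSX
    omega
  have hS1S : S1 ⊆ S := subset_insert _ _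
  have hS1c' := card_le_card hS1S
  have hSS : S1 = S := eq_of_subset_of_card_le hS1S (by omega)
  have hNeq : ∀ f ∈ F, (∀ i < j, b i ≠ f) → E v f → ∀ z ∈ X', z ∉ S → E z f := by
    intro f hf hf2 hvf z hz hzS
    have h1 : X'.filter (fun z => E z f) = X' \ S := by
      apply eq_of_subset_of_card_le (hNf f hf hf2 hvf)
      rw [card_sdiff_of_subset hSX]
      have := hF f hf
      omega
    have h2 : z ∈ X' \ S := mem_sdiff.2 ⟨hz, hzS⟩
    rw [← h1] at h2
    exact (mem_filter.1 h2).2
  -- `j ≥ 2`
  have hxjS : x (j - 1) ∈ S1 := by rw [hSS, hS]; exact mem_insert_self _ _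
  have hj2 : 2 ≤ j := by
    rw [hS1, mem_image] at hxjS
    obtain ⟨i, hi, _⟩ := hxjS
    have := mem_range.1 (mem_filter.1 hi).1
    omega
  have memS : ∀ i, i < j → x i ∈ S → 1 ≤ i ∧ E (x (i - 1)) e := by
    intro i hi hiS
    rw [← hSS, hS1, mem_image] at hiS
    obtain ⟨i', hi', hii⟩ := hiS
    rw [mem_filter, mem_range] at hi'
    have := h.path.injx _ (by omega) _ hi hii
    subst this
    exact ⟨by omega, hi'.2⟩
  have hx0S : x 0 ∉ S := fun hc => by have := (memS 0 (by omega) hc).1; omega
  have hx0f : E (x 0) f := hNeq f hf hf2 hvf _ (h.mem 0 (by omega)) hx0S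
  have hx0f' : E (x 0) f' := hNeq f' hf' hf2' hvf' _ (h.mem 0 (by omega)) hx0S
  -- (b)
  have hx1S : x 1 ∈ S := by
    by_contra hc
    have hx1f := hNeq f hf hf2 hvf _ (h.mem 1 (by omega)) hc
    obtain ⟨x', b', h'⟩ := ext_mid h hj2 hf hf' (fun h => hff h.symm) hx1f hx0f' hf2 hf2' hvX hv1
      hvf hvf'
    exact hmax _ _ h'
  have hx0e : E (x 0) e := by
    have := (memS 1 (by omega) hx1S).2
    simpa using this
  have hfe : f ≠ e := by
    rintro rfl
    obtain ⟨i, hi, hiw⟩ := hNe v hvX hvf
    exact hv1 i hi hiw
  -- (c)
  have hc : ∀ i, i + 1 < j → E (x i) y → x (i + 1) ∈ S := by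
    intro i hi hiy
    by_contra hcS
    have hxf := hNeq f hf hf2 hvf _ (h.mem (i + 1) hi) hcS
    have hA := around h heF he1 hx0e he2 hi hiy
    have hlast : (if j - 1 ≤ i then x (i - (j - 1)) else x (j + i - (j - 1))) = x (i + 1) := by
      rw [if_neg (show ¬ j - 1 ≤ i by omega), show j + i - (j - 1) = i + 1 by omega]
    obtain ⟨x', b', h'⟩ := ext_end hA hj hf (by simp only [hlast]; exact hxf) (by
      intro t ht
      by_cases h0 : t = 0
      · simp only [if_pos h0]; rw [← h.zero]; exact hf2 0 (by omega)
      · by_cases h1 : t ≤ i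
        · simp only [if_neg h0, if_pos h1]; exact hf2 _ (by omega)
        · simp only [if_neg h0, if_neg h1]
          by_cases h2 : t = i + 1
          · simp only [if_pos h2]; exact hfe.symm
          · simp only [if_neg h2]; exact hf2 _ (by omega)) hvX (by
      intro t ht
      by_cases h1 : t ≤ i
      · simp only [if_pos h1]; exact hv1 _ (by omega)
      · simp only [if_neg h1]; exact hv1 _ (by omega)) hvf
    exact hmax _ _ h'
  -- (a)
  have ha : ∀ z ∈ X', E z y → ∃ i < j, x i = z := by
    intro z hz hzy
    by_contra hcon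
    push Not at hcon
    -- an unused neighbour of `z`
    obtain ⟨g, hg⟩ : ((F.filter (fun f => E z f)).filter
        (fun f => ∀ i < j, b i ≠ f)).Nonempty := by
      rw [← card_pos]
      have := unused h hyF hj (hX _ hz)
      omega
    rw [mem_filter, mem_filter] at hg
    obtain ⟨⟨hgF, hzg⟩, hg2⟩ := hg
    -- `x 0 ~ g`
    have hx0g : E (x 0) g := by
      obtain ⟨g1, g2⟩ := hno g hgF hg2 z hz hcon hzg
      have hsub : X'.filter (fun z => E z g) ⊆ X' \ S := by
        intro u hu
        rw [mem_filter] at hu
        rw [mem_sdiff]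
        refine ⟨hu.1, fun huS => ?_⟩
        rw [hS, mem_insert] at huS
        rcases huS with rfl | huS
        · exact g1 hu.2
        · rw [hS1, mem_image] at huS
          obtain ⟨i, hi, rfl⟩ := huS
          rw [mem_filter, mem_range] at hi
          exact g2 i (by omega) hi.2 hu.2
      have h1 : X'.filter (fun z => E z g) = X' \ S := by
        apply eq_of_subset_of_card_le hsub
        rw [card_sdiff_of_subset hSX]
        have := hF g hgF
        omega
      have h2 : x 0 ∈ X' \ S := mem_sdiff.2 ⟨h.mem 0 (by omega), hx0S⟩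
      rw [← h1] at h2
      exact (mem_filter.1 h2).2
    obtain ⟨x', b', h'⟩ := ext_front h hj hgF hx0g hg2 hz hcon hzg hzy
    exact hmax _ _ h'
  -- (d)
  by_cases hyl : E (x (j - 1)) y
  · have hFl := flipPath h hj hyl
    have hlast : x (j - 1 - (j - 1)) = x 0 := by rw [Nat.sub_self]
    obtain ⟨x', b', h'⟩ := ext_end hFl hj hf (by simp only [hlast]; exact hx0f) (by
      intro t ht
      by_cases h0 : t = 0
      · simp only [if_pos h0]; rw [← h.zero]; exact hf2 0 (by omega)
      · simp only [if_neg h0]; exact hf2 _ (by omega)) hvX (by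
      intro t ht
      exact hv1 _ (by omega)) hvf
    exact hmax _ _ h'
  · have e1 : X'.filter (fun z => E z y) ⊆
        ((range (j - 1)).filter (fun i => E (x i) y)).image x := by
      intro z hz
      rw [mem_filter] at hz
      obtain ⟨i, hi, rfl⟩ := ha z hz.1 hz.2
      have hij : i ≠ j - 1 := by rintro rfl; exact hyl hz.2
      exact mem_image.2 ⟨i, mem_filter.2 ⟨mem_range.2 (by omega), hz.2⟩, rfl⟩
    have e2 : (((range (j - 1)).filter (fun i => E (x i) y)).image (fun i => x (i + 1))) ⊆ S := by
      intro z hz
      rw [mem_image] at hz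
      obtain ⟨i, hi, rfl⟩ := hz
      rw [mem_filter, mem_range] at hi
      exact hc i (by omega) hi.2
    have e3 : (((range (j - 1)).filter (fun i => E (x i) y)).image (fun i => x (i + 1))).card =
        ((range (j - 1)).filter (fun i => E (x i) y)).card := by
      apply card_image_of_injOn
      intro s hs t ht hst
      simp only [coe_filter, mem_range, Set.mem_ofPred_eq] at hs ht
      have := h.path.injx _ (by omega) _ (by omega) hst
      omega
    have e4 := card_le_card e1
    have e5 : (((range (j - 1)).filter (fun i => E (x i) y)).image x).card ≤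
      ((range (j - 1)).filter (fun i => E (x i) y)).card := card_image_le
    have e6 := card_le_card e2
    omega

end FullB1x

theorem fullB1 : S_fullB1 := by
  intro α β E X' F y D hD hyF hF hy hX
  have hm : 1 ≤ X'.card := by omega
  -- a path with one vertex
  obtain ⟨z, hz⟩ : (X'.filter (fun z => E z y)).Nonempty := by
    rw [← card_pos]; omega
  rw [mem_filter] at hz
  have h1 : ∃ x b, FullB1x.Gd E X' F y 1 x b := by
    refine ⟨fun _ => z, fun _ => y, ⟨?_, ?_, ?_, ?_⟩, ?_, rfl, ?_⟩
    · intro i _; exact hz.2
    · intro i hi; omega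
    · intro i hi t ht _; omega
    · intro i hi t ht _; omega
    · intro i _; exact hz.1
    · intro i h0 hi; omega
  have key : ∀ j, 1 ≤ j → j ≤ X'.card → ∃ x b, FullB1x.Gd E X' F y j x b := by
    intro j hj
    induction j, hj using Nat.le_induction with
    | base => intro _; exact h1
    | succ j hj ih =>
      intro hj'
      obtain ⟨x, b, h⟩ := ih (by omega)
      by_contra hcon
      push Not at hcon
      exact FullB1x.contra D hD hyF hF hy hX hj (by omega) h hcon
  obtain ⟨x, b, h⟩ := key X'.card hm le_rfl
  exact ⟨x, b, h.path, h.mem, h.zero, h.memF⟩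

end Pool.Agent.H46.GR
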