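import Pool.Agent.H46.GR.Defs

/-!
# Statements (with complete paper proofs) of the lemmas for the lower bound
`r(K_{n,n}, C_{2k}, 3) ≥ c_k n` for all `k ≥ 4`  (MP_52ca01_co, full solution).

Everything is about a bipartite graph `E : α → β → Prop`; `YPath`, `XPath`, rotations are in `Defs`.
-/

namespace Pool.Agent.H46.GR

open Finset
open scoped Classical

/-- **TC (tight counting).** `b 0, x 0, …, x (q-1), b q` a path, `q + 1 = 2 D`, both ends have `≥ D`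
neighbours among the `x i`, and no crossing.  Then both have exactly `D`, and for `i+1<q`:
`x (i+1) ~ b 0 ↔ x i ≁ b q`.
PROOF. `I = {i<q | x i ~ b 0}`, `J = {i<q | x i ~ b q}`.  `I ⊆ [0,q-2]` (as `x (q-1) ≁ b 0`) and
`J + 1 ⊆ [2,q]` are disjoint subsets of `[0,q]` (if `i+1 ∈ I`, `i ∈ J` then crossing), with
`|I| + |J| ≥ 2D = q+1`.  So `I ∪ (J+1) = [0,q]`, `|I| = |J| = D`. -/
def S_tc : Prop := ∀ (α β : Type) (E : α → β → Prop) (q D : ℕ) (x : ℕ → α) (b : ℕ → β),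
  YPath E q x b → q + 1 = 2 * D →
  D ≤ ((range q).filter (fun i => E (x i) (b 0))).card →
  D ≤ ((range q).filter (fun i => E (x i) (b q))).card →
  ¬ E (x 0) (b q) → ¬ E (x (q - 1)) (b 0) →
  (∀ i, i + 1 < q → E (x i) (b q) → ¬ E (x (i + 1)) (b 0)) →
  ((range q).filter (fun i => E (x i) (b 0))).card = D ∧
  ((range q).filter (fun i => E (x i) (b q))).card = D ∧
  ∀ i, i + 1 < q → (E (x (i + 1)) (b 0) ↔ ¬ E (x i) (b q))

/-- **Blade lemma.**  `|X'| = q`, `q + 1 = 2 D`.  All paths below use exactly the vertices `X'` on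
the α side and β-vertices in `F`.  (H1) the first end of every such full path has `≥ D` neighbours
in `X'` (by reversing, also the last one); (H2) no full cycle (a cycle is an `XPath` whose last
`x` is adjacent to its first `b`).  Then for a full path `b 0, x 0, …, x (q-1), b q`:
`N(b 0) ∩ X'` has exactly `D` elements, is `{x 0} ∪ {x (i+1) : x i ≁ b q}`, and EVERY `f ∈ F`
adjacent to `x 0` is the first end of some full path and has the same neighbours in `X'` as `b 0`.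

PROOF.  Because `x` is injective with values in `X'` and `|X'| = q`, `X' = {x i : i < q}`.
(0) `S_tc` applies to every full path `(x,b)`: no `x 0 ~ b q` (apply H2 to the reversed path, drop its
last b), no `x (q-1) ~ b 0` (H2), no crossing `x i ~ b q`, `x (i+1) ~ b 0` (`YPath.rot` at `i` gives a
full path whose last x is `x (i+1)` and whose first b is `b 0`; H2).  So (TC):
`x (i+1) ~ b 0 ↔ x i ≁ b q` for `i+1<q`.   This gives the first two claims.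
Let `f ∈ F`, `f ~ x 0`.
(1) `f ∉ {b i}`: replace `b 0` by `f`: full path; (TC) for it and for the old one give
`x j ~ f ↔ x j ~ b 0` for `1 ≤ j`, and `x 0 ~` both.  `f = b 0`: trivial.  `f = b q`: excluded by (0).
(2) `f = b i` with `1 ≤ i ≤ q-1`.  (2a) `x i ~ b 0`: otherwise by (TC) at `i-1`, `x (i-1) ~ b q`;
`YPath.rot` at `i-1` gives a full path from `b 0` with first x `= x 0` and last b `= b i`, and
`x 0 ~ b i`, excluded by (0) for that path.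
(2b) `YPath.rotL` at `i` gives the full path
`b i, x (i-1), b (i-1), …, x 0, b 0, x i, b (i+1), …, b q`, first end `b i = f`.  (TC) for it:
`x (j-1) ~ b i ↔ x j ≁ b q` for `1 ≤ j ≤ i-1`;  `x (j+1) ~ b i ↔ x j ≁ b q` for `i ≤ j`, `j+1<q`.
(2c) Claim: `x j ≁ b q` for all `j ≤ i-1`.  `j=0`: (0).  `x (i-1) ≁ b q`: (TC) and (2a).  `x 1 ≁ b q` if
`i ≥ 2`: (2b) with `j = 1` as `x 0 ~ b i`.  If the claim fails there is `c` with `3 ≤ c ≤ i-1`,
`x (c-1) ~ b q`, `x c ≁ b q`.  Then by (TC) `x c ≁ b 0` and `x (c+1) ~ b 0`.  `rotL` at `c+1` and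
(TC)/(2b) with `j=1`: `x 0 ~ b (c+1)` (since `x 1 ≁ b q`).  `rot` at `c-1`: full path
`b 0, x 0, …, x (c-1), b q, x (q-1), …, x (c+1), b (c+1), x c, b c`; (TC) at its last step:
`x c ~ b 0 ↔ x (c+1) ≁ b c`, so `x (c+1) ~ b c`.  Then
`b (c+1), x c, b c, x (c+1), b (c+2), x (c+2), …, b (q-1), x (q-1), b q, x (c-1), b (c-1), x (c-2), …,
b 1, x 0` is a full XPath (`x' t = x (c+t)` for `t ≤ q-1-c`, `x' t = x (q-1-t)` for `t ≥ q-c`;
`b' 0 = b (c+1)`, `b' 1 = b c`, `b' t = b (c+t)` for `2 ≤ t ≤ q-c`, `b' t = b (q-t)` for `t > q-c`)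
and `x 0 ~ b (c+1)`: contradicts H2.
(2d) So for `j ≤ i-2`: `x j ~ b i` by (2b),(2c); `x (i-1), x i ~ b i` (path); for `j ≥ i+1`:
`x j ~ b i ↔ x (j-1) ≁ b q ↔ x j ~ b 0`.  And `x j ~ b 0` for all `j ≤ i` by (2c),(TC). So equal. -/
def S_blade : Prop := ∀ (α β : Type) (E : α → β → Prop) (X' : Finset α) (F : Set β) (D q : ℕ),
  q + 1 = 2 * D → X'.card = q →
  (∀ (x : ℕ → α) (b : ℕ → β), YPath E q x b → (∀ i < q, x i ∈ X') → (∀ i ≤ q, b i ∈ F) →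
    D ≤ (X'.filter (fun z => E z (b 0))).card) →
  (∀ (x : ℕ → α) (b : ℕ → β), XPath E q x b → (∀ i < q, x i ∈ X') → (∀ i < q, b i ∈ F) →
    ¬ E (x (q - 1)) (b 0)) →
  ∀ (x : ℕ → α) (b : ℕ → β), YPath E q x b → (∀ i < q, x i ∈ X') → (∀ i ≤ q, b i ∈ F) →
    (X'.filter (fun z => E z (b 0))).card = D ∧
    (∀ z ∈ X', E z (b 0) ↔ (z = x 0 ∨ ∃ i, i + 1 < q ∧ z = x (i + 1) ∧ ¬ E (x i) (b q))) ∧
    ∀ f ∈ F, E (x 0) f →
      (∃ (x' : ℕ → α) (b' : ℕ → β), YPath E q x' b' ∧ (∀ i < q, x' i ∈ X') ∧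
        (∀ i ≤ q, b' i ∈ F) ∧ b' 0 = f) ∧
      ∀ z ∈ X', E z f ↔ E z (b 0)

/-- connected bipartite graph with parts `A`, `B`, minimum degree `≥ D`, all edges between them -/
structure Conn {α β : Type} (E : α → β → Prop) (D : ℕ) (A : Finset α) (B : Finset β) : Prop where
  supp : ∀ u v, E u v → u ∈ A ∧ v ∈ B
  degA : ∀ u ∈ A, D ≤ (B.filter (fun v => E u v)).card
  degB : ∀ v ∈ B, D ≤ (A.filter (fun u => E u v)).card
  conn : ∀ A₁ ⊆ A, ∀ B₁ ⊆ B, (A₁.Nonempty ∨ B₁.Nonempty) →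
    (∀ u v, E u v → (u ∈ A₁ ↔ v ∈ B₁)) → A₁ = A ∧ B₁ = B

/-- **Cycle lemma.**  Connected, min degree `≥ D`, no `XPath` with `q+1`, a cycle with `q` vertices on
each side, `q < k ≤ 2D`, and `|B| ≥ q+1`.  Then `|A| = q`.
PROOF.  Cyclic shifts: for `i<q`, `x' t = x ((i+t)%q)`, `b' t = b ((i+t)%q)` is again such a cycle
(XPath + closing edge), `b' 0 = b i`, `x' 0 = x i`.  `X' = {x i}`, `Y' = {b i}`.
(1) If `u ∉ X'`, `u ~ b i`, `u ~ v` with `v ∉ Y'`: `v, u, b' 0, x' 0, …, b' (q-1), x' (q-1)` is an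
XPath with `q+1`: contradiction.  (2) If `v ∉ Y'`, `v ~ x i`, `v ~ u`, `u ∉ X'`: shift so that
`x' (q-1) = x i`, then `b' 0, x' 0, …, x' (q-1), v, u`: contradiction.  (3) So
`A₁ = X' ∪ {u ∈ A : u ~ some b j}`, `B₁ = Y' ∪ {v ∈ B : v ~ some x j}` is closed under adjacency, hence
everything, and `N(u) ⊆ Y'` for `u ∈ A \ X'`, `N(v) ⊆ X'` for `v ∈ B \ Y'`.  (4) Suppose
`u ∈ A \ X'`; there is `v ∈ B \ Y'` as `|B| ≥ q+1`.  `{i<q : u ~ b i}` and `{i<q : x i ~ v}` have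
`≥ D` elements each, `2D ≥ k > q`, so a common `i`; shift by `i`:
`v, x' 0, b' 1, x' 1, …, b' (q-1), x' (q-1), b' 0, u` is an XPath with `q+1`: contradiction.
So `A = X'`. -/
def S_cyc : Prop := ∀ (α β : Type) (E : α → β → Prop) (k D : ℕ) (A : Finset α) (B : Finset β)
  (q : ℕ) (x : ℕ → α) (b : ℕ → β),
  Conn E D A B → k ≤ 2 * D → 1 ≤ q → q + 1 ≤ k → (∀ x' b', ¬ XPath E (q + 1) x' b') →
  XPath E q x b → E (x (q - 1)) (b 0) → q + 1 ≤ B.card → A.card = q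

/-- **Structure theorem.**  Connected, min degree `≥ D`, `k ≤ 2D`, no path with `2k` vertices.  Then
one side has `≤ k-1` vertices or (only when `2D = k`) there is a blade vertex `u`: all neighbours of
`u` have the same neighbourhood `S`, `|S| = D`.
PROOF (from S_blade, S_cyc).  Let `q` be maximal with an `XPath E q`; `1 ≤ q ≤ k-1`.
Case YY: there is `YPath E q x b`.  `N(b 0) ⊆ {x i}`: otherwise reversed path plus `u` is XPath(q+1);
`N(b q) ⊆ {x i}` similarly.  If `x 0 ~ b q`, or `x (q-1) ~ b 0`, or `x i ~ b q ∧ x (i+1) ~ b 0`, there is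
a cycle with `q` x's (first: `b q, x 0, b 1, x 1, …, x (q-1)`; second: drop `b q`; third:
`YPath.rot` at `i`, drop the last b), so `S_cyc` gives `|A| = q` (`|B| ≥ q+1` because of the q+1 b's).
Otherwise `I = {i<q : x i ~ b 0}` and `J+1`, `J = {i<q : x i ~ b q}`, are disjoint in `[0,q]`, so
`2D ≤ q+1 ≤ k ≤ 2D`, equality.  Apply `S_blade` with `X' = {x i}`, `F = Set.univ`: H1: as for `b 0`
above every full path has `N(b' 0) ⊆ {x' i} = X'`; H2: a full cycle gives `|A| = q` by `S_cyc`, done.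
Result: `u = x 0`, `S = N(b 0)`; every `v ~ x 0` is a first end of a full path, so `N(v) ⊆ X'`, and
`N(v) = N(b 0)`.
Case XX: `YPath (flip E) q`: apply the previous case to `flip E` (note `XPath (flip E) m` and
`XPath E m` are equivalent by reversing; `Conn` is symmetric).
Case neither: take `XPath E q x b`.  `N(x (q-1)) ⊆ {b i}` (else YPath E q), `N(b 0) ⊆ {x i}` (else
YPath (flip E) q: `u, b 0, x 0, b 1, …, x (q-1)`).  `{i<q : x i ~ b 0}` and `{i<q : x (q-1) ~ b i}` have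
`≥ D` elements, `2D ≥ k > q`: common `i`; then `b 0, x 0, …, b i, x (q-1), b (q-1), …, b (i+1), x i` is
an XPath closed by `x i ~ b 0`: a cycle on the same vertices.  A vertex outside adjacent to the cycle
gives (after a cyclic shift) a `YPath E q` or `YPath (flip E) q`, excluded; so by connectivity
`A = {x i}`, `|A| = q ≤ k-1`. -/
def S_struct : Prop := ∀ (α β : Type) (E : α → β → Prop) (k D : ℕ) (A : Finset α) (B : Finset β),
  Conn E D A B → 2 ≤ k → k ≤ 2 * D → (∀ x b, ¬ XPath E k x b) → (A.Nonempty ∨ B.Nonempty) →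
  A.card + 1 ≤ k ∨ B.card + 1 ≤ k ∨
  (2 * D = k ∧ ∃ u ∈ A, ∃ S ⊆ A, S.card = D ∧ ∀ v, E u v → ∀ z, E z v ↔ z ∈ S) ∨
  (2 * D = k ∧ ∃ v ∈ B, ∃ S ⊆ B, S.card = D ∧ ∀ u, E u v → ∀ z, E u z ↔ z ∈ S)

/-- **Full path lemma (surplus ≥ 2).**
PROOF.  `m = |X'|`.  Take `j` maximal (`1 ≤ j ≤ m`) with an `XPath E j x b`, all `x i ∈ X'`, `b 0 = y`,
`b i ∈ F` for `0<i<j`.  `x (j-1)` has `≥ m ≥ j` neighbours in `F`, so one, `e`, is unused.  Append
`e`: `YPath E j`.  If `e ~ v ∈ X'` unused, the path extends: contradiction; so `N(e) ∩ X' ⊆ {x i}`.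
If `j < m`: take `v ∈ X'` unused and `f ∈ F`, `f ~ v`, `f ≠ e`, `f` unused.  `f ≁ x (i+1)` whenever
`i+1<j`, `x i ~ e` (`YPath.rot` at `i`, drop the last b, append `f, v`: longer path).  As
`#{i+1<j : x i ~ e} ≥ D-1` this gives `D ≤ |N(f)∩X'| ≤ m-(D-1)`, contradiction with `m+2 ≤ 2D`.
So `j = m`.  If `y' ~ x (m-1)` or `y' ~ x (i+1)` for some `i+1<m` with `x i ~ e` we get the full path
(drop last b of the (rotated) path and append `y'`).  Otherwise `D ≤ |N(y')∩X'| ≤ m-(D-1)`,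
contradiction. -/
def S_fullA : Prop := ∀ (α β : Type) (E : α → β → Prop) (X' : Finset α) (F : Finset β)
  (y y' : β) (D : ℕ), X'.card + 2 ≤ 2 * D → y ≠ y' → y ∉ F → y' ∉ F →
  (∀ f ∈ F, D ≤ (X'.filter (fun z => E z f)).card) →
  D ≤ (X'.filter (fun z => E z y)).card → D ≤ (X'.filter (fun z => E z y')).card →
  (∀ z ∈ X', X'.card ≤ (F.filter (fun f => E z f)).card) → FullPath E X' F y y'

/-- **Full path from one end (surplus 1).**
PROOF.  `m = |X'|`, `m+1 = 2D`.  Take `j` maximal as in `S_fullA`; suppose `j < m`.  `e ∈ F` unused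
neighbour of `x (j-1)`; `N(e)∩X' ⊆ {x i}`.  `S = {x (i+1) : i+1<j, x i ~ e} ∪ {x (j-1)}`; the first
part has `≥ D-1` elements.  For each unused `v ∈ X'` and unused `f ∈ F`, `f ~ v` (then `f ≠ e`):
`N(f) ∩ S = ∅` (rotation, as in S_fullA), so `D ≤ m - |S|`, `|S| ≤ D-1`; hence `|S| = D-1`,
`S = {x (i+1) : i+1<j, x i ~ e}` and `N(f)∩X' = X' \ S`.  `j ≥ 2` (if `j=1`, `N(e)∩X' = {x 0}`, so `D ≤ 1`,
`m ≤ 1`).  So `x 0 ∉ S`, `x 0 ~ f`.  (a) `v ≁ y`: else `y, v, f, x 0, b 1, x 1, …` is longer.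
(b) `x 1 ∈ S`: `v` has `≥ m ≥ j+1` neighbours in `F`, so two unused `f, f'`; if `x 1 ∉ S` then
`x 1 ~ f`, `x 0 ~ f'`, and `y, x 0, f', v, f, x 1, b 2, …` is longer.  So `x 0 ~ e`.
(c) If `y ~ x i`, `i+1<j`, then `y, x i, b i, x (i-1), …, b 1, x 0, e, x (j-1), b (j-1), …, x (i+1)` is
a path on the same x's; if `x (i+1) ∉ S` append `f, v`: longer.  So `x (i+1) ∈ S`.
(d) `N(y)∩X' ⊆ {x i}` by (a), `≥ D` elements; if `y ≁ x (j-1)`, (c) injects it into `S`, `|S| = D-1`,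
impossible.  So `y ~ x (j-1)`, and `y, x (j-1), b (j-1), x (j-2), …, b 1, x 0, f, v` is longer.
Contradiction. -/
def S_fullB1 : Prop := ∀ (α β : Type) (E : α → β → Prop) (X' : Finset α) (F : Finset β)
  (y : β) (D : ℕ), X'.card + 1 = 2 * D → y ∉ F →
  (∀ f ∈ F, D ≤ (X'.filter (fun z => E z f)).card) →
  D ≤ (X'.filter (fun z => E z y)).card →
  (∀ z ∈ X', X'.card ≤ (F.filter (fun f => E z f)).card) →
  ∃ (x : ℕ → α) (b : ℕ → β), XPath E X'.card x b ∧ (∀ i < X'.card, x i ∈ X') ∧ b 0 = y ∧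
    ∀ i, 0 < i → i < X'.card → b i ∈ F

/-- **Full path lemma (surplus 1).**  Either a full path `y → y'` or `y, y'` are twins of degree `D`
and many `f ∈ F` are twins of `y`.
PROOF (from S_fullB1, S_blade).  `q = |X'|`, `q+1 = 2D`.  If `q = 1`: full path.  Let `q ≥ 2`, so
`D ≥ 2`, and suppose there is no full path.  `S_fullB1`: XPath `y = b 0, x 0, …, x (q-1)`.  `e ∈ F` an
unused neighbour of `x (q-1)` (it has `≥ q` in `F`, `q-1` are used).
`S = {x (i+1) : i+1<q, x i ~ e}`, `|S| ≥ D-1`.  `y' ≁ x (q-1)`, `y' ≁` all of `S` (else full path: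
`YPath.rot`, drop last b, append y').  So `|S ∪ {x (q-1)}| ≤ q - D = D-1`, hence `x (q-1) ∈ S`,
`|S| = D-1`, `N(y')∩X' = X' \ S ∋ x 0`.  So `y', x 0, b 1, …, x (q-1)` is a path too, and the same
argument with `y, y'` exchanged (a full path `y' → y` reversed is one `y → y'`) gives
`N(y)∩X' = X' \ S = N(y')∩X'`, size `D`.
No full cycle with all b's in `F`: if `XPath E q x b`, `x (q-1) ~ b 0`, then since `2D = q+1 > q` there
are cyclically consecutive `x i, x (i+1 mod q)` both in `N(y) = N(y')`; then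
`y, x (i+1), b (i+2), …, b i, x i, y'` (around the cycle) is a full path.
`x 0` has `≥ q` neighbours in `F`, so an unused one `y₀ ∉ {b 1, …, b (q-1)}`; `y₀ ≠ e` (no full cycle).
Apply `S_blade` with `F` to `y₀, x 0, b 1, …, x (q-1), e`: every `f ∈ F` adjacent to `x 0` has
`N(f)∩X' = N(y₀)∩X' = {x 0} ∪ {x (i+1) : x i ≁ e} = X' \ S = N(y)∩X'`.  There are `≥ q` such `f`. -/
def S_fullB : Prop := ∀ (α β : Type) (E : α → β → Prop) (X' : Finset α) (F : Finset β)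
  (y y' : β) (D : ℕ), X'.card + 1 = 2 * D → y ≠ y' → y ∉ F → y' ∉ F →
  (∀ f ∈ F, D ≤ (X'.filter (fun z => E z f)).card) →
  D ≤ (X'.filter (fun z => E z y)).card → D ≤ (X'.filter (fun z => E z y')).card →
  (∀ z ∈ X', X'.card ≤ (F.filter (fun f => E z f)).card) →
  FullPath E X' F y y' ∨
  (2 ≤ D ∧ (X'.filter (fun z => E z y)).card = D ∧ (∀ z ∈ X', E z y ↔ E z y') ∧
    X'.card ≤ (F.filter (fun f => ∀ z ∈ X', E z f ↔ E z y)).card)

/-- **Short path lemma.**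
PROOF.  Write a path `y = b 0, x 0, …, x (r-1), b r = y'` with all `x i ∈ X`, `b i ∈ Y`; `l` = number of
`i<r` with `P (x i)`.  Show by induction on `j`, `2 ≤ j ≤ p`: there is a path with `l ≥ j`, `r ≤ 2j-1`.
START `j=2`: choose `c ∈ N(y)∩P`, `c' ∈ N(y')∩P`, `c ≠ c'`, `g ∈ N(c)∩Y \ {y,y'}`,
`g' ∈ N(c')∩Y \ {y,y',g}`.  If `z ∈ N(g)∩N(g') \ {c,c'}`: `y,c,g,z,g',c',y'` (r=3).  Otherwise, since
`|N(g)∩N(g')∩X| ≥ p ≥ 2`, `g ~ c'` and `y,c,g,c',y'` (r=2).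
STEP `j → j+1`, `j<p`.  If `l ≥ j+1` done.  So `l = j`, `r ≤ 2j-1`.  `y` has `≥ p > l` neighbours in
`X∩P`, so choose `v ∈ X∩P∩N(y)`, `v` not on the path.  The path has `r+1 ≤ 2j ≤ 2p-2` b's, `v` has
`≥ 2p+1` neighbours in `Y`: three distinct unused ports `f₁,f₂,f₃ ∈ N(v)∩Y`.
Any new path below has `l' ≥ j+1` and `r' ≤ r+2 ≤ 2(j+1)-1`.
 * If a port `f ~ x 0`: `y, v, f, x 0, …` (r+1, l+1): done.
 * If ports `f ≠ f'` and `i+1<r` with `f ~ x i`, `f' ~ x (i+1)`: `…, x i, f, v, f', x (i+1), …`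
   (replaces `b (i+1)`): done.
 * Case all `x i` satisfy `P` (so `r = l = j ≤ p-1`): let `f = f₁` (so `f ≁ x 0`), and `g ∈ N(x 0)∩Y`
   unused, `g ≠ f`.  `|N(f)∩N(g)∩X| ≥ p`, `x 0` is not in it, at most `(r-1)+1 ≤ p-1` of them are in
   `{x 1..x (r-1), v}`: so there is `z` new; `y, v, f, z, g, x 0, b 1, …` (r+2, l+1 or l+2): done.
 * Case some `x i` with `¬ P (x i)`.  For two distinct ports `f,f'`:
   `#{j<r : x j ~ f} + #{j<r : x j ~ f'} ≤ r ≤ 2j-1` (the sets `{j+1 : x j ~ f, j+1<r}` and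
   `{j : x j ~ f'}` are disjoint subsets of `[1,r-1]`).  So at least two of the three ports, `f, f'`,
   have `≤ j-1 ≤ p-2` neighbours on the path, hence `≥ 2` common neighbours off the path with each
   `b t`.  If `v ~ b i`: choose `c ∈ N(f)∩N(b (i+1))` off the path, `c ≠ v`; replace `x i` by
   `v, f, c`:  `…, b i, v, f, c, b (i+1), …` (r+1, l ≥ +1).  If `v ~ b (i+1)`: `…, b i, c, f, v, b (i+1)…`
   with `c ∈ N(f)∩N(b i)` off the path, `c ≠ v`.  Otherwise `c ∈ N(f)∩N(b i)`, `c' ∈ N(f')∩N(b (i+1))`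
   off the path, `c ≠ c'`, both `≠ v` automatically: `…, b i, c, f, v, f', c', b (i+1), …` (r+2, l ≥ +1).
   Done. -/
def S_short : Prop := ∀ (α β : Type) (E : α → β → Prop) (X : Finset α) (Y : Finset β)
  (P : α → Prop) (p : ℕ) (y y' : β), 2 ≤ p → y ∈ Y → y' ∈ Y → y ≠ y' →
  (∀ u ∈ Y, ∀ v ∈ Y, u ≠ v → p ≤ (X.filter (fun z => E z u ∧ E z v)).card) →
  p ≤ (X.filter (fun z => P z ∧ E z y)).card → p ≤ (X.filter (fun z => P z ∧ E z y')).card →
  (∀ z ∈ X, 2 * p + 1 ≤ (Y.filter (fun f => E z f)).card) →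
  ∃ (r : ℕ) (x : ℕ → α) (b : ℕ → β), YPath E r x b ∧ (∀ i < r, x i ∈ X) ∧ (∀ i ≤ r, b i ∈ Y) ∧
    b 0 = y ∧ b r = y' ∧ r + 1 ≤ 2 * p ∧ p ≤ ((range r).filter (fun i => P (x i))).card

/-- **Closing lemma.**  Two internally disjoint paths with the same ends, one in colour `c`, one in
colour `d`, with `r + s = k` x-vertices together form a 2-coloured `C_{2k}`.
PROOF.  `X t = x t` (`t<r`), `x' (s-1-(t-r))` (`r ≤ t<k`); `B t = b t` (`t ≤ r`), `b' (s-(t-r))` (`t>r`);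
an `XPath` with `k`, closed by `x' 0 ~ b' 0 = b 0`. -/
def S_close : Prop := ∀ (α β C : Type) (k : ℕ) (χ : α → β → C), NoC k χ →
  ∀ (c d : C) (r s : ℕ) (x : ℕ → α) (b : ℕ → β) (x' : ℕ → α) (b' : ℕ → β), 1 ≤ r → 1 ≤ s →
  r + s = k → YPath (fun u v => χ u v = c) r x b → YPath (fun u v => χ u v = d) s x' b' →
  b 0 = b' 0 → b r = b' s → (∀ i < r, ∀ j < s, x i ≠ x' j) →
  (∀ i, 0 < i → i < r → ∀ j, 0 < j → j < s → b i ≠ b' j) → False

/-- **Complete block.**  If all of `S` is adjacent to `y, y'` and all of `Φ`, `|Φ| ≥ |S| - 1`, there is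
an `S`-full path `y → y'` through `Φ`.
PROOF.  Enumerate `S` as `x 0, …, x (s-1)` and `s-1` elements of `Φ` as `b 1, …, b (s-1)`. -/
def S_complete : Prop := ∀ (α β : Type) (E : α → β → Prop) (S : Finset α) (Φ : Finset β)
  (y y' : β), S.Nonempty → y ≠ y' → y ∉ Φ → y' ∉ Φ → (∀ z ∈ S, E z y ∧ E z y') →
  (∀ z ∈ S, ∀ f ∈ Φ, E z f) → S.card ≤ Φ.card + 1 → FullPath E S Φ y y'

/-- **Peeling.**
PROOF.  Induction on `|X| + |Y|`.  `|Y| = k`: `e ≤ |X| k`.  `|Y| > k`: if some `x ∈ X` has `≤ k` neighbours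
in `Y`, remove it; if some `y ∈ Y` has `≤ D-1` neighbours in `X`, remove it (`|Y|-1 ≥ k`).  Otherwise,
if `X = ∅` the first alternative holds (`e = 0`), if not take `X' = X`, `Y' = Y`. -/
def S_peel : Prop := ∀ (α β : Type) (E : α → β → Prop) (k D : ℕ) (X : Finset α) (Y : Finset β),
  1 ≤ D → k ≤ Y.card →
  (edg E X Y ≤ k * X.card + (D - 1) * (Y.card - k)) ∨
  ∃ X' ⊆ X, ∃ Y' ⊆ Y, X'.Nonempty ∧ k + 1 ≤ Y'.card ∧
    (∀ v ∈ Y', D ≤ (X'.filter (fun u => E u v)).card) ∧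
    (∀ u ∈ X', k + 1 ≤ (Y'.filter (fun v => E u v)).card) ∧
    edg E X Y ≤ edg E X' Y' + k * (X.card - X'.card) + (D - 1) * (Y.card - Y'.card)

/-- Accounting predicate: there are charges `Zβ`, `Zα` on ordered pairs, supported on pairs lying in a
unit (and at most the number of common neighbours inside the unit), such that
`2(2k-1)² e(A,B) ≤ 2k(k-1)(2k-1)(|A|+|B|) + (k-1)(ΣZβ + ΣZα)`. -/
def Acc {α β : Type} [Fintype α] [Fintype β] (E : α → β → Prop) (k D : ℕ) (A : Finset α)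
    (B : Finset β) : Prop :=
  ∃ (Zβ : β → β → ℕ) (Zα : α → α → ℕ),
    (∀ y y', Zβ y y' ≠ 0 → y ∈ B ∧ y' ∈ B ∧ y ≠ y' ∧ ∃ (X : Finset α) (Y : Finset β),
      IsUnit' E k D X Y ∧ y ∈ Y ∧ y' ∈ Y ∧
      Zβ y y' ≤ (X.filter (fun z => E z y ∧ E z y')).card) ∧
    (∀ y y', Zα y y' ≠ 0 → y ∈ A ∧ y' ∈ A ∧ y ≠ y' ∧ ∃ (X : Finset β) (Y : Finset α),
      IsUnit' (fun v u => E u v) k D X Y ∧ y ∈ Y ∧ y' ∈ Y ∧
      Zα y y' ≤ (X.filter (fun z => E y z ∧ E y' z)).card) ∧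
    2 * (2 * k - 1) ^ 2 * edg E A B ≤ 2 * k * (k - 1) * (2 * k - 1) * (A.card + B.card) +
      (k - 1) * (∑ y : β, ∑ y' : β, Zβ y y' + ∑ y : α, ∑ y' : α, Zα y y')

/-- **Accounting, small side.**  If `|A| ≤ k-1` then `Acc`.
PROOF.  (`λ = (2k-1)/(k(k-1)) = 1/k + 1/(k-1)`, `M = 2k(k-1)(2k-1)`, `λM = 2(2k-1)²`; note
`λ(D-1) ≤ 1` as `2(D-1) ≤ k-1`.)  If `|B| ≤ k`: `Z = 0`, `e ≤ |A||B|`,
`λ|A||B| = |A||B|/k + |A||B|/(k-1) ≤ |A| + |B|`.  If `|B| ≥ k` use `S_peel` with `X=A, Y=B`.  First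
alternative: `λe ≤ λk|A| + (|B|-k)`, `λk|A| = |A| + k|A|/(k-1) ≤ |A| + k`.  `Z=0`.  Second: unit
`(X',Y')`, `m = |X'|`, `b' = |Y'| ≥ k+1`;
`Zβ y y' = |{z ∈ X' : z ~ y, z ~ y'}|` for `y ≠ y'` in `Y'`, else 0; `Zα = 0`;
`ΣZβ = Σ_{u∈X'} d_u(d_u-1)`, `d_u = |N(u)∩Y'| ≤ b'`.  For naturals `d`:
`2(2k-1)d ≤ 2k(2k-1) + d(d-1)` (since `(d-2k)(d-2k+1) ≥ 0`), i.e. `d/k ≤ 1 + θ d(d-1)/2`,
`θ = 1/(k(2k-1))`; so `λd ≤ 1 + b'/(k-1) + θd(d-1)/2`, summed over `X'`: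
`λe' ≤ m + m b'/(k-1) + (θ/2)ΣZβ`.  And `λk(|A|-m) = (|A|-m) + (|A|-m)k/(k-1) ≤
(|A|-m) + (k-1-m) b'/(k-1)`, `λ(D-1)(|B|-b') ≤ |B|-b'`.  Total:
`λe ≤ |A| + |B| + (θ/2)ΣZβ`. -/
def S_accSmall : Prop := ∀ (α β : Type) [Fintype α] [Fintype β] (E : α → β → Prop) (k D : ℕ)
  (A : Finset α) (B : Finset β), 4 ≤ k → 1 ≤ D → k ≤ 2 * D → 2 * D ≤ k + 1 → A.card + 1 ≤ k →
  Acc E k D A B

/-- **Accounting.**  For `E` without path on `2k` vertices `Acc` holds for all `A,B`.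
PROOF (from S_struct, S_accSmall).  Strong induction on `|A|+|B|`.  (i) `A`, `B` both empty: trivial.
(ii) a vertex of degree `≤ D-1` (inside `A,B`): remove it (`λ(D-1) ≤ 1`), same `Z`.
(iii) not connected: `A₁ ⊆ A`, `B₁ ⊆ B` not both empty, not everything, no edges between
`A₁,B\B₁` and `A\A₁,B₁`: apply induction to `(A₁,B₁)` and `(A\A₁,B\B₁)`, add the `Z`'s (disjoint
supports).  (iv) otherwise `Conn` holds for `E` restricted to `A×B`; use `S_struct`.  `|A| ≤ k-1`: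
`S_accSmall`.  `|B| ≤ k-1`: `S_accSmall` for the flipped graph (`Acc` is symmetric).  Blade vertex
`u ∈ A` with `N(u)∩B = Yu`, every `v ∈ Yu` has `N(v)∩A = S`, `|S| = D`, `2D = k`: apply induction to
`(A \ {u}, B \ Yu)`; `b = |Yu| ≥ D`; `Db` edges are removed (all edges at `Yu`; the edges at `u` are
among them).  `λD = 1 + 1/(2(k-1))`.  Need `b/(2(k-1)) ≤ 1 + (θ/2)Z`.  If `b ≤ 2(k-1)`: no new charge.
If `b ≥ 2k-1`: `(S,Yu)` is a unit (`|S| = D ≤ k-1`; complete to each other), new charges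
`Zβ y y' = D` on ordered pairs of distinct elements of `Yu`: `(θ/2) D b(b-1) = b(b-1)/(4(2k-1)) ≥
b(k-1)/(2(2k-1)) ≥ b/(2(k-1))` as `(k-1)² ≥ 2k-1` for `k ≥ 4`.  Blade vertex in `B`: flip. -/
def S_account : Prop := ∀ (α β : Type) [Fintype α] [Fintype β] (E : α → β → Prop) (k D : ℕ)
  (A : Finset α) (B : Finset β), 4 ≤ k → k ≤ 2 * D → 2 * D ≤ k + 1 → (∀ x b, ¬ XPath E k x b) →
  Acc E k D A B

/-- **Swap.**  A complete block in colour `c` and a unit in colour `d` with `≤ k-2` x-vertices sharing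
`y, y'`: contradiction.
PROOF (from S_fullA, S_complete, S_close).  `m₂ = |X₂|`.  `D ≤ |N_d(y)∩X₂|`, `N_d(y)` is disjoint from
`S` (colour c), so `|S \ X₂| ≥ D - (m₂ - D) ≥ k - m₂ ≥ 2`.  Choose `S' ⊆ S \ X₂`, `|S'| = k - m₂`, and
`Φ' ⊆ Φ`, `|Φ'| = k - m₂ - 1`.  `S_complete`: `S'`-full path `y → y'` through `Φ'` in colour `c`.
`S_fullA` with `X' = X₂`, `F = Y₂ \ ({y,y'} ∪ Φ')`: every `z ∈ X₂` has
`≥ k+1 - 2 - (k-m₂-1) = m₂` neighbours in `F`; `m₂ + 2 ≤ k ≤ 2D`.  `S_close`: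
`(k-m₂) + m₂ = k`. -/
def S_swap : Prop := ∀ (α β C : Type) (k D : ℕ) (χ : α → β → C), NoC k χ → k ≤ 2 * D →
  ∀ (c d : C) (S X₂ : Finset α) (Φ Y₂ : Finset β) (y y' : β), c ≠ d → y ≠ y' →
  IsUnit' (fun u v => χ u v = d) k D X₂ Y₂ → y ∈ Y₂ → y' ∈ Y₂ → X₂.card + 2 ≤ k →
  D ≤ S.card → (∀ z ∈ S, χ z y = c ∧ χ z y' = c) → y ∉ Φ → y' ∉ Φ →
  (∀ z ∈ S, ∀ f ∈ Φ, χ z f = c) → k ≤ X₂.card + Φ.card + 1 → False

/-- **Exclusivity.**  Two units of different colours with `≤ k-2` x-vertices cannot share `y ≠ y'`.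
PROOF (from S_short, S_fullA, S_fullB, S_close, S_swap).  `p = k - m₁ ≥ 2`, `m₁ ≥ D` so `2p ≤ k`.
`S_short` in colour `d`, `X = X₂`, `P z := z ∉ X₁`: path `Q` from `y` to `y'`, `r ≤ 2p-1`, `l ≥ p`.
`T` = x's of `Q` in `X₁`, `|T| = r - l ≤ r - p`; `T ⊆ T' ⊆ X₁`, `|T'| = r - p`; `X' = X₁ \ T'`,
`|X'| = k - r`; `D' = D - (r-p) ≥ 1`; `F = Y₁ \ (b's of Q)`.  `S_fullA` (or `S_fullB` if
`2D = k`, `r = 2p-1`) and `S_close`.  In the twin alternative of `S_fullB`: `T' ⊆ N_c(y)`,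
`N_c(y)∩X₁` has `D` elements, ...; apply `S_swap`. -/
def S_excl : Prop := ∀ (α β C : Type) (k D : ℕ) (χ : α → β → C), NoC k χ → k ≤ 2 * D →
  2 * D ≤ k + 1 →
  ∀ (c d : C) (X₁ X₂ : Finset α) (Y₁ Y₂ : Finset β) (y y' : β), c ≠ d → y ≠ y' →
  IsUnit' (fun u v => χ u v = c) k D X₁ Y₁ → IsUnit' (fun u v => χ u v = d) k D X₂ Y₂ →
  y ∈ Y₁ → y' ∈ Y₁ → y ∈ Y₂ → y' ∈ Y₂ → X₁.card + 2 ≤ k → X₂.card ≤ X₁.card → False

/-- **Capacity.**  The total charge of a pair is at most `k-1`. -/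
def S_capacity : Prop := ∀ (α β C : Type) (k D : ℕ) (χ : α → β → C), NoC k χ → 4 ≤ k →
  k ≤ 2 * D → 2 * D ≤ k + 1 →
  ∀ (y y' : β), y ≠ y' → ∀ (T : Finset C) (z : C → ℕ) (X : C → Finset α) (Y : C → Finset β),
  (∀ c ∈ T, IsUnit' (fun u v => χ u v = c) k D (X c) (Y c) ∧ y ∈ Y c ∧ y' ∈ Y c ∧
    z c ≤ ((X c).filter (fun u => χ u y = c ∧ χ u y' = c)).card) →
  ∑ c ∈ T, z c ≤ k - 1

/-- **Core inequality** `(3k-2) n ≤ 2(k-1)(2k-1) r`. -/
def S_core : Prop := ∀ (n r k : ℕ) (χ : Fin n → Fin n → Fin r), 4 ≤ k → NoC k χ →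
  (3 * k - 2) * n ≤ 2 * (k - 1) * (2 * k - 1) * r

/-! ### The official definitions -/

/-- `χ` is an `(H,q)`-colouring of `G`: every copy of `H` in `G` (an injective map of the vertices
sending edges of `H` to edges of `G`) has edges of at least `q` distinct colours. -/
def IsGenColouring {V W C : Type} (G : SimpleGraph V) (H : SimpleGraph W) (q : ℕ)
    (χ : Sym2 V → C) : Prop :=
  ∀ f : W → V, Function.Injective f → (∀ a b, H.Adj a b → G.Adj (f a) (f b)) →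
    q ≤ (χ '' (Sym2.map f '' H.edgeSet)).ncard

/-- The generalized Ramsey number `r(G,H,q)`: the least number of colours in an
`(H,q)`-colouring of `G`. -/
noncomputable def genRamsey {V W : Type} (G : SimpleGraph V) (H : SimpleGraph W) (q : ℕ) : ℕ :=
  sInf {r : ℕ | ∃ χ : Sym2 V → Fin r, IsGenColouring G H q χ}

/-- **Bridge.**  An `(C_{2k},3)`-colouring of `K_{n,n}` gives `NoC`.
PROOF.  Given `c, d, x, b` as in `NoC` with the closing edge, define `f : Fin (2k) → Fin n ⊕ Fin n`,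
`f (2i) = inr (b i)`, `f (2i+1) = inl (x i)`.  It is injective, sends edges of the cycle graph to
edges, and all edges get colour `c` or `d`, so the image has `ncard ≤ 2 < 3`. -/
def S_bridge : Prop := ∀ (n r k : ℕ) (χ : Sym2 (Fin n ⊕ Fin n) → Fin r), 2 ≤ k →
  IsGenColouring (completeBipartiteGraph (Fin n) (Fin n)) (SimpleGraph.cycleGraph (2 * k)) 3 χ →
  NoC k (fun u v => χ s(Sum.inl u, Sum.inr v))

/-- **Rainbow.**  There is some `(C_{2k},3)`-colouring (all edges different colours). -/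
def S_rainbow : Prop := ∀ (n k : ℕ), 2 ≤ k → ∃ (r : ℕ) (χ : Sym2 (Fin n ⊕ Fin n) → Fin r),
  IsGenColouring (completeBipartiteGraph (Fin n) (Fin n)) (SimpleGraph.cycleGraph (2 * k)) 3 χ

end Pool.Agent.H46.GR
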