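import Pool.Agent.H46.GR.Stmts

namespace Pool.Agent.H46.GR

open Finset
open scoped Classical

theorem tc : S_tc := by
  intro α β E q D x b hP hq hI hJ h0 hl hc
  set I := (range q).filter (fun i => E (x i) (b 0)) with hIdef
  set J := (range q).filter (fun i => E (x i) (b q)) with hJdef
  have hcardJ : (J.image (· + 1)).card = J.card :=
    card_image_of_injective _ (fun a b h => by simpa using h)
  have hdisj : Disjoint I (J.image (· + 1)) := by
    rw [Finset.disjoint_left]
    intro i hi hj
    rw [mem_image] at hj
    obtain ⟨j, hj, rfl⟩ := hj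
    rw [hIdef, mem_filter, mem_range] at hi
    rw [hJdef, mem_filter, mem_range] at hj
    exact hc j hi.1 hj.2 hi.2
  have hsub : I ∪ J.image (· + 1) ⊆ range (q + 1) := by
    intro i hi
    rw [mem_union, mem_image] at hi
    rw [mem_range]
    rcases hi with hi | ⟨j, hj, rfl⟩
    · have := (mem_range.1 (mem_filter.1 hi).1); omega
    · have := (mem_range.1 (mem_filter.1 hj).1); omega
  have hcard := card_le_card hsub
  rw [card_union_of_disjoint hdisj, hcardJ, card_range] at hcard
  have hIJ : I.card = D ∧ J.card = D := by omega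
  have heq : I ∪ J.image (· + 1) = range (q + 1) := by
    apply eq_of_subset_of_card_le hsub
    rw [card_union_of_disjoint hdisj, hcardJ, card_range]
    omega
  refine ⟨hIJ.1, hIJ.2, fun i hi => ⟨fun h1 h2 => hc i hi h2 h1, fun h2 => ?_⟩⟩
  have h3 : i + 1 ∈ I ∪ J.image (· + 1) := by
    rw [heq, mem_range]; omega
  rw [mem_union, mem_image] at h3
  rcases h3 with h3 | ⟨j, hj, hji⟩
  · exact (mem_filter.1 h3).2
  · have : j = i := by simpa using hji
    subst this
    exact absurd (mem_filter.1 hj).2 h2

end Pool.Agent.H46.GR
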